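import Mathlib

/-!
The colouring argument: a hypergraph with cyclic structure, an odd number of vertices, and a
2-regular incidence selection splitting in two parts is 2-colourable.
-/

set_option linter.unusedSectionVars false

namespace H52TF

variable {V : Type} [Fintype V] [DecidableEq V]

open Classical in
theorem exists_crossing (e : V → Finset V) (next : V → V)
    (trans : ∀ U : Set V, U.Nonempty → (∀ u ∈ U, next u ∈ U) → U = Set.univ)
    (he1 : ∀ v, v ∈ e v) (he2 : ∀ v, next v ∈ e v)
    (R : V → V → Prop)
    (hrow : ∀ b, (Finset.univ.filter (fun u => R b u)).card = 2)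
    (hcol : ∀ u, (Finset.univ.filter (fun b => R b u)).card = 2)
    (κ κ' : V → Bool) (hκ : ∀ b u, R b u → κ' b = κ u)
    (o : Bool) (h1 : ∃ b, κ' b = o) (h2 : ∃ b, κ' b = !o) :
    ∃ b, κ' b = o ∧ ∃ y ∈ e b, κ y = !o := by
  by_contra hcon
  push Not at hcon
  have hcon' : ∀ b, κ' b = o → ∀ y ∈ e b, κ y = o := by
    intro b hb y hy
    have := hcon b hb y hy
    cases hk : κ y <;> cases ho : o <;> simp_all
  have hcard : (Finset.univ.filter (fun b => κ' b = o)).card * 2 =
      (Finset.univ.filter (fun u => κ u = o)).card * 2 := by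
    apply Finset.card_mul_eq_card_mul R
    · intro b hb
      rw [← hrow b]
      congr 1
      ext u
      simp only [Finset.mem_bipartiteAbove, Finset.mem_filter, Finset.mem_univ, true_and] at hb ⊢
      constructor
      · exact fun h => h.2
      · exact fun h => ⟨by rw [← hκ b u h]; exact hb, h⟩
    · intro u hu
      rw [← hcol u]
      congr 1
      ext b
      simp only [Finset.mem_bipartiteBelow, Finset.mem_filter, Finset.mem_univ, true_and] at hu ⊢
      constructor
      · exact fun h => h.2
      · exact fun h => ⟨by rw [hκ b u h]; exact hu, h⟩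
  have hsub : Finset.univ.filter (fun b => κ' b = o) ⊆ Finset.univ.filter (fun u => κ u = o) := by
    intro b hb
    simp only [Finset.mem_filter, Finset.mem_univ, true_and] at hb ⊢
    exact hcon' b hb b (he1 b)
  have heq := Finset.eq_of_subset_of_card_le hsub (by omega)
  have huniv : {b : V | κ' b = o} = Set.univ := by
    apply trans
    · exact h1
    · intro u hu
      have h3 : next u ∈ Finset.univ.filter (fun u => κ u = o) := by
        simp only [Finset.mem_filter, Finset.mem_univ, true_and]
        exact hcon' u hu _ (he2 u)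
      rw [← heq] at h3
      simpa using h3
  obtain ⟨b, hb⟩ := h2
  have : b ∈ {b : V | κ' b = o} := by rw [huniv]; trivial
  have hb2 : κ' b = o := this
  rw [hb] at hb2
  cases o <;> simp at hb2

open Classical in
theorem colourable_of_two (e : V → Finset V) (next : V → V)
    (trans : ∀ U : Set V, U.Nonempty → (∀ u ∈ U, next u ∈ U) → U = Set.univ)
    (he1 : ∀ v, v ∈ e v) (he2 : ∀ v, next v ∈ e v)
    (hodd : Odd (Fintype.card V))
    (R : V → V → Prop) (hRe : ∀ b u, R b u → u ∈ e b)
    (hrow : ∀ b, (Finset.univ.filter (fun u => R b u)).card = 2)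
    (hcol : ∀ u, (Finset.univ.filter (fun b => R b u)).card = 2)
    (κ κ' : V → Bool) (hκ : ∀ b u, R b u → κ' b = κ u)
    (h1 : ∃ b, κ' b = true) (h2 : ∃ b, κ' b = false)
    (solv : ∀ T : Finset V, (∀ o, Even (T.filter (fun b => κ' b = o)).card) →
      ∃ c : V → ZMod 2, ∀ b u u', R b u → R b u' → u ≠ u' →
        c u + c u' = if b ∈ T then 1 else 0) :
    ∃ c : V → Bool, ∀ b, ∃ u ∈ e b, ∃ u' ∈ e b, c u ≠ c u' := by
  -- the odd class
  obtain ⟨o, ho1, ho2⟩ : ∃ o : Bool, Odd (Finset.univ.filter (fun b => κ' b = o)).card ∧
      Even (Finset.univ.filter (fun b => κ' b = !o)).card := by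
    have hsum : (Finset.univ.filter (fun b => κ' b = true)).card +
        (Finset.univ.filter (fun b => κ' b = false)).card = Fintype.card V := by
      rw [← Finset.card_univ, ← Finset.card_filter_add_card_filter_not (s := Finset.univ)
        (fun b => κ' b = true)]
      congr 2
      ext b
      simp
    rcases Nat.even_or_odd (Finset.univ.filter (fun b => κ' b = true)).card with h | h
    · refine ⟨false, ?_, by simpa using h⟩
      rw [← hsum] at hodd
      rcases Nat.even_or_odd (Finset.univ.filter (fun b => κ' b = false)).card with h' | h'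
      · exact absurd (h.add h') (Nat.not_even_iff_odd.mpr hodd)
      · exact h'
    · refine ⟨true, h, ?_⟩
      rw [← hsum] at hodd
      rcases Nat.even_or_odd (Finset.univ.filter (fun b => κ' b = false)).card with h' | h'
      · simpa using h'
      · exact absurd (h.add_odd h') (Nat.not_even_iff_odd.mpr hodd)
  have hex : ∀ o : Bool, ∃ b, κ' b = o := by
    intro o
    cases o
    · exact h2
    · exact h1
  obtain ⟨b0, hb0, y, hy, hyo⟩ := exists_crossing e next trans he1 he2 R hrow hcol κ κ' hκ o
    (hex _) (hex _)
  obtain ⟨c, hc⟩ := solv (Finset.univ.erase b0) (by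
    intro o'
    by_cases h : o' = o
    · subst h
      have : (Finset.univ.erase b0).filter (fun b => κ' b = o') =
          (Finset.univ.filter (fun b => κ' b = o')).erase b0 := by
        ext b
        simp only [Finset.mem_filter, Finset.mem_erase, Finset.mem_univ, true_and, and_true]
      rw [this, Finset.card_erase_of_mem (by simp [hb0])]
      exact Nat.Odd.sub_odd ho1 odd_one
    · have ho' : o' = !o := by
        cases o <;> cases o' <;> simp_all
      subst ho'
      have : (Finset.univ.erase b0).filter (fun b => κ' b = !o) =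
          (Finset.univ.filter (fun b => κ' b = !o)) := by
        ext b
        simp only [Finset.mem_filter, Finset.mem_erase, Finset.mem_univ, true_and, and_true]
        constructor
        · exact fun h => h.2
        · intro h
          refine ⟨?_, h⟩
          rintro rfl
          rw [hb0] at h
          cases o <;> simp at h
      rw [this]
      exact ho2)
  -- row elements
  have hrow' : ∀ b, ∃ u u', u ≠ u' ∧ R b u ∧ R b u' := by
    intro b
    obtain ⟨u, u', hne, huu⟩ := Finset.card_eq_two.mp (hrow b)
    refine ⟨u, u', hne, ?_, ?_⟩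
    · have : u ∈ Finset.univ.filter (fun u => R b u) := by rw [huu]; simp
      simpa using this
    · have : u' ∈ Finset.univ.filter (fun u => R b u) := by rw [huu]; simp
      simpa using this
  have key : ∀ c : V → ZMod 2, (∀ b u u', R b u → R b u' → u ≠ u' →
        c u + c u' = if b ∈ Finset.univ.erase b0 then 1 else 0) →
        (∃ u, R b0 u ∧ c u ≠ c y) →
      ∃ c : V → Bool, ∀ b, ∃ u ∈ e b, ∃ u' ∈ e b, c u ≠ c u' := by
    intro c hc hu
    refine ⟨fun v => decide (c v = 1), ?_⟩
    have hdec : ∀ u u', c u ≠ c u' → decide (c u = 1) ≠ decide (c u' = 1) := by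
      intro u u' h
      generalize c u = a at h
      generalize c u' = b at h
      revert a b
      decide
    intro b
    by_cases hb : b = b0
    · subst hb
      obtain ⟨u, hu1, hu2⟩ := hu
      exact ⟨u, hRe _ _ hu1, y, hy, hdec _ _ hu2⟩
    · obtain ⟨u, u', hne, hu1, hu2⟩ := hrow' b
      refine ⟨u, hRe _ _ hu1, u', hRe _ _ hu2, hdec _ _ ?_⟩
      have h3 := hc b u u' hu1 hu2 hne
      rw [if_pos (by simp [hb])] at h3
      intro h4
      rw [h4] at h3
      generalize c u' = a at h3
      revert a
      decide
  obtain ⟨u0, u0', hne0, hu0, hu0'⟩ := hrow' b0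
  by_cases hcy : c u0 = c y
  · -- flip
    apply key (fun v => c v + if κ v = !o then 1 else 0)
    · intro b u u' h3 h4 h5
      have h6 := hc b u u' h3 h4 h5
      have h7 : κ u = κ u' := by rw [← hκ b u h3, ← hκ b u' h4]
      rw [← h6, h7]
      split_ifs
      · have : (1 : ZMod 2) + 1 = 0 := by decide
        linear_combination this
      · ring
    · refine ⟨u0, hu0, ?_⟩
      have h8 : κ u0 = o := by rw [← hκ b0 u0 hu0, hb0]
      have h9 : ¬ (κ u0 = !o) := by rw [h8]; cases o <;> simp
      simp only [h9, hyo, if_true, if_false, hcy]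
      generalize c y = a
      revert a
      decide
  · exact key c hc ⟨u0, hu0, hcy⟩

end H52TF
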