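import Mathlib

/-!
Hamiltonicity from a transitive self-map following edges.
-/

set_option linter.unusedSectionVars false

namespace H52TF

open SimpleGraph

theorem isHamiltonian_of_trans {W : Type} [Fintype W] [DecidableEq W] (G : SimpleGraph W)
    (σ : W → W) (trans : ∀ U : Set W, U.Nonempty → (∀ u ∈ U, σ u ∈ U) → U = Set.univ)
    (hadj : ∀ a, G.Adj a (σ a)) (h3 : 3 ≤ Fintype.card W) : G.IsHamiltonian := by
  have hne : Nonempty W := by
    rw [← Fintype.card_pos_iff]; omega
  obtain ⟨a0⟩ := hne
  have hsurj : Function.Surjective σ := by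
    rw [← Set.range_eq_univ]
    apply trans
    · exact ⟨σ a0, a0, rfl⟩
    · intro u _
      exact ⟨u, rfl⟩
  have hinj : Function.Injective σ := Finite.injective_iff_surjective.mpr hsurj
  have hne1 : ∀ a, σ a ≠ a := fun a h => (hadj a).ne h.symm
  have hne2 : ∀ a, σ (σ a) ≠ a := by
    intro a h
    have h1 : ({a, σ a} : Set W) = Set.univ := by
      apply trans
      · exact ⟨a, by simp⟩
      · intro u hu
        rcases hu with rfl | hu
        · simp
        · rw [Set.mem_singleton_iff] at hu
          rw [hu, h]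
          simp
    have h2 : Fintype.card W ≤ 2 := by
      rw [← Nat.card_eq_fintype_card, ← Set.ncard_univ, ← h1]
      exact Set.ncard_insert_le _ _ |>.trans (by simp)
    omega
  let H : SimpleGraph W := SimpleGraph.fromRel (fun a b => σ a = b)
  have hH : ∀ a b, H.Adj a b ↔ (a ≠ b ∧ (σ a = b ∨ σ b = a)) := fun a b => by
    simp only [H, SimpleGraph.fromRel_adj]
  have hHG : H ≤ G := by
    intro a b hab
    rw [hH] at hab
    rcases hab.2 with h | h
    · rw [← h]; exact hadj a
    · rw [← h]; exact (hadj b).symm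
  have hcyc : H.IsCycles := by
    intro a _
    obtain ⟨b, hb⟩ := hsurj a
    have : H.neighborSet a = {σ a, b} := by
      ext x
      rw [SimpleGraph.mem_neighborSet, hH]
      simp only [Set.mem_insert_iff, Set.mem_singleton_iff]
      constructor
      · rintro ⟨_, h | h⟩
        · left; exact h.symm
        · right; exact hinj (by rw [h, hb])
      · rintro (h | h)
        · rw [h]
          exact ⟨(hne1 a).symm, Or.inl rfl⟩
        · rw [h]
          exact ⟨by rw [← hb]; exact hne1 b, Or.inr hb⟩
    rw [this, Set.ncard_pair]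
    intro h
    apply hne2 b
    rw [hb, h]
  have hadjH : ∀ a, H.Adj a (σ a) := fun a => by
    rw [hH]; exact ⟨(hne1 a).symm, Or.inl rfl⟩
  have hsupp : (H.connectedComponentMk a0).supp = Set.univ := by
    apply trans
    · exact ⟨a0, rfl⟩
    · intro u hu
      rw [SimpleGraph.ConnectedComponent.mem_supp_iff] at hu ⊢
      rw [← hu, SimpleGraph.ConnectedComponent.eq]
      exact (hadjH u).reachable.symm
  obtain ⟨p, hp1, hp2⟩ := hcyc.exists_cycle_toSubgraph_verts_eq_connectedComponentSupp
    (c := H.connectedComponentMk a0) (v := a0) rfl ⟨σ a0, hadjH a0⟩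
  rw [hsupp] at hp2
  apply SimpleGraph.IsHamiltonian.mono hHG
  intro _
  refine ⟨a0, p, ?_⟩
  refine ⟨hp1, ?_⟩
  apply hp1.isPath_tail.isHamiltonian_of_mem
  intro w
  have hw : w ∈ p.support := by
    rw [← SimpleGraph.Walk.mem_verts_toSubgraph, hp2]
    trivial
  rw [SimpleGraph.Walk.support_tail_of_not_nil p hp1.not_nil]
  rw [SimpleGraph.Walk.mem_support_iff] at hw
  rcases hw with rfl | hw
  · exact SimpleGraph.Walk.end_mem_tail_support hp1.not_nil
  · exact hw

end H52TF
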