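import Mathlib

/-!
Cyclic gap structures: the recursive construction of non-2-colourable hypergraphs whose
incidence graph is Hamiltonian.
-/

set_option linter.unusedSectionVars false

namespace H52TF

/-- A cyclic gap structure on `V`. -/
structure GapStr (V : Type) where
  next : V → V
  P : V → Finset V
  Q : V → Finset V
  trans : ∀ U : Set V, U.Nonempty → (∀ u ∈ U, next u ∈ U) → U = Set.univ
  memP : ∀ v, v ∈ P v
  memP' : ∀ v, next v ∈ P v
  inv : ∀ c : V → Bool, ∃ v, ∃ X : Bool, (∀ u ∈ P v, c u = X) ∧ (∀ u ∈ Q v, c u = !X)

variable {V : Type} [Fintype V] [DecidableEq V]

/-- the embedding of the old vertices -/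
def emb (V : Type) : V ↪ Option (Option V) where
  toFun v := some (some v)
  inj' := by
    intro a b h
    simpa using h

theorem none_notMem_map_emb (s : Finset V) : (none : Option (Option V)) ∉ s.map (emb V) := by
  intro h
  rw [Finset.mem_map] at h
  obtain ⟨x, _, hx⟩ := h
  exact absurd hx (by simp [emb])

theorem some_none_notMem_map_emb (s : Finset V) :
    (some none : Option (Option V)) ∉ s.map (emb V) := by
  intro h
  rw [Finset.mem_map] at h
  obtain ⟨x, _, hx⟩ := h
  change some (some x) = some none at hx
  simp at hx

/-- Refinement of the gap `v0`. -/
def GapStr.refine (S : GapStr V) (v0 : V) : GapStr (Option (Option V)) where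
  next x := match x with
    | none => some none
    | some none => some (some (S.next v0))
    | some (some v) => if v = v0 then none else some (some (S.next v))
  P x := match x with
    | none => insert none (insert (some none) ((S.Q v0).map (emb V)))
    | some none => insert (some none) ((S.P v0).map (emb V))
    | some (some v) => if v = v0 then insert none ((S.P v).map (emb V)) else (S.P v).map (emb V)
  Q x := match x with
    | none => (S.P v0).map (emb V)
    | some none => (S.Q v0).map (emb V)
    | some (some v) => (S.Q v).map (emb V)
  trans := by
    intro U hU hcl
    have h1 : none ∈ U → (some none : Option (Option V)) ∈ U := fun h => hcl _ h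
    have h2 : (some none : Option (Option V)) ∈ U → some (some (S.next v0)) ∈ U := fun h => hcl _ h
    have h3 : ∀ v, v ≠ v0 → (some (some v) : Option (Option V)) ∈ U →
        some (some (S.next v)) ∈ U := by
      intro v hv h
      have := hcl _ h
      simpa [hv] using this
    have h4 : (some (some v0) : Option (Option V)) ∈ U → none ∈ U := by
      intro h
      have := hcl _ h
      simpa using this
    have hW : {v : V | (some (some v) : Option (Option V)) ∈ U} = Set.univ := by
      apply S.trans
      · obtain ⟨x, hx⟩ := hU
        match x, hx with
        | none, hx => exact ⟨_, h2 (h1 hx)⟩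
        | some none, hx => exact ⟨_, h2 hx⟩
        | some (some v), hx => exact ⟨v, hx⟩
      · intro v hv
        by_cases h : v = v0
        · subst h
          exact h2 (h1 (h4 hv))
        · exact h3 v h hv
    have hall : ∀ v : V, (some (some v) : Option (Option V)) ∈ U := by
      intro v
      have : v ∈ {v : V | (some (some v) : Option (Option V)) ∈ U} := by
        rw [hW]; trivial
      exact this
    have hn : none ∈ U := h4 (hall v0)
    apply Set.eq_univ_of_forall
    intro x
    match x with
    | none => exact hn
    | some none => exact h1 hn
    | some (some v) => exact hall v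
  memP := by
    intro x
    match x with
    | none => simp
    | some none => simp
    | some (some v) =>
      by_cases h : v = v0
      · simp only [h, if_true]
        apply Finset.mem_insert_of_mem
        rw [Finset.mem_map]
        exact ⟨v0, S.memP v0, rfl⟩
      · simp only [h, if_false]
        rw [Finset.mem_map]
        exact ⟨v, S.memP v, rfl⟩
  memP' := by
    intro x
    match x with
    | none => simp
    | some none =>
      apply Finset.mem_insert_of_mem
      rw [Finset.mem_map]
      exact ⟨S.next v0, S.memP' v0, rfl⟩
    | some (some v) =>
      by_cases h : v = v0
      · simp [h]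
      · simp only [h, if_false]
        rw [Finset.mem_map]
        exact ⟨S.next v, S.memP' v, rfl⟩
  inv := by
    intro c
    obtain ⟨v, X, hP, hQ⟩ := S.inv (fun v => c (some (some v)))
    have hP' : ∀ u ∈ (S.P v).map (emb V), c u = X := by
      intro u hu
      rw [Finset.mem_map] at hu
      obtain ⟨w, hw, rfl⟩ := hu
      exact hP w hw
    have hQ' : ∀ u ∈ (S.Q v).map (emb V), c u = !X := by
      intro u hu
      rw [Finset.mem_map] at hu
      obtain ⟨w, hw, rfl⟩ := hu
      exact hQ w hw
    by_cases h : v = v0
    · subst h
      by_cases c1 : c none = X
      · refine ⟨some (some v), X, ?_, ?_⟩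
        · simp only [if_true]
          intro u hu
          rw [Finset.mem_insert] at hu
          rcases hu with rfl | hu
          · exact c1
          · exact hP' u hu
        · exact hQ'
      · by_cases c2 : c (some none) = X
        · refine ⟨some none, X, ?_, ?_⟩
          · intro u hu
            rw [Finset.mem_insert] at hu
            rcases hu with rfl | hu
            · exact c2
            · exact hP' u hu
          · exact hQ'
        · refine ⟨none, !X, ?_, ?_⟩
          · intro u hu
            rw [Finset.mem_insert, Finset.mem_insert] at hu
            rcases hu with rfl | rfl | hu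
            · cases hX : X <;> cases hc : c none <;> simp_all
            · cases hX : X <;> cases hc : c (some none) <;> simp_all
            · exact hQ' u hu
          · intro u hu
            rw [Bool.not_not]
            exact hP' u hu
    · refine ⟨some (some v), X, ?_, ?_⟩
      · simp only [h, if_false]
        exact hP'
      · exact hQ'

/-- The final data extracted from the construction. -/
theorem exists_gapStr_aux (k : ℕ) : ∀ M : ℕ, ∀ (X : Type) [Fintype X] [DecidableEq X]
    (S : GapStr (Option X)),
    (∀ v, none ∈ S.P v → v = none ∨ S.next v = none) →
    Odd (Fintype.card (Option X)) →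
    (∀ v, (S.Q v).card < k) →
    (∀ v, (S.P v).card + (S.Q v).card ≤ 2 * k) →
    (∑ v, 3 ^ (2 * k - ((S.P v).card + (S.Q v).card)) ≤ M) →
    ∃ (Y : Type) (_ : Fintype Y) (_ : DecidableEq Y) (S' : GapStr (Option Y)),
      (∀ v, none ∈ S'.P v → v = none ∨ S'.next v = none) ∧
      Odd (Fintype.card (Option Y)) ∧
      (∀ v, k ≤ (S'.P v).card) ∧
      Fintype.card (Option Y) ≤ M := by
  intro M
  induction M using Nat.strong_induction_on with
  | _ M ih =>
    intro X _ _ S hdeg hodd hQ hPQ hsum
    by_cases hall : ∀ v, k ≤ (S.P v).card
    · refine ⟨X, inferInstance, inferInstance, S, hdeg, hodd, hall, le_trans ?_ hsum⟩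
      calc Fintype.card (Option X) = ∑ v : Option X, 1 := by simp
        _ ≤ _ := Finset.sum_le_sum (fun v _ => Nat.one_le_pow _ _ (by norm_num))
    · push Not at hall
      obtain ⟨v0, hv0⟩ := hall
      have hcardP : ∀ v, ((S.refine v0).P (some (some v))).card =
          if v = v0 then (S.P v).card + 1 else (S.P v).card := by
        intro v
        change (if v = v0 then insert none ((S.P v).map (emb _)) else (S.P v).map (emb _)).card = _
        split_ifs with h
        · rw [Finset.card_insert_of_notMem (none_notMem_map_emb _), Finset.card_map]
        · rw [Finset.card_map]
      have hcardP0 : ((S.refine v0).P none).card = (S.Q v0).card + 2 := by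
        change (insert none (insert (some none) ((S.Q v0).map (emb _)))).card = _
        rw [Finset.card_insert_of_notMem, Finset.card_insert_of_notMem, Finset.card_map]
        · exact some_none_notMem_map_emb _
        · rw [Finset.mem_insert]
          rintro (h | h)
          · exact absurd h (by simp)
          · exact none_notMem_map_emb _ h
      have hcardP1 : ((S.refine v0).P (some none)).card = (S.P v0).card + 1 := by
        change (insert (some none) ((S.P v0).map (emb _))).card = _
        rw [Finset.card_insert_of_notMem (some_none_notMem_map_emb _), Finset.card_map]
      have hcardQ : ∀ v, ((S.refine v0).Q (some (some v))).card = (S.Q v).card := by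
        intro v
        change ((S.Q v).map (emb _)).card = _
        rw [Finset.card_map]
      have hcardQ0 : ((S.refine v0).Q none).card = (S.P v0).card := by
        change ((S.P v0).map (emb _)).card = _
        rw [Finset.card_map]
      have hcardQ1 : ((S.refine v0).Q (some none)).card = (S.Q v0).card := by
        change ((S.Q v0).map (emb _)).card = _
        rw [Finset.card_map]
      have hq0 := hQ v0
      set p := (S.P v0).card with hp
      set q := (S.Q v0).card with hq
      obtain ⟨t, ht⟩ : ∃ t, 2 * k = (p + q) + (t + 2) := ⟨2 * k - (p + q) - 2, by omega⟩
      -- the new weight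
      have hnew : ∑ v, 3 ^ (2 * k - (((S.refine v0).P v).card + ((S.refine v0).Q v).card)) +
          2 * 3 ^ t = ∑ v, 3 ^ (2 * k - ((S.P v).card + (S.Q v).card)) := by
        rw [Fintype.sum_option (α := Option (Option X)), Fintype.sum_option (α := Option X)]
        rw [hcardP0, hcardQ0, hcardP1, hcardQ1]
        rw [← Finset.add_sum_erase Finset.univ
          (fun v => 3 ^ (2 * k - (((S.refine v0).P (some (some v))).card +
            ((S.refine v0).Q (some (some v))).card))) (Finset.mem_univ v0)]
        rw [← Finset.add_sum_erase Finset.univ
          (fun v => 3 ^ (2 * k - ((S.P v).card + (S.Q v).card))) (Finset.mem_univ v0)]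
        have hrest : ∑ v ∈ Finset.univ.erase v0,
            3 ^ (2 * k - (((S.refine v0).P (some (some v))).card +
            ((S.refine v0).Q (some (some v))).card)) =
            ∑ v ∈ Finset.univ.erase v0, 3 ^ (2 * k - ((S.P v).card + (S.Q v).card)) := by
          apply Finset.sum_congr rfl
          intro v hv
          rw [hcardP, hcardQ, if_neg (Finset.ne_of_mem_erase hv)]
        rw [hrest]
        simp only [hcardP, hcardQ, if_true, ← hp, ← hq]
        have e1 : 2 * k - (q + 2 + p) = t := by omega
        have e2 : 2 * k - (p + 1 + q) = t + 1 := by omega
        have e3 : 2 * k - (p + q) = t + 2 := by omega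
        rw [e1, e2, e3]
        ring
      have hpos : 0 < 3 ^ t := Nat.pow_pos (by norm_num)
      have hlt : ∑ v, 3 ^ (2 * k - (((S.refine v0).P v).card + ((S.refine v0).Q v).card)) < M := by
        omega
      obtain ⟨Y, i1, i2, S', h1, h2, h3, h4⟩ := ih _ hlt (Option (Option X)) (S.refine v0)
        (by
          intro v hv
          match v, hv with
          | none, _ => left; rfl
          | some none, hv =>
            exfalso
            change none ∈ insert (some none) ((S.P v0).map (emb _)) at hv
            rw [Finset.mem_insert] at hv
            rcases hv with h | h
            · exact absurd h (by simp)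
            · exact none_notMem_map_emb _ h
          | some (some v), hv =>
            change none ∈ (if v = v0 then insert none ((S.P v).map (emb _)) else
              (S.P v).map (emb _)) at hv
            by_cases h : v = v0
            · right
              change (if v = v0 then none else some (some (S.next v))) = none
              rw [if_pos h]
            · rw [if_neg h] at hv
              exact absurd hv (none_notMem_map_emb _))
        (by
          have : Fintype.card (Option (Option (Option X))) = Fintype.card (Option X) + 2 := by
            simp
          rw [this]
          exact Odd.add_even hodd (by decide))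
        (by
          intro v
          match v with
          | none => rw [hcardQ0]; exact hv0
          | some none => rw [hcardQ1]; exact hq0
          | some (some v) => rw [hcardQ]; exact hQ v)
        (by
          intro v
          match v with
          | none => rw [hcardQ0, hcardP0]; omega
          | some none => rw [hcardQ1, hcardP1]; omega
          | some (some v) =>
            rw [hcardQ, hcardP]
            split_ifs with h
            · subst h; omega
            · exact hPQ v)
        le_rfl
      exact ⟨Y, i1, i2, S', h1, h2, h3, by omega⟩

/-- The starting structure on a single vertex. -/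
def baseGap : GapStr (Option Empty) where
  next v := v
  P _ := Finset.univ
  Q _ := ∅
  trans := by
    intro U hU _
    obtain ⟨x, hx⟩ := hU
    apply Set.eq_univ_of_forall
    intro y
    have : y = x := Subsingleton.elim _ _
    rw [this]; exact hx
  memP v := Finset.mem_univ v
  memP' v := Finset.mem_univ v
  inv := by
    intro c
    refine ⟨none, c none, ?_, ?_⟩
    · intro u _
      have : u = none := Subsingleton.elim _ _
      rw [this]
    · intro u hu
      simp at hu

theorem exists_gapStr (k : ℕ) (hk : 1 ≤ k) :
    ∃ (Y : Type) (_ : Fintype Y) (_ : DecidableEq Y) (S' : GapStr (Option Y)),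
      (∀ v, none ∈ S'.P v → v = none ∨ S'.next v = none) ∧
      Odd (Fintype.card (Option Y)) ∧
      (∀ v, k ≤ (S'.P v).card) ∧
      Fintype.card (Option Y) ≤ 3 ^ (2 * k - 1) := by
  apply exists_gapStr_aux k (3 ^ (2 * k - 1)) Empty baseGap
  · intro v _
    left
    exact Subsingleton.elim _ _
  · simp
  · intro v
    change (∅ : Finset (Option Empty)).card < k
    rw [Finset.card_empty]
    omega
  · intro v
    change (Finset.univ : Finset (Option Empty)).card + (∅ : Finset (Option Empty)).card ≤ 2 * k
    simp
    omega
  · rw [Fintype.sum_option]
    change 3 ^ (2 * k - ((Finset.univ : Finset (Option Empty)).card +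
      (∅ : Finset (Option Empty)).card)) + _ ≤ _
    simp

end H52TF
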