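import Mathlib
import Pool.Agent.H52.TwoFacHyper
import Pool.Agent.H52.TwoFacHam

/-!
The graph built from a gap structure: the incidence graph with a clique on the vertex side, and one
vertex of incidence degree two replaced by a path.
-/

set_option linter.unusedSectionVars false

namespace H52TF

open SimpleGraph

variable {X : Type}

/-- The vertex type. -/
abbrev Wt (X : Type) (j : ℕ) := Option X ⊕ (X ⊕ Fin (j + 1))

/-- adjacency -/
def grAdj (S : GapStr (Option X)) (j : ℕ) : Wt X j → Wt X j → Prop
  | Sum.inl _, Sum.inl _ => False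
  | Sum.inl b, Sum.inr (Sum.inl x) => some x ∈ S.P b
  | Sum.inl b, Sum.inr (Sum.inr i) => (S.next b = none ∧ i = 0) ∨ (b = none ∧ i = Fin.last j)
  | Sum.inr (Sum.inl x), Sum.inl b => some x ∈ S.P b
  | Sum.inr (Sum.inl x), Sum.inr (Sum.inl y) => x ≠ y
  | Sum.inr (Sum.inl _), Sum.inr (Sum.inr _) => True
  | Sum.inr (Sum.inr i), Sum.inl b => (S.next b = none ∧ i = 0) ∨ (b = none ∧ i = Fin.last j)
  | Sum.inr (Sum.inr _), Sum.inr (Sum.inl _) => True
  | Sum.inr (Sum.inr i), Sum.inr (Sum.inr i') => (i : ℕ) + 1 = i' ∨ (i' : ℕ) + 1 = i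

/-- the graph -/
def gr (S : GapStr (Option X)) (j : ℕ) : SimpleGraph (Wt X j) where
  Adj := grAdj S j
  symm := ⟨by
    intro a b h
    match a, b, h with
    | Sum.inl _, Sum.inl _, h => exact h
    | Sum.inl _, Sum.inr (Sum.inl _), h => exact h
    | Sum.inl _, Sum.inr (Sum.inr _), h => exact h
    | Sum.inr (Sum.inl _), Sum.inl _, h => exact h
    | Sum.inr (Sum.inl _), Sum.inr (Sum.inl _), h => exact Ne.symm h
    | Sum.inr (Sum.inl _), Sum.inr (Sum.inr _), _ => trivial
    | Sum.inr (Sum.inr _), Sum.inl _, h => exact h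
    | Sum.inr (Sum.inr _), Sum.inr (Sum.inl _), _ => trivial
    | Sum.inr (Sum.inr _), Sum.inr (Sum.inr _), h => exact h.symm⟩
  loopless := ⟨by
    intro a h
    match a, h with
    | Sum.inl _, h => exact h
    | Sum.inr (Sum.inl _), h => exact h rfl
    | Sum.inr (Sum.inr i), h =>
      change (i : ℕ) + 1 = i ∨ (i : ℕ) + 1 = i at h
      omega⟩

/-- the Hamiltonian successor map -/
def succMap (S : GapStr (Option X)) (j : ℕ) : Wt X j → Wt X j
  | Sum.inl b => match S.next b with
    | none => Sum.inr (Sum.inr 0)
    | some x => Sum.inr (Sum.inl x)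
  | Sum.inr (Sum.inl x) => Sum.inl (some x)
  | Sum.inr (Sum.inr i) => if h : i.val < j then Sum.inr (Sum.inr ⟨i.val + 1, by omega⟩)
      else Sum.inl none

theorem succMap_none (S : GapStr (Option X)) (j : ℕ) {b : Option X} (h : S.next b = none) :
    succMap S j (Sum.inl b) = Sum.inr (Sum.inr 0) := by
  simp only [succMap, h]

theorem succMap_some (S : GapStr (Option X)) (j : ℕ) {b : Option X} {x : X}
    (h : S.next b = some x) :
    succMap S j (Sum.inl b) = Sum.inr (Sum.inl x) := by
  simp only [succMap, h]

theorem gr_succ (S : GapStr (Option X)) (j : ℕ) (a : Wt X j) : (gr S j).Adj a (succMap S j a) := by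
  match a with
  | Sum.inl b =>
    have h := S.memP' b
    rcases hn : S.next b with _ | x
    · rw [succMap_none S j hn]
      exact Or.inl ⟨hn, rfl⟩
    · rw [succMap_some S j hn]
      rw [hn] at h
      exact h
  | Sum.inr (Sum.inl x) =>
    change some x ∈ S.P (some x)
    exact S.memP _
  | Sum.inr (Sum.inr i) =>
    by_cases h : i.val < j
    · simp only [succMap]
      rw [dif_pos h]
      exact Or.inl rfl
    · simp only [succMap]
      rw [dif_neg h]
      refine Or.inr ⟨rfl, ?_⟩
      apply Fin.ext
      rw [Fin.val_last]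
      omega

theorem succMap_trans (S : GapStr (Option X)) (j : ℕ) (U : Set (Wt X j)) (hU : U.Nonempty)
    (hcl : ∀ u ∈ U, succMap S j u ∈ U) : U = Set.univ := by
  -- the path part leads to `inl none`
  have hS : ∀ n : ℕ, ∀ i : Fin (j + 1), i.val + n = j →
      (Sum.inr (Sum.inr i) : Wt X j) ∈ U → (Sum.inl none : Wt X j) ∈ U := by
    intro n
    induction n with
    | zero =>
      intro i hi h
      have := hcl _ h
      simp only [succMap] at this
      rw [dif_neg (by omega)] at this
      exact this
    | succ n ih =>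
      intro i hi h
      have := hcl _ h
      simp only [succMap] at this
      rw [dif_pos (by omega)] at this
      exact ih ⟨i.val + 1, by omega⟩ (by simp; omega) this
  have hS' : ∀ i : Fin (j + 1), (Sum.inr (Sum.inr i) : Wt X j) ∈ U →
      (Sum.inl none : Wt X j) ∈ U := fun i h => hS (j - i.val) i (by omega) h
  have hX : ∀ x : X, (Sum.inr (Sum.inl x) : Wt X j) ∈ U → (Sum.inl (some x) : Wt X j) ∈ U :=
    fun x h => hcl _ h
  have hB : ∀ b, (Sum.inl b : Wt X j) ∈ U → (Sum.inl (S.next b) : Wt X j) ∈ U := by
    intro b hb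
    have h1 := hcl _ hb
    unfold succMap at h1
    rcases hn : S.next b with _ | x
    · simp only [hn] at h1
      exact hS' _ h1
    · simp only [hn] at h1
      exact hX _ h1
  have hall : {b : Option X | (Sum.inl b : Wt X j) ∈ U} = Set.univ := by
    apply S.trans
    · obtain ⟨a, ha⟩ := hU
      match a, ha with
      | Sum.inl b, ha => exact ⟨b, ha⟩
      | Sum.inr (Sum.inl x), ha => exact ⟨_, hX x ha⟩
      | Sum.inr (Sum.inr i), ha => exact ⟨_, hS' i ha⟩
    · intro b hb
      exact hB b hb
  have hallb : ∀ b, (Sum.inl b : Wt X j) ∈ U := by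
    intro b
    have : b ∈ {b : Option X | (Sum.inl b : Wt X j) ∈ U} := by rw [hall]; trivial
    exact this
  -- surjectivity of next
  have hsurj : ∀ v, ∃ b, S.next b = v := by
    intro v
    have : Set.range S.next = Set.univ := by
      apply S.trans
      · exact ⟨_, none, rfl⟩
      · intro u _
        exact ⟨u, rfl⟩
    have h2 : v ∈ Set.range S.next := by rw [this]; trivial
    exact h2
  have hallx : ∀ x : X, (Sum.inr (Sum.inl x) : Wt X j) ∈ U := by
    intro x
    obtain ⟨b, hb⟩ := hsurj (some x)
    have h1 := hcl _ (hallb b)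
    unfold succMap at h1
    simp only [hb] at h1
    exact h1
  have hall0 : (Sum.inr (Sum.inr 0) : Wt X j) ∈ U := by
    obtain ⟨b, hb⟩ := hsurj none
    have h1 := hcl _ (hallb b)
    unfold succMap at h1
    simp only [hb] at h1
    exact h1
  have halls : ∀ n : ℕ, ∀ h : n < j + 1, (Sum.inr (Sum.inr ⟨n, h⟩) : Wt X j) ∈ U := by
    intro n
    induction n with
    | zero => intro _; exact hall0
    | succ n ih =>
      intro h
      have h1 := hcl _ (ih (by omega))
      simp only [succMap] at h1
      rw [dif_pos (by omega)] at h1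
      exact h1
  apply Set.eq_univ_of_forall
  intro a
  match a with
  | Sum.inl b => exact hallb b
  | Sum.inr (Sum.inl x) => exact hallx x
  | Sum.inr (Sum.inr i) => exact halls i.val i.isLt

theorem gr_isHamiltonian [Fintype X] [DecidableEq X] (S : GapStr (Option X)) (j : ℕ)
    (h3 : 1 ≤ Fintype.card X) : (gr S j).IsHamiltonian := by
  apply isHamiltonian_of_trans (gr S j) (succMap S j) (succMap_trans S j) (gr_succ S j)
  simp only [Fintype.card_sum, Fintype.card_option, Fintype.card_fin]
  omega

theorem card_Wt [Fintype X] (j : ℕ) :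
    Fintype.card (Wt X j) = 2 * Fintype.card (Option X) + j := by
  simp only [Fintype.card_sum, Fintype.card_option, Fintype.card_fin]
  omega

theorem gr_minDegree [Fintype X] [DecidableEq X] (S : GapStr (Option X)) (j k : ℕ)
    (hk : ∀ v, k + 1 ≤ (S.P v).card) (v : Wt X j) : k ≤ ((gr S j).neighborSet v).ncard := by
  have hcX : k ≤ Fintype.card X := by
    have h1 := hk none
    have h2 := Finset.card_le_univ (S.P none)
    rw [Fintype.card_option] at h2
    omega
  have hfin : ∀ v, ((gr S j).neighborSet v).Finite := fun v => Set.toFinite _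
  match v with
  | Sum.inl b =>
    -- neighbours `x` with `some x ∈ P b`
    have hinj : Function.Injective (fun x : X => (Sum.inr (Sum.inl x) : Wt X j)) := by
      intro x y h
      simpa using h
    have hsub : (((Finset.univ.filter (fun x : X => some x ∈ S.P b)).image
        (fun x : X => (Sum.inr (Sum.inl x) : Wt X j)) : Finset (Wt X j)) : Set (Wt X j)) ⊆
        (gr S j).neighborSet (Sum.inl b) := by
      intro a ha
      rw [Finset.mem_coe, Finset.mem_image] at ha
      obtain ⟨x, hx, rfl⟩ := ha
      rw [SimpleGraph.mem_neighborSet]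
      change some x ∈ S.P b
      simpa using hx
    have h1 := Set.ncard_le_ncard hsub (hfin _)
    rw [Set.ncard_coe_finset, Finset.card_image_of_injective _ hinj] at h1
    have h2 : (S.P b).card ≤ (Finset.univ.filter (fun x : X => some x ∈ S.P b)).card + 1 := by
      have h3 : S.P b ⊆ insert none ((Finset.univ.filter (fun x : X => some x ∈ S.P b)).image
          some) := by
        intro u hu
        rcases u with _ | x
        · exact Finset.mem_insert_self _ _
        · apply Finset.mem_insert_of_mem
          rw [Finset.mem_image]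
          exact ⟨x, by simpa using hu, rfl⟩
      calc (S.P b).card ≤ _ := Finset.card_le_card h3
        _ ≤ _ := Finset.card_insert_le _ _
        _ ≤ _ := Nat.add_le_add_right Finset.card_image_le _
    have h4 := hk b
    omega
  | Sum.inr (Sum.inl x) =>
    have hinj : Function.Injective (fun y : X => if y = x then (Sum.inr (Sum.inr 0) : Wt X j)
        else (Sum.inr (Sum.inl y) : Wt X j)) := by
      intro y z h
      by_cases hy : y = x <;> by_cases hz : z = x
      · rw [hy, hz]
      · simp [hy, hz] at h
      · simp [hy, hz] at h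
      · simpa [hy, hz] using h
    have hsub : ((Finset.univ.image (fun y : X => if y = x then (Sum.inr (Sum.inr 0) : Wt X j)
        else (Sum.inr (Sum.inl y) : Wt X j)) : Finset (Wt X j)) : Set (Wt X j)) ⊆
        (gr S j).neighborSet (Sum.inr (Sum.inl x)) := by
      intro a ha
      rw [Finset.mem_coe, Finset.mem_image] at ha
      obtain ⟨y, _, rfl⟩ := ha
      rw [SimpleGraph.mem_neighborSet]
      split_ifs with h
      · trivial
      · exact fun h' => h h'.symm
    have h1 := Set.ncard_le_ncard hsub (hfin _)
    rw [Set.ncard_coe_finset, Finset.card_image_of_injective _ hinj, Finset.card_univ] at h1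
    omega
  | Sum.inr (Sum.inr i) =>
    have hinj : Function.Injective (fun y : X => (Sum.inr (Sum.inl y) : Wt X j)) := by
      intro y z h
      simpa using h
    have hsub : ((Finset.univ.image (fun y : X => (Sum.inr (Sum.inl y) : Wt X j)) :
        Finset (Wt X j)) : Set (Wt X j)) ⊆ (gr S j).neighborSet (Sum.inr (Sum.inr i)) := by
      intro a ha
      rw [Finset.mem_coe, Finset.mem_image] at ha
      obtain ⟨y, _, rfl⟩ := ha
      rw [SimpleGraph.mem_neighborSet]
      trivial
    have h1 := Set.ncard_le_ncard hsub (hfin _)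
    rw [Set.ncard_coe_finset, Finset.card_image_of_injective _ hinj, Finset.card_univ] at h1
    omega

end H52TF
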