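import Mathlib

/-!
T-joins over `ZMod 2` in a finite simple graph.
-/

set_option linter.unusedSectionVars false

namespace H52TF

open Classical

variable {W : Type} [Fintype W]

/-- boundary of an edge function -/
noncomputable def bd (F : SimpleGraph W) (g : Sym2 W → ZMod 2) (x : W) : ZMod 2 :=
  ∑ y, if F.Adj x y then g s(x, y) else 0

theorem bd_add (F : SimpleGraph W) (g h : Sym2 W → ZMod 2) (x : W) :
    bd F (fun e => g e + h e) x = bd F g x + bd F h x := by
  unfold bd
  rw [← Finset.sum_add_distrib]
  apply Finset.sum_congr rfl
  intro y _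
  split_ifs
  · rfl
  · simp

theorem bd_sum {ι : Type*} (F : SimpleGraph W) (s : Finset ι) (g : ι → Sym2 W → ZMod 2) (x : W) :
    bd F (fun e => ∑ i ∈ s, g i e) x = ∑ i ∈ s, bd F (g i) x := by
  unfold bd
  rw [Finset.sum_comm]
  apply Finset.sum_congr rfl
  intro y _
  split_ifs
  · rfl
  · simp

theorem bd_edge (F : SimpleGraph W) {u v : W} (h : F.Adj u v) (x : W) :
    bd F (fun e => if e = s(u, v) then 1 else 0) x =
      (if x = u then 1 else 0) + (if x = v then 1 else 0) := by
  unfold bd
  beta_reduce
  have hne : u ≠ v := h.ne
  by_cases hxu : x = u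
  · subst hxu
    rw [Finset.sum_eq_single v]
    · simp [h, hne]
    · intro y _ hy
      split_ifs with h1 h2
      · rw [Sym2.eq_iff] at h2
        rcases h2 with h2 | h2
        · exact absurd h2.2 hy
        · exact absurd h2.1 hne
      · rfl
      · rfl
    · simp
  · by_cases hxv : x = v
    · subst hxv
      rw [Finset.sum_eq_single u]
      · simp [h.symm, hxu, Sym2.eq_swap]
      · intro y _ hy
        split_ifs with h1 h2
        · rw [Sym2.eq_iff] at h2
          rcases h2 with h2 | h2
          · exact absurd h2.1.symm hne
          · exact absurd h2.2 hy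
        · rfl
        · rfl
      · simp
    · rw [if_neg hxu, if_neg hxv]
      simp only [add_zero]
      apply Finset.sum_eq_zero
      intro y _
      split_ifs with h1 h2
      · rw [Sym2.eq_iff] at h2
        rcases h2 with h2 | h2
        · exact absurd h2.1 hxu
        · exact absurd h2.1 hxv
      · rfl
      · rfl

theorem exists_path_join (F : SimpleGraph W) {u v : W} (p : F.Walk u v) :
    ∃ g : Sym2 W → ZMod 2, ∀ x, bd F g x =
      (if x = u then 1 else 0) + (if x = v then 1 else 0) := by
  induction p with
  | nil =>
    refine ⟨fun _ => 0, fun x => ?_⟩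
    unfold bd
    split_ifs
    · simp only [ite_self, Finset.sum_const_zero]; decide
    · simp
  | @cons u w v h p ih =>
    obtain ⟨g, hg⟩ := ih
    refine ⟨fun e => (if e = s(u, w) then 1 else 0) + g e, fun x => ?_⟩
    rw [bd_add, bd_edge F h, hg]
    have h2 : ∀ a : ZMod 2, a + a = 0 := by decide
    linear_combination h2 (if x = w then 1 else 0)

theorem exists_join (F : SimpleGraph W) (T : Finset W)
    (hT : ∀ C : F.ConnectedComponent, Even (T.filter (fun t => F.connectedComponentMk t = C)).card) :
    ∃ g : Sym2 W → ZMod 2, ∀ x, bd F g x = if x ∈ T then 1 else 0 := by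
  have hr : ∀ C : F.ConnectedComponent, F.connectedComponentMk C.out = C := fun C => Quot.out_eq C
  have h1 : ∀ t : W, ∃ g : Sym2 W → ZMod 2, ∀ x, bd F g x =
      (if x = t then 1 else 0) + (if x = (F.connectedComponentMk t).out then 1 else 0) := by
    intro t
    have : F.Reachable t (F.connectedComponentMk t).out := by
      rw [← SimpleGraph.ConnectedComponent.eq]
      exact (hr _).symm
    obtain ⟨p⟩ := this
    exact exists_path_join F p
  choose g hg using h1
  refine ⟨fun e => ∑ t ∈ T, g t e, fun x => ?_⟩
  rw [bd_sum]
  simp only [hg]
  rw [Finset.sum_add_distrib, Finset.sum_ite_eq]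
  have h2 : ∑ t ∈ T, (if x = (F.connectedComponentMk t).out then (1 : ZMod 2) else 0) = 0 := by
    rw [← Finset.sum_filter, Finset.sum_const, nsmul_eq_mul, mul_one]
    rw [ZMod.natCast_eq_zero_iff_even]
    by_cases hx : x = (F.connectedComponentMk x).out
    · convert hT (F.connectedComponentMk x) using 3
      constructor
      · intro h
        conv_rhs => rw [h]
        rw [hr]
      · intro h
        rw [h]
        exact hx
    · have : T.filter (fun t => x = (F.connectedComponentMk t).out) = ∅ := by
        rw [Finset.filter_eq_empty_iff]
        intro t _ ht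
        apply hx
        have h3 : F.connectedComponentMk x = F.connectedComponentMk t := by
          conv_lhs => rw [ht]
          rw [hr]
        rw [h3]
        exact ht
      rw [this]
      simp
  rw [h2, add_zero]

end H52TF
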