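import Mathlib
import Pool.Agent.H52.TwoFacGraph
import Pool.Agent.H52.TwoFacJoin
import Pool.Agent.H52.TwoFacColour

/-!
No 2-factor with exactly two components in the constructed graphs.
-/

set_option linter.unusedSectionVars false

namespace H52TF

open SimpleGraph Classical

theorem bd_pair {W : Type} [Fintype W] [DecidableEq W] (F : SimpleGraph W) (g : Sym2 W → ZMod 2) (x a b : W)
    (hab : a ≠ b) (h : Finset.univ.filter (fun y => F.Adj x y) = {a, b}) :
    bd F g x = g s(x, a) + g s(x, b) := by
  unfold bd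
  rw [← Finset.sum_filter, h, Finset.sum_pair hab]

variable {X : Type} [Fintype X]

/-- the collapsing map -/
def collapse (X : Type) (j : ℕ) : X ⊕ Fin (j + 1) → Option X
  | Sum.inl x => some x
  | Sum.inr _ => none

/-- structural facts about a 2-factor -/
structure Facts (S : GapStr (Option X)) (j : ℕ) (F : SimpleGraph (Wt X j)) (pb : Option X) :
    Prop where
  nbl : ∀ b b', ¬ F.Adj (Sum.inl b) (Sum.inl b')
  nxa : ∀ x a, ¬ F.Adj (Sum.inr (Sum.inl x)) (Sum.inr a)
  cx : ∀ x, (Finset.univ.filter (fun b => F.Adj (Sum.inl b) (Sum.inr (Sum.inl x)))).card = 2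
  b1 : F.Adj (Sum.inl pb) (Sum.inr (Sum.inr 0))
  b2 : F.Adj (Sum.inl none) (Sum.inr (Sum.inr (Fin.last j)))
  b3 : ∀ b i, F.Adj (Sum.inl b) (Sum.inr (Sum.inr i)) →
    (b = pb ∧ i = 0) ∨ (b = none ∧ i = Fin.last j)
  mem : ∀ b x, F.Adj (Sum.inl b) (Sum.inr (Sum.inl x)) → some x ∈ S.P b
  pbn : pb ≠ none
  npb : S.next pb = none

theorem exists_facts (S : GapStr (Option X)) (j : ℕ) (hX : 1 ≤ Fintype.card X)
    (F : SimpleGraph (Wt X j)) (hF : F ≤ gr S j) (h2 : ∀ v, (F.neighborSet v).ncard = 2) :
    ∃ pb, Facts S j F pb := by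
  have hN : ∀ a, (Finset.univ.filter (fun y => F.Adj a y)).card = 2 := by
    intro a
    rw [← h2 a, ← Set.ncard_coe_finset]
    congr 1
    ext y
    simp
  have hNs : ∀ a, ∑ y, (if F.Adj a y then 1 else 0) = 2 := by
    intro a
    rw [← hN a, Finset.card_filter]
  have hrange : Set.range S.next = Set.univ := by
    apply S.trans
    · exact ⟨_, none, rfl⟩
    · intro u _
      exact ⟨u, rfl⟩
  have hsurj : Function.Surjective S.next := Set.range_eq_univ.mp hrange
  have hinj : Function.Injective S.next := Finite.injective_iff_surjective.mpr hsurj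
  obtain ⟨pb, hpb⟩ := hsurj none
  have hpbn : pb ≠ none := by
    rintro rfl
    have h1 : ({none} : Set (Option X)) = Set.univ := by
      apply S.trans
      · exact ⟨none, rfl⟩
      · intro u hu
        rw [Set.mem_singleton_iff] at hu ⊢
        rw [hu, hpb]
    have hne : Nonempty X := by
      rw [← Fintype.card_pos_iff]; omega
    obtain ⟨x⟩ := hne
    have h2 : some x ∈ ({none} : Set (Option X)) := by rw [h1]; trivial
    simp at h2
  have hbb : ∀ b b', ¬ F.Adj (Sum.inl b) (Sum.inl b') := fun b b' h => hF h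
  -- degrees of hyperedge vertices
  have hb : ∀ b : Option X, ∑ a : X ⊕ Fin (j + 1), (if F.Adj (Sum.inl b) (Sum.inr a) then 1 else 0)
      = 2 := by
    intro b
    have := hNs (Sum.inl b)
    rw [Fintype.sum_sum_type] at this
    simp only [hbb, if_false, Finset.sum_const_zero, zero_add] at this
    exact this
  have hx : ∀ x : X, ∑ b : Option X, (if F.Adj (Sum.inl b) (Sum.inr (Sum.inl x)) then 1 else 0) +
      ∑ a : X ⊕ Fin (j + 1), (if F.Adj (Sum.inr (Sum.inl x)) (Sum.inr a) then 1 else 0) = 2 := by
    intro x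
    have := hNs (Sum.inr (Sum.inl x))
    rw [Fintype.sum_sum_type] at this
    rw [← this]
    congr 1
    apply Finset.sum_congr rfl
    intro b _
    simp only [F.adj_comm]
  have hB3 : ∀ b i, F.Adj (Sum.inl b) (Sum.inr (Sum.inr i)) →
      (b = pb ∧ i = 0) ∨ (b = none ∧ i = Fin.last j) := by
    intro b i h
    have h' : (S.next b = none ∧ i = 0) ∨ (b = none ∧ i = Fin.last j) := hF h
    rcases h' with h' | h'
    · left
      exact ⟨hinj (by rw [h'.1, hpb]), h'.2⟩
    · right; exact h'
  -- the pairs
  set Pr : Finset (Option X × Fin (j + 1)) :=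
    Finset.univ.filter (fun z => F.Adj (Sum.inl z.1) (Sum.inr (Sum.inr z.2))) with hPr
  have hPrs : Pr ⊆ {(pb, 0), (none, Fin.last j)} := by
    intro z hz
    rw [hPr, Finset.mem_filter] at hz
    have := hB3 z.1 z.2 hz.2
    rw [Finset.mem_insert, Finset.mem_singleton]
    rcases this with h | h
    · left; exact Prod.ext h.1 h.2
    · right; exact Prod.ext h.1 h.2
  have hPrc : Pr.card = ∑ b : Option X, ∑ i : Fin (j + 1),
      (if F.Adj (Sum.inl b) (Sum.inr (Sum.inr i)) then 1 else 0) := by
    rw [hPr, Finset.card_filter, Fintype.sum_prod_type]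
  have htot : ∑ b : Option X, ∑ a : X ⊕ Fin (j + 1),
      (if F.Adj (Sum.inl b) (Sum.inr a) then 1 else 0) = 2 * Fintype.card (Option X) := by
    rw [Finset.sum_congr rfl (fun b _ => hb b)]
    simp [mul_comm]
  have htot2 : ∑ b : Option X, ∑ a : X ⊕ Fin (j + 1),
      (if F.Adj (Sum.inl b) (Sum.inr a) then 1 else 0) =
      ∑ x : X, ∑ b : Option X, (if F.Adj (Sum.inl b) (Sum.inr (Sum.inl x)) then 1 else 0) +
      Pr.card := by
    rw [hPrc]
    rw [Finset.sum_comm (s := (Finset.univ : Finset X))]
    rw [← Finset.sum_add_distrib]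
    apply Finset.sum_congr rfl
    intro b _
    rw [Fintype.sum_sum_type]
  have hPr2 : Pr.card ≤ 2 := (Finset.card_le_card hPrs).trans (Finset.card_insert_le _ _)
  have hcO : Fintype.card (Option X) = Fintype.card X + 1 := Fintype.card_option
  have hsum2 : 2 * Fintype.card X ≤ ∑ x : X, ∑ b : Option X,
      (if F.Adj (Sum.inl b) (Sum.inr (Sum.inl x)) then 1 else 0) := by omega
  have hle : ∀ x ∈ (Finset.univ : Finset X), ∑ b : Option X,
      (if F.Adj (Sum.inl b) (Sum.inr (Sum.inl x)) then 1 else 0) ≤ 2 := by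
    intro x _
    have := hx x
    omega
  have hsum3 : ∑ x : X, ∑ b : Option X,
      (if F.Adj (Sum.inl b) (Sum.inr (Sum.inl x)) then 1 else 0) = ∑ x : X, 2 := by
    apply le_antisymm (Finset.sum_le_sum hle)
    simpa [mul_comm] using hsum2
  have hA : ∀ x, ∑ b : Option X,
      (if F.Adj (Sum.inl b) (Sum.inr (Sum.inl x)) then 1 else 0) = 2 := by
    intro x
    exact (Finset.sum_eq_sum_iff_of_le hle).mp hsum3 x (Finset.mem_univ x)
  have hA' : ∀ x a, ¬ F.Adj (Sum.inr (Sum.inl x)) (Sum.inr a) := by
    intro x a h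
    have h1 := hx x
    rw [hA x] at h1
    have h3 : ∑ a : X ⊕ Fin (j + 1),
        (if F.Adj (Sum.inr (Sum.inl x)) (Sum.inr a) then 1 else 0) = 0 := by omega
    rw [Finset.sum_eq_zero_iff] at h3
    have := h3 a (Finset.mem_univ a)
    rw [if_pos h] at this
    exact one_ne_zero this
  have hPr3 : Pr.card = 2 := by
    rw [hsum3] at htot2
    simp only [Finset.sum_const, Finset.card_univ, smul_eq_mul] at htot2
    omega
  have hPreq : Pr = {(pb, 0), (none, Fin.last j)} := by
    apply Finset.eq_of_subset_of_card_le hPrs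
    rw [hPr3]
    exact Finset.card_insert_le _ _
  refine ⟨pb, hbb, hA', ?_, ?_, ?_, hB3, ?_, hpbn, hpb⟩
  · intro x
    rw [Finset.card_filter]
    exact hA x
  · have : (pb, (0 : Fin (j + 1))) ∈ Pr := by rw [hPreq]; simp
    rw [hPr, Finset.mem_filter] at this
    exact this.2
  · have : ((none : Option X), Fin.last j) ∈ Pr := by rw [hPreq]; simp
    rw [hPr, Finset.mem_filter] at this
    exact this.2
  · intro b x h
    exact hF h

/-- the predecessor of a path vertex -/
def innMap (j : ℕ) (pb : Option X) (i : Fin (j + 1)) : Wt X j :=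
  if h : i.val = 0 then Sum.inl pb else Sum.inr (Sum.inr ⟨i.val - 1, by omega⟩)

theorem path_nbr {S : GapStr (Option X)} {j : ℕ} {F : SimpleGraph (Wt X j)} (hF : F ≤ gr S j)
    {pb : Option X} (hf : Facts S j F pb) (i : Fin (j + 1)) (y : Wt X j)
    (h : F.Adj (Sum.inr (Sum.inr i)) y) :
    y = innMap j pb i ∨ y = succMap S j (Sum.inr (Sum.inr i)) := by
  match y, h with
  | Sum.inl b, h =>
    rcases hf.b3 b i h.symm with ⟨h1, h2⟩ | ⟨h1, h2⟩
    · left
      unfold innMap
      rw [dif_pos (by rw [h2]; rfl), h1]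
    · right
      simp only [succMap]
      rw [dif_neg (by rw [h2, Fin.val_last]; omega), h1]
  | Sum.inr (Sum.inl x), h => exact absurd h.symm (hf.nxa x _)
  | Sum.inr (Sum.inr i'), h =>
    have h1 : (i : ℕ) + 1 = i' ∨ (i' : ℕ) + 1 = i := hF h
    rcases h1 with h1 | h1
    · right
      simp only [succMap]
      rw [dif_pos (by omega)]
      congr 2
      apply Fin.ext
      exact h1.symm
    · left
      unfold innMap
      rw [dif_neg (by omega)]
      congr 2
      apply Fin.ext
      simp only
      omega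

theorem path_filter {S : GapStr (Option X)} {j : ℕ} {F : SimpleGraph (Wt X j)} (hF : F ≤ gr S j)
    {pb : Option X} (hf : Facts S j F pb)
    (hN : ∀ a, (Finset.univ.filter (fun y => F.Adj a y)).card = 2) (i : Fin (j + 1)) :
    innMap j pb i ≠ succMap S j (Sum.inr (Sum.inr i)) ∧
    Finset.univ.filter (fun y => F.Adj (Sum.inr (Sum.inr i)) y) =
      {innMap j pb i, succMap S j (Sum.inr (Sum.inr i))} := by
  have hsub : Finset.univ.filter (fun y => F.Adj (Sum.inr (Sum.inr i)) y) ⊆
      {innMap j pb i, succMap S j (Sum.inr (Sum.inr i))} := by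
    intro y hy
    rw [Finset.mem_filter] at hy
    rw [Finset.mem_insert, Finset.mem_singleton]
    exact path_nbr hF hf i y hy.2
  have heq := Finset.eq_of_subset_of_card_le hsub (by
    rw [hN]; exact Finset.card_insert_le _ _)
  refine ⟨?_, heq⟩
  intro h
  have h1 := hN (Sum.inr (Sum.inr i))
  rw [heq, h] at h1
  simp at h1

theorem path_chain {S : GapStr (Option X)} {j : ℕ} {F : SimpleGraph (Wt X j)} (hF : F ≤ gr S j)
    {pb : Option X} (hf : Facts S j F pb)
    (hN : ∀ a, (Finset.univ.filter (fun y => F.Adj a y)).card = 2)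
    (g : Sym2 (Wt X j) → ZMod 2) (hg : ∀ i, bd F g (Sum.inr (Sum.inr i)) = 0) :
    ∀ n : ℕ, ∀ h : n < j + 1,
      g s(Sum.inr (Sum.inr ⟨n, h⟩), innMap j pb ⟨n, h⟩) =
        g s(Sum.inr (Sum.inr 0), Sum.inl pb) ∧
      g s(Sum.inr (Sum.inr ⟨n, h⟩), succMap S j (Sum.inr (Sum.inr ⟨n, h⟩))) =
        g s(Sum.inr (Sum.inr 0), Sum.inl pb) := by
  have hstep : ∀ i, g s(Sum.inr (Sum.inr i), succMap S j (Sum.inr (Sum.inr i))) =
      g s(Sum.inr (Sum.inr i), innMap j pb i) := by
    intro i
    obtain ⟨h1, h2⟩ := path_filter hF hf hN i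
    have h3 := hg i
    rw [bd_pair F g _ _ _ h1 h2] at h3
    generalize g s(Sum.inr (Sum.inr i), succMap S j (Sum.inr (Sum.inr i))) = a at h3 ⊢
    generalize g s(Sum.inr (Sum.inr i), innMap j pb i) = b at h3 ⊢
    revert a b
    decide
  intro n
  induction n with
  | zero =>
    intro h
    have h0 : innMap j pb ⟨0, h⟩ = Sum.inl pb := by
      unfold innMap
      rw [dif_pos rfl]
    rw [hstep, h0]
    exact ⟨rfl, rfl⟩
  | succ n ih =>
    intro h
    obtain ⟨ih1, ih2⟩ := ih (by omega)
    rw [hstep]
    have h1 : innMap j pb ⟨n + 1, h⟩ = Sum.inr (Sum.inr ⟨n, by omega⟩) := by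
      unfold innMap
      rw [dif_neg (by simp)]
      rfl
    have h2 : succMap S j (Sum.inr (Sum.inr ⟨n, by omega⟩)) = Sum.inr (Sum.inr ⟨n + 1, h⟩) := by
      simp only [succMap]
      rw [dif_pos (by omega)]
    rw [h2] at ih2
    rw [h1]
    rw [Sym2.eq_swap]
    exact ⟨ih2, ih2⟩

theorem path_reach {S : GapStr (Option X)} {j : ℕ} {F : SimpleGraph (Wt X j)} (hF : F ≤ gr S j)
    {pb : Option X} (hf : Facts S j F pb)
    (hN : ∀ a, (Finset.univ.filter (fun y => F.Adj a y)).card = 2) :
    ∀ n : ℕ, ∀ h : n < j + 1,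
      F.Reachable (Sum.inr (Sum.inr 0)) (Sum.inr (Sum.inr ⟨n, h⟩)) := by
  intro n
  induction n with
  | zero => intro h; exact SimpleGraph.Reachable.refl _
  | succ n ih =>
    intro h
    refine (ih (by omega)).trans ?_
    have h2 : succMap S j (Sum.inr (Sum.inr ⟨n, by omega⟩)) = Sum.inr (Sum.inr ⟨n + 1, h⟩) := by
      simp only [succMap]
      rw [dif_pos (by omega)]
    have h3 : (succMap S j (Sum.inr (Sum.inr ⟨n, by omega⟩))) ∈
        Finset.univ.filter (fun y => F.Adj (Sum.inr (Sum.inr ⟨n, by omega⟩)) y) := by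
      rw [(path_filter hF hf hN ⟨n, by omega⟩).2]
      simp
    rw [Finset.mem_filter, h2] at h3
    exact h3.2.reachable

theorem no_two (S : GapStr (Option X)) (j : ℕ)
    (hodd : Odd (Fintype.card (Option X))) (hX : 1 ≤ Fintype.card X)
    (F : SimpleGraph (Wt X j)) (hF : F ≤ gr S j) (h2 : ∀ v, (F.neighborSet v).ncard = 2)
    (hc : Nat.card F.ConnectedComponent = 2) : False := by
  have hN : ∀ a, (Finset.univ.filter (fun y => F.Adj a y)).card = 2 := by
    intro a
    rw [← h2 a, ← Set.ncard_coe_finset]
    congr 1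
    ext y
    simp
  obtain ⟨pb, hf⟩ := exists_facts S j hX F hF h2
  -- component labels
  obtain ⟨E⟩ : Nonempty (F.ConnectedComponent ≃ Bool) := by
    have : Finite F.ConnectedComponent := Nat.finite_of_card_ne_zero (by omega)
    rw [← Finite.card_eq, hc]
    simp
  let kk : Wt X j → Bool := fun x => E (F.connectedComponentMk x)
  have hkk : ∀ x y, F.Reachable x y → kk x = kk y := by
    intro x y h
    simp only [kk]
    rw [SimpleGraph.ConnectedComponent.eq.mpr h]
  have hS0 : ∀ i, kk (Sum.inr (Sum.inr 0)) = kk (Sum.inr (Sum.inr i)) := fun i =>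
    hkk _ _ (path_reach hF hf hN i.val i.isLt)
  let φ : X ⊕ Fin (j + 1) → Option X := collapse X j
  let R : Option X → Option X → Prop := fun b u => ∃ a, F.Adj (Sum.inl b) (Sum.inr a) ∧ φ a = u
  let κ' : Option X → Bool := fun b => kk (Sum.inl b)
  let κ : Option X → Bool := fun u => match u with
    | some x => kk (Sum.inr (Sum.inl x))
    | none => kk (Sum.inr (Sum.inr 0))
  have hκφ : ∀ a, κ (φ a) = kk (Sum.inr a) := by
    intro a
    rcases a with x | i
    · rfl
    · exact hS0 i
  have hNb : ∀ b, (Finset.univ.filter (fun a => F.Adj (Sum.inl b) (Sum.inr a))).card = 2 := by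
    intro b
    have h3 := hN (Sum.inl b)
    rw [Finset.card_filter, Fintype.sum_sum_type] at h3
    simp only [hf.nbl, if_false, Finset.sum_const_zero, zero_add] at h3
    rw [Finset.card_filter]
    exact h3
  have hφinj : ∀ b a a', F.Adj (Sum.inl b) (Sum.inr a) → F.Adj (Sum.inl b) (Sum.inr a') →
      φ a = φ a' → a = a' := by
    intro b a a' h3 h4 h5
    match a, a', h3, h4, h5 with
    | Sum.inl x, Sum.inl x', _, _, h5 =>
      have : some x = some x' := h5
      rw [Option.some_inj] at this
      rw [this]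
    | Sum.inl x, Sum.inr i, _, _, h5 =>
      have : some x = none := h5
      simp at this
    | Sum.inr i, Sum.inl x, _, _, h5 =>
      have : none = some x := h5
      simp at this
    | Sum.inr i, Sum.inr i', h3, h4, _ =>
      rcases hf.b3 _ _ h3 with ⟨h6, h7⟩ | ⟨h6, h7⟩ <;> rcases hf.b3 _ _ h4 with ⟨h8, h9⟩ | ⟨h8, h9⟩
      · rw [h7, h9]
      · exact absurd (h6.symm.trans h8) hf.pbn
      · exact absurd (h8.symm.trans h6) hf.pbn
      · rw [h7, h9]
  have hrow : ∀ b, (Finset.univ.filter (fun u => R b u)).card = 2 := by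
    intro b
    rw [← hNb b]
    have : Finset.univ.filter (fun u => R b u) =
        (Finset.univ.filter (fun a => F.Adj (Sum.inl b) (Sum.inr a))).image φ := by
      ext u
      simp only [Finset.mem_filter, Finset.mem_univ, true_and, Finset.mem_image, R]
    rw [this]
    apply Finset.card_image_of_injOn
    intro a ha a' ha' h
    simp only [Finset.coe_filter, Finset.mem_univ, true_and, Set.mem_ofPred_eq] at ha ha'
    exact hφinj b a a' ha ha' h
  have hcol : ∀ u, (Finset.univ.filter (fun b => R b u)).card = 2 := by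
    intro u
    rcases u with _ | x
    · have : Finset.univ.filter (fun b => R b none) = {pb, none} := by
        ext b
        simp only [Finset.mem_filter, Finset.mem_univ, true_and, Finset.mem_insert,
          Finset.mem_singleton, R]
        constructor
        · rintro ⟨a, h3, h4⟩
          rcases a with x | i
          · have : some x = none := h4
            simp at this
          · rcases hf.b3 _ _ h3 with ⟨h6, _⟩ | ⟨h6, _⟩
            · left; exact h6
            · right; exact h6
        · rintro (h3 | h3)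
          · exact ⟨Sum.inr 0, by rw [h3]; exact hf.b1, rfl⟩
          · exact ⟨Sum.inr (Fin.last j), by rw [h3]; exact hf.b2, rfl⟩
      rw [this, Finset.card_pair hf.pbn]
    · rw [← hf.cx x]
      congr 1
      ext b
      simp only [Finset.mem_filter, Finset.mem_univ, true_and, R]
      constructor
      · rintro ⟨a, h3, h4⟩
        rcases a with x' | i
        · have : some x' = some x := h4
          rw [Option.some_inj] at this
          rw [← this]
          exact h3
        · have : none = some x := h4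
          simp at this
      · intro h3
        exact ⟨Sum.inl x, h3, rfl⟩
  have hRe : ∀ b u, R b u → u ∈ S.P b := by
    rintro b u ⟨a, h3, h4⟩
    rcases a with x | i
    · have h5 : some x = u := h4
      rw [← h5]
      exact hf.mem b x h3
    · have h5 : none = u := h4
      rw [← h5]
      rcases hf.b3 _ _ h3 with ⟨h6, _⟩ | ⟨h6, _⟩
      · rw [h6, ← hf.npb]
        exact S.memP' pb
      · rw [h6]
        exact S.memP none
  have hκ : ∀ b u, R b u → κ' b = κ u := by
    rintro b u ⟨a, h3, h4⟩
    rw [← h4, hκφ]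
    exact hkk _ _ h3.reachable
  -- both labels occur on hyperedge vertices
  have hex : ∀ o : Bool, ∃ b, κ' b = o := by
    intro o
    obtain ⟨y, hy⟩ := (E.symm o).exists_rep
    have hy' : kk y = o := by
      simp only [kk]
      have : F.connectedComponentMk y = E.symm o := hy
      rw [this, Equiv.apply_symm_apply]
    rcases y with b | x | i
    · exact ⟨b, hy'⟩
    · have h3 := hf.cx x
      have h4 : (Finset.univ.filter (fun b => F.Adj (Sum.inl b) (Sum.inr (Sum.inl x)))).Nonempty :=
        by rw [← Finset.card_pos]; omega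
      obtain ⟨b, hb⟩ := h4
      rw [Finset.mem_filter] at hb
      exact ⟨b, by rw [← hy']; exact hkk _ _ hb.2.reachable⟩
    · refine ⟨pb, ?_⟩
      rw [← hy', ← hS0 i]
      exact hkk _ _ hf.b1.reachable
  -- solvability
  have solv : ∀ T : Finset (Option X), (∀ o, Even (T.filter (fun b => κ' b = o)).card) →
      ∃ c : Option X → ZMod 2, ∀ b u u', R b u → R b u' → u ≠ u' →
        c u + c u' = if b ∈ T then 1 else 0 := by
    intro T hT
    obtain ⟨g, hg⟩ := exists_join F (T.map Function.Embedding.inl) (by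
      intro C
      have h3 := hT (E C)
      have h4 : ((T.map (Function.Embedding.inl : Option X ↪ Wt X j)).filter
          (fun t => F.connectedComponentMk t = C)) =
          (T.filter (fun b => κ' b = E C)).map Function.Embedding.inl := by
        ext t
        simp only [Finset.mem_filter, Finset.mem_map, κ', kk]
        constructor
        · rintro ⟨⟨b, hb, rfl⟩, h5⟩
          refine ⟨b, ⟨hb, ?_⟩, rfl⟩
          rw [← h5]
          rfl
        · rintro ⟨b, ⟨hb, h5⟩, rfl⟩
          refine ⟨⟨b, hb, rfl⟩, ?_⟩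
          exact E.injective h5
      rw [h4, Finset.card_map]
      exact h3)
    have hgr : ∀ a, bd F g (Sum.inr a) = 0 := by
      intro a
      rw [hg, if_neg]
      intro h
      rw [Finset.mem_map] at h
      obtain ⟨b, _, hb⟩ := h
      simp at hb
    have hgl : ∀ b, bd F g (Sum.inl b) = if b ∈ T then 1 else 0 := by
      intro b
      rw [hg]
      congr 1
      simp
    have hch := path_chain hF hf hN g (fun i => hgr _)
    -- neighbours of x
    have hxn : ∀ x : X, ∃ b b', b ≠ b' ∧
        Finset.univ.filter (fun y => F.Adj (Sum.inr (Sum.inl x)) y) =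
          {Sum.inl b, Sum.inl b'} := by
      intro x
      obtain ⟨b, b', hne, hbb⟩ := Finset.card_eq_two.mp (hf.cx x)
      refine ⟨b, b', hne, ?_⟩
      ext y
      rw [Finset.mem_filter, Finset.mem_insert, Finset.mem_singleton]
      simp only [Finset.mem_univ, true_and]
      rcases y with y | y
      · have h5 : y ∈ Finset.univ.filter (fun b => F.Adj (Sum.inl b) (Sum.inr (Sum.inl x))) ↔
            y ∈ ({b, b'} : Finset (Option X)) := by rw [hbb]
        rw [Finset.mem_filter, Finset.mem_insert, Finset.mem_singleton] at h5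
        simp only [Finset.mem_univ, true_and] at h5
        rw [F.adj_comm, h5]
        simp
      · constructor
        · intro h
          exact absurd h (hf.nxa x y)
        · rintro (h | h) <;> simp at h
    choose nb nb' hnbne hnb using hxn
    let c : Option X → ZMod 2 := fun u => match u with
      | some x => g s(Sum.inr (Sum.inl x), Sum.inl (nb x))
      | none => g s(Sum.inr (Sum.inr 0), Sum.inl pb)
    have hc' : ∀ b a, F.Adj (Sum.inl b) (Sum.inr a) → g s(Sum.inl b, Sum.inr a) = c (φ a) := by
      intro b a h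
      rcases a with x | i
      · have h3 : bd F g (Sum.inr (Sum.inl x)) = _ :=
          bd_pair F g _ _ _ (fun h => hnbne x (Sum.inl_injective h)) (hnb x)
        rw [hgr] at h3
        have h4 : Sum.inl b ∈ Finset.univ.filter (fun y => F.Adj (Sum.inr (Sum.inl x)) y) := by
          rw [Finset.mem_filter]
          exact ⟨Finset.mem_univ _, h.symm⟩
        rw [hnb x, Finset.mem_insert, Finset.mem_singleton] at h4
        have h5 : c (φ (Sum.inl x)) = g s(Sum.inr (Sum.inl x), Sum.inl (nb x)) := rfl
        rw [h5, Sym2.eq_swap]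
        rcases h4 with h4 | h4
        · rw [h4]
        · rw [h4]
          generalize g s(Sum.inr (Sum.inl x), Sum.inl (nb x)) = p at h3 ⊢
          generalize g s(Sum.inr (Sum.inl x), Sum.inl (nb' x)) = q at h3 ⊢
          revert p q
          decide
      · have h5 : c (φ (Sum.inr i)) = g s(Sum.inr (Sum.inr 0), Sum.inl pb) := rfl
        rw [h5, Sym2.eq_swap]
        rcases hf.b3 _ _ h with ⟨h6, h7⟩ | ⟨h6, h7⟩
        · rw [h6, h7]
        · have h8 := (hch i.val i.isLt).2
          have h9 : succMap S j (Sum.inr (Sum.inr ⟨i.val, i.isLt⟩)) = Sum.inl none := by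
            simp only [succMap]
            rw [dif_neg (by rw [h7, Fin.val_last]; omega)]
          rw [h9] at h8
          rw [h6]
          exact h8
    refine ⟨c, ?_⟩
    rintro b u u' ⟨a, h3, h4⟩ ⟨a', h5, h6⟩ hne
    have hne' : (Sum.inr a : Wt X j) ≠ Sum.inr a' := by
      intro h
      have : a = a' := Sum.inr_injective h
      apply hne
      rw [← h4, ← h6, this]
    have hfil : Finset.univ.filter (fun y => F.Adj (Sum.inl b) y) = {Sum.inr a, Sum.inr a'} := by
      symm
      apply Finset.eq_of_subset_of_card_le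
      · intro y hy
        rw [Finset.mem_insert, Finset.mem_singleton] at hy
        rw [Finset.mem_filter]
        rcases hy with rfl | rfl
        · exact ⟨Finset.mem_univ _, h3⟩
        · exact ⟨Finset.mem_univ _, h5⟩
      · rw [hN, Finset.card_pair hne']
    rw [← hgl b, bd_pair F g _ _ _ hne' hfil, hc' b a h3, hc' b a' h5, h4, h6]
  obtain ⟨c, hcc⟩ := colourable_of_two S.P S.next S.trans S.memP S.memP' hodd R hRe
    (by intro b; convert hrow b) (by intro u; convert hcol u) κ κ' hκ (hex true) (hex false)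
    (by
      intro T hT
      obtain ⟨c, hc⟩ := solv T (by intro o; convert hT o)
      exact ⟨c, fun b u u' h3 h4 h5 => by rw [hc b u u' h3 h4 h5]⟩)
  obtain ⟨v, Xc, hP, _⟩ := S.inv c
  obtain ⟨u, hu, u', hu', hne⟩ := hcc v
  exact hne (by rw [hP u hu, hP u' hu'])

end H52TF
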