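import Mathlib

open Set Module

namespace Pool.Agent.H52.Poly

variable {E : Type*} [NormedAddCommGroup E] [InnerProductSpace ℝ E] [FiniteDimensional ℝ E]

/-- an exposed face of an exposed face of a polytope is exposed -/
lemma exposed_trans (S : Finset E) (F G : Set E) (hF : IsExposed ℝ (convexHull ℝ (S : Set E)) F)
    (hG : IsExposed ℝ F G) (hGne : G.Nonempty) : IsExposed ℝ (convexHull ℝ (S : Set E)) G := by
  classical
  set P := convexHull ℝ (S : Set E) with hP
  intro _
  obtain ⟨x0, hx0⟩ := hGne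
  have hx0F : x0 ∈ F := hG.subset hx0
  have hx0P : x0 ∈ P := hF.subset hx0F
  obtain ⟨l, hl⟩ := hF ⟨x0, hx0F⟩
  obtain ⟨m, hm⟩ := hG ⟨x0, hx0⟩
  have hSP : ∀ v ∈ S, v ∈ P := fun v hv => subset_convexHull ℝ _ hv
  have hlx0 : ∀ y ∈ P, l y ≤ l x0 := by
    have h1 := hx0F
    rw [hl] at h1; exact h1.2
  have hmx0 : ∀ y ∈ F, m y ≤ m x0 := by
    have h1 := hx0
    rw [hm] at h1; exact h1.2
  have hFiff : ∀ x ∈ P, l x0 ≤ l x → x ∈ F := by
    intro x hx h
    rw [hl]
    exact ⟨hx, fun y hy => (hlx0 y hy).trans h⟩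
  obtain ⟨Λ, hΛ⟩ := (S.image (fun v => (m v - m x0) / (l x0 - l v))).exists_le
  have hS : ∀ v ∈ S, Λ * (l v - l x0) + (m v - m x0) ≤ 0 := by
    intro v hv
    rcases (hlx0 v (hSP v hv)).lt_or_eq with h | h
    · have h1 := hΛ _ (Finset.mem_image_of_mem _ hv)
      rw [div_le_iff₀ (by linarith)] at h1
      nlinarith
    · have h1 := hmx0 v (hFiff v (hSP v hv) h.ge)
      rw [h]; linarith
  have h0 : ∀ x ∈ P, Λ * (l x - l x0) + (m x - m x0) ≤ 0 := by
    have hconv : Convex ℝ {x : E | (Λ • l + m : StrongDual ℝ E) x ≤ Λ * l x0 + m x0} :=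
      convex_halfSpace_le (Λ • l + m : StrongDual ℝ E).toLinearMap.isLinear _
    have hsub : P ⊆ {x : E | (Λ • l + m : StrongDual ℝ E) x ≤ Λ * l x0 + m x0} := by
      apply convexHull_min _ hconv
      intro v hv
      have := hS v hv
      simp only [mem_ofPred_eq, add_apply, smul_apply, smul_eq_mul]
      linarith
    intro x hx
    have := hsub hx
    simp only [mem_ofPred_eq, add_apply, smul_apply, smul_eq_mul] at this
    linarith
  refine ⟨(Λ + 1) • l + m, ?_⟩
  ext x
  simp only [mem_ofPred_eq, add_apply, smul_apply, smul_eq_mul]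
  constructor
  · intro hx
    have hxF : x ∈ F := hG.subset hx
    have hxP : x ∈ P := hF.subset hxF
    have h1 : l x0 ≤ l x := by
      rw [hl] at hxF; exact hxF.2 x0 hx0P
    have h2 : m x0 ≤ m x := by
      rw [hm] at hx; exact hx.2 x0 hx0F
    refine ⟨hxP, fun y hy => ?_⟩
    have h3 := h0 y hy
    have h4 := hlx0 y hy
    have h5 := hlx0 x hxP
    have h6 := hmx0 x hxF
    have h7 : l x = l x0 := le_antisymm h5 h1
    have h8 : m x = m x0 := le_antisymm h6 h2
    rw [h7, h8]
    nlinarith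
  · rintro ⟨hxP, hx⟩
    have h1 := hx x0 hx0P
    have h2 := h0 x hxP
    have h3 : l x0 ≤ l x := by nlinarith
    have h4 : l x = l x0 := le_antisymm (hlx0 x hxP) h3
    have h5 : m x0 ≤ m x := by rw [h4] at h1; linarith
    rw [hm]
    exact ⟨hFiff x hxP h3, fun y hy => (hmx0 y hy).trans h5⟩

lemma isCompact_polytope (S : Finset E) : IsCompact (convexHull ℝ (S : Set E)) :=
  S.finite_toSet.isCompact_convexHull ℝ

lemma face_isCompact (S : Finset E) (F : Set E) (hF : IsExposed ℝ (convexHull ℝ (S : Set E)) F) :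
    IsCompact F := hF.isCompact (isCompact_polytope S)

lemma face_convex (S : Finset E) (F : Set E) (hF : IsExposed ℝ (convexHull ℝ (S : Set E)) F) :
    Convex ℝ F := hF.convex (convex_convexHull ℝ _)

/-- finitely many exposed faces -/
lemma finite_faces (S : Finset E) : {F : Set E | IsExposed ℝ (convexHull ℝ (S : Set E)) F}.Finite := by
  apply Set.Finite.of_finite_image (f := fun F => F.extremePoints ℝ)
  · apply Set.Finite.subset (Set.Finite.powerset S.finite_toSet)
    rintro _ ⟨F, hF, rfl⟩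
    rw [mem_powerset_iff]
    exact (hF.isExtreme.extremePoints_subset_extremePoints).trans extremePoints_convexHull_subset
  · intro F hF G hG h
    have h1 := closure_convexHull_extremePoints (face_isCompact S F hF) (face_convex S F hF)
    have h2 := closure_convexHull_extremePoints (face_isCompact S G hG) (face_convex S G hG)
    simp only at h
    rw [← h1, ← h2, h]

/-- the linear hull of the cone over `A` -/
def hat (A : Set E) : Submodule ℝ (E × ℝ) := Submodule.span ℝ ((fun p => (p, (1 : ℝ))) '' A)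

lemma hat_mono {A B : Set E} (h : A ⊆ B) : hat A ≤ hat B :=
  Submodule.span_mono (Set.image_mono h)

lemma mem_hat {A : Set E} {p0 : E} (hp0 : p0 ∈ A) (z : E × ℝ) :
    z ∈ hat A ↔ z.1 - z.2 • p0 ∈ vectorSpan ℝ A := by
  constructor
  · intro hz
    let T : E × ℝ →ₗ[ℝ] E := LinearMap.fst ℝ E ℝ - (LinearMap.snd ℝ E ℝ).smulRight p0
    have hT : ∀ z, T z = z.1 - z.2 • p0 := fun z => by simp [T]
    have h1 : hat A ≤ (vectorSpan ℝ A).comap T := by
      rw [hat, Submodule.span_le]
      rintro _ ⟨p, hp, rfl⟩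
      simp only [SetLike.mem_coe, Submodule.mem_comap, hT, one_smul]
      exact vsub_mem_vectorSpan ℝ hp hp0
    have h2 := h1 hz
    rw [Submodule.mem_comap, hT] at h2
    exact h2
  · intro hz
    have h1 : vectorSpan ℝ A ≤ (hat A).comap (LinearMap.inl ℝ E ℝ) := by
      rw [vectorSpan_def, Submodule.span_le]
      rintro _ ⟨p, hp, q, hq, rfl⟩
      simp only [SetLike.mem_coe, Submodule.mem_comap, LinearMap.inl_apply]
      have : ((p -ᵥ q : E), (0 : ℝ)) = (p, 1) - (q, 1) := by simp
      rw [this]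
      exact Submodule.sub_mem _ (Submodule.subset_span ⟨p, hp, rfl⟩) (Submodule.subset_span ⟨q, hq, rfl⟩)
    have h2 := h1 hz
    rw [Submodule.mem_comap, LinearMap.inl_apply] at h2
    have h3 : z = (z.1 - z.2 • p0, 0) + z.2 • (p0, (1 : ℝ)) := by
      ext <;> simp
    rw [h3]
    exact Submodule.add_mem _ h2 (Submodule.smul_mem _ _ (Submodule.subset_span ⟨p0, hp0, rfl⟩))

lemma finrank_hat {A : Set E} (hA : A.Nonempty) :
    finrank ℝ (hat A) = finrank ℝ (vectorSpan ℝ A) + 1 := by
  obtain ⟨p0, hp0⟩ := hA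
  let e : hat A ≃ₗ[ℝ] (vectorSpan ℝ A) × ℝ :=
    { toFun := fun z => (⟨z.1.1 - z.1.2 • p0, (mem_hat hp0 z.1).1 z.2⟩, z.1.2)
      invFun := fun w => ⟨(w.1.1 + w.2 • p0, w.2), (mem_hat hp0 _).2 (by simp)⟩
      map_add' := by
        intro z w
        ext
        · simp [add_smul]; abel
        · simp
      map_smul' := by
        intro c z
        ext
        · simp [smul_sub, mul_smul]
        · simp
      left_inv := by
        intro z
        ext <;> simp
      right_inv := by
        intro w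
        ext <;> simp }
  rw [e.finrank_eq, Module.finrank_prod, Module.finrank_self]

lemma face_eq_hat {P F : Set E} (hF : IsExposed ℝ P F) (hFne : F.Nonempty) :
    ∀ x, x ∈ F ↔ (x ∈ P ∧ (x, (1 : ℝ)) ∈ hat F) := by
  intro x
  constructor
  · intro hx
    exact ⟨hF.subset hx, Submodule.subset_span ⟨x, hx, rfl⟩⟩
  · rintro ⟨hxP, hx⟩
    obtain ⟨l, hl⟩ := hF hFne
    obtain ⟨p0, hp0⟩ := hFne
    rw [mem_hat hp0] at hx
    have h1 : vectorSpan ℝ F ≤ LinearMap.ker l.toLinearMap := by
      rw [vectorSpan_def, Submodule.span_le]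
      rintro _ ⟨p, hp, q, hq, rfl⟩
      rw [hl] at hp hq
      have h2 := hp.2 q hq.1
      have h3 := hq.2 p hp.1
      simp only [SetLike.mem_coe, LinearMap.mem_ker, vsub_eq_sub, map_sub]
      exact sub_eq_zero.2 (le_antisymm h3 h2)
    have h2 := h1 hx
    simp only [one_smul, LinearMap.mem_ker, map_sub] at h2
    have h3 : l x = l p0 := sub_eq_zero.1 h2
    rw [hl] at hp0 ⊢
    refine ⟨hxP, fun y hy => ?_⟩
    rw [h3]; exact hp0.2 y hy

lemma hat_injOn {P F G : Set E} (hF : IsExposed ℝ P F) (hFne : F.Nonempty)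
    (hG : IsExposed ℝ P G) (hGne : G.Nonempty) (h : hat F = hat G) : F = G := by
  ext x
  rw [face_eq_hat hF hFne, face_eq_hat hG hGne, h]

end Pool.Agent.H52.Poly
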