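import Mathlib
import Pool.Agent.H52.Poly

open Set Module MeasureTheory

namespace Pool.Agent.H52.Poly

variable {E : Type*} [NormedAddCommGroup E] [InnerProductSpace ℝ E] [FiniteDimensional ℝ E]

/-- coordinates with respect to an orthonormal family -/
noncomputable def coord {n : ℕ} (u : Fin n → E) : E →L[ℝ] (Fin n → ℝ) :=
  ContinuousLinearMap.pi (fun j => innerSL ℝ (u j))

@[simp] lemma coord_apply {n : ℕ} (u : Fin n → E) (x : E) (j : Fin n) : coord u x j = inner ℝ (u j) x := rfl

lemma expand {n : ℕ} {u : Fin n → E} (hu : Orthonormal ℝ u) {D : Submodule ℝ E} (huD : ∀ j, u j ∈ D)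
    (hD : finrank ℝ D = n) {v : E} (hv : v ∈ D) : v = ∑ j, (inner ℝ (u j) v : ℝ) • u j := by
  have h1 : Submodule.span ℝ (Set.range u) = D := by
    apply Submodule.eq_of_le_of_finrank_eq
    · rw [Submodule.span_le]; rintro _ ⟨j, rfl⟩; exact huD j
    · rw [finrank_span_eq_card hu.linearIndependent, hD, Fintype.card_fin]
  rw [← h1, Submodule.mem_span_range_iff_exists_fun] at hv
  obtain ⟨c, hc⟩ := hv
  have h2 : ∀ j, (inner ℝ (u j) v : ℝ) = c j := by
    intro j
    rw [← hc]
    exact hu.inner_right_fintype c j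
  simp only [h2]
  exact hc.symm

/-- exit lemma -/
lemma exit_face {n : ℕ} {u : Fin n → E} (hu : Orthonormal ℝ u) (F : Set E) (hFc : IsCompact F)
    (hFconv : Convex ℝ F) (huD : ∀ j, u j ∈ vectorSpan ℝ F)
    (hD : finrank ℝ (vectorSpan ℝ F) = n) (j : Fin n) (x : E) (hx : x ∈ F) :
    ∃ x' ∈ F, (∀ i, i ≠ j → (inner ℝ (u i) x' : ℝ) = inner ℝ (u i) x) ∧
      ∃ G, IsExposed ℝ F G ∧ x' ∈ G ∧ finrank ℝ (vectorSpan ℝ G) < n := by
  classical
  -- the maximiser on the line
  have hcomp : IsCompact (F ∩ {z | ∀ i, i ≠ j → (inner ℝ (u i) z : ℝ) = inner ℝ (u i) x}) := by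
    apply hFc.inter_right
    simp only [ofPred_forall]
    apply isClosed_iInter; intro i
    apply isClosed_iInter; intro _
    exact isClosed_eq (by fun_prop) continuous_const
  obtain ⟨x', hx', hmax⟩ := hcomp.exists_isMaxOn ⟨x, hx, fun i _ => rfl⟩
    (f := fun z => (inner ℝ (u j) z : ℝ)) (by fun_prop)
  refine ⟨x', hx'.1, hx'.2, ?_⟩
  set K := coord u '' F with hK
  have hKconv : Convex ℝ K := hFconv.linear_image (coord u).toLinearMap
  have hKspan : affineSpan ℝ K = ⊤ := by
    rw [← AffineSubspace.direction_eq_top_iff_of_nonempty, direction_affineSpan]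
    · rw [eq_top_iff]
      intro y _
      have h1 : y = coord u (∑ k, y k • u k) := by
        funext k
        rw [coord_apply]
        exact (hu.inner_right_fintype y k).symm
      have h2 : (∑ k, y k • u k) ∈ vectorSpan ℝ F :=
        Submodule.sum_mem _ (fun k _ => Submodule.smul_mem _ _ (huD k))
      have h3 : vectorSpan ℝ F ≤ (vectorSpan ℝ K).comap (coord u).toLinearMap := by
        rw [vectorSpan_def, Submodule.span_le]
        rintro _ ⟨p, hp, q, hq, rfl⟩
        simp only [SetLike.mem_coe, Submodule.mem_comap, vsub_eq_sub, map_sub]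
        exact vsub_mem_vectorSpan ℝ ⟨p, hp, rfl⟩ ⟨q, hq, rfl⟩
      rw [h1]
      exact h3 h2
    · exact ⟨coord u x, subset_affineSpan ℝ _ ⟨x, hx, rfl⟩⟩
  have hint : (interior K).Nonempty := by
    rw [hKconv.interior_nonempty_iff_affineSpan_eq_top]; exact hKspan
  have hnot : coord u x' ∉ interior K := by
    intro h
    have h1 : ∀ᶠ ε in nhds (0 : ℝ), coord u x' + ε • (Pi.single j 1 : Fin n → ℝ) ∈ interior K := by
      have h2 : Filter.Tendsto (fun ε : ℝ => coord u x' + ε • (Pi.single j 1 : Fin n → ℝ)) (nhds 0)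
          (nhds (coord u x' + (0 : ℝ) • (Pi.single j 1 : Fin n → ℝ))) := by
        apply Continuous.tendsto; fun_prop
      rw [zero_smul, add_zero] at h2
      exact h2.eventually (isOpen_interior.mem_nhds h)
    obtain ⟨ε, hε, hεpos⟩ := (h1.filter_mono nhdsWithin_le_nhds |>.and
      (self_mem_nhdsWithin (s := Set.Ioi (0 : ℝ)) (a := 0))).exists
    have h3 := interior_subset hε
    obtain ⟨z, hz, hzx⟩ := h3
    have h4 : ∀ i, (inner ℝ (u i) z : ℝ) = inner ℝ (u i) x' + ε * (Pi.single j 1 : Fin n → ℝ) i := by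
      intro i
      have := congr_fun hzx i
      simpa using this
    have h5 : z ∈ F ∩ {z | ∀ i, i ≠ j → (inner ℝ (u i) z : ℝ) = inner ℝ (u i) x} := by
      refine ⟨hz, fun i hi => ?_⟩
      rw [h4 i, Pi.single_eq_of_ne hi, mul_zero, add_zero]
      exact hx'.2 i hi
    have h6 := hmax h5
    simp only [mem_ofPred_eq] at h6
    rw [h4 j, Pi.single_eq_same, mul_one] at h6
    have : (0 : ℝ) < ε := hεpos
    linarith
  obtain ⟨f, hf⟩ := geometric_hahn_banach_open_point hKconv.interior isOpen_interior hnot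
  set l : StrongDual ℝ E := f.comp (coord u) with hl
  have hle : ∀ z ∈ F, l z ≤ l x' := by
    intro z hz
    have h1 : K ⊆ closure (interior K) := by
      rw [hKconv.closure_interior_eq_closure_of_nonempty_interior hint]
      exact subset_closure
    have h2 : closure (interior K) ⊆ {y | f y ≤ f (coord u x')} :=
      closure_minimal (fun y hy => (hf y hy).le) (isClosed_le f.continuous continuous_const)
    exact h2 (h1 ⟨z, hz, rfl⟩)
  obtain ⟨y0, hy0⟩ := hint
  obtain ⟨z0, hz0, hz0y⟩ := interior_subset hy0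
  have hlt : l z0 < l x' := by
    have := hf y0 hy0
    rw [← hz0y] at this
    exact this
  refine ⟨{z ∈ F | ∀ w ∈ F, l w ≤ l z}, fun _ => ⟨l, rfl⟩, ⟨hx'.1, hle⟩, ?_⟩
  rw [← hD]
  apply Submodule.finrank_lt_finrank_of_lt
  refine lt_of_le_of_ne (vectorSpan_mono ℝ (fun z hz => hz.1)) ?_
  intro h
  have h1 : vectorSpan ℝ {z ∈ F | ∀ w ∈ F, l w ≤ l z} ≤ LinearMap.ker l.toLinearMap := by
    rw [vectorSpan_def, Submodule.span_le]
    rintro _ ⟨p, hp, q, hq, rfl⟩
    have h2 := hp.2 q hq.1
    have h3 := hq.2 p hp.1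
    simp only [SetLike.mem_coe, LinearMap.mem_ker, vsub_eq_sub, map_sub]
    exact sub_eq_zero.2 (le_antisymm h3 h2)
  rw [h] at h1
  have h2 : x' - z0 ∈ vectorSpan ℝ F := vsub_mem_vectorSpan ℝ hx'.1 hz0
  have h3 := h1 h2
  simp only [LinearMap.mem_ker, map_sub] at h3
  have h4 : l x' - l z0 = 0 := h3
  linarith

/-- projected lower-dimensional sets are null -/
lemma null_image {m : ℕ} {u : Fin (m + 1) → E} (hu : Orthonormal ℝ u) (G : Set E) (j : Fin (m + 1))
    (hG : finrank ℝ (vectorSpan ℝ G) ≤ m)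
    (h : finrank ℝ (vectorSpan ℝ G) < m ∨ u j ∈ vectorSpan ℝ G) :
    volume (coord (fun i : Fin m => u (j.succAbove i)) '' G) = 0 := by
  rcases G.eq_empty_or_nonempty with rfl | hne
  · simp
  set ρ := coord (fun i : Fin m => u (j.succAbove i)) with hρ
  have h1 : finrank ℝ ((vectorSpan ℝ G).map ρ.toLinearMap) < m := by
    rcases h with h | h
    · exact (Submodule.finrank_map_le _ _).trans_lt h
    · have h2 := LinearMap.finrank_range_add_finrank_ker (ρ.toLinearMap.domRestrict (vectorSpan ℝ G))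
      rw [LinearMap.range_domRestrict] at h2
      have h3 : 0 < finrank ℝ (LinearMap.ker (ρ.toLinearMap.domRestrict (vectorSpan ℝ G))) := by
        rw [Module.finrank_pos_iff_exists_ne_zero]
        refine ⟨⟨⟨u j, h⟩, ?_⟩, ?_⟩
        · rw [LinearMap.mem_ker]
          funext i
          change (inner ℝ (u (j.succAbove i)) (u j) : ℝ) = 0
          exact hu.2 (Fin.succAbove_ne j i)
        · intro h4
          have h5 : u j = 0 := by
            have := congr_arg (fun z => ((z : LinearMap.ker (ρ.toLinearMap.domRestrict (vectorSpan ℝ G))) : vectorSpan ℝ G).1) h4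
            simpa using this
          have h6 := hu.1 j
          rw [h5, norm_zero] at h6
          norm_num at h6
      omega
  have h2 : affineSpan ℝ (ρ '' G) ≠ ⊤ := by
    intro h3
    have h4 : vectorSpan ℝ (ρ '' G) = ⊤ := by
      rw [← direction_affineSpan, h3, AffineSubspace.direction_top]
    have h5 : vectorSpan ℝ (ρ '' G) ≤ (vectorSpan ℝ G).map ρ.toLinearMap := by
      rw [vectorSpan_def, Submodule.span_le]
      rintro _ ⟨_, ⟨p, hp, rfl⟩, _, ⟨q, hq, rfl⟩, rfl⟩
      refine ⟨p - q, vsub_mem_vectorSpan ℝ hp hq, ?_⟩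
      simp
    rw [h4, top_le_iff] at h5
    rw [h5, finrank_top] at h1
    simp at h1
  have h3 := Measure.addHaar_affineSubspace (volume : Measure (Fin m → ℝ)) (affineSpan ℝ (ρ '' G)) h2
  exact measure_mono_null (subset_affineSpan ℝ _) h3

end Pool.Agent.H52.Poly
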