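import Mathlib

open MeasureTheory Set

namespace Pool.Agent.H52.LW

/-- leave out the `j`-th coordinate -/
def dropC {m : ℕ} (j : Fin (m + 1)) (y : Fin (m + 1) → ℝ) : Fin m → ℝ := fun i => y (j.succAbove i)

lemma continuous_dropC {m : ℕ} (j : Fin (m + 1)) : Continuous (dropC j) :=
  continuous_pi (fun i => continuous_apply _)

lemma dropC_zero_cons {m : ℕ} (t : ℝ) (y : Fin m → ℝ) : dropC 0 (Fin.cons t y : Fin (m + 1) → ℝ) = y := by
  funext i; simp [dropC]

lemma dropC_succ_cons {m : ℕ} (j : Fin (m + 1)) (t : ℝ) (y : Fin (m + 1) → ℝ) :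
    dropC j.succ (Fin.cons t y : Fin (m + 2) → ℝ) = Fin.cons t (dropC j y) := by
  funext i
  refine Fin.cases ?_ (fun i => ?_) i
  · simp [dropC]
  · simp [dropC, Fin.succ_succAbove_succ]

/-- slicing formula for the volume -/
lemma volume_eq_lintegral_slices {m : ℕ} (K : Set (Fin (m + 1) → ℝ)) (hK : MeasurableSet K) :
    Measurable (fun t : ℝ => volume {y : Fin m → ℝ | (Fin.cons t y : Fin (m + 1) → ℝ) ∈ K}) ∧
    volume K = ∫⁻ t : ℝ, volume {y : Fin m → ℝ | (Fin.cons t y : Fin (m + 1) → ℝ) ∈ K} := by
  have hmp := (volume_preserving_piFinSuccAbove (fun _ : Fin (m + 1) => ℝ) 0).symm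
  have h1 : volume K = volume ((MeasurableEquiv.piFinSuccAbove (fun _ : Fin (m + 1) => ℝ) 0).symm ⁻¹' K) :=
    (hmp.measure_preimage_equiv K).symm
  have hmeas : MeasurableSet ((MeasurableEquiv.piFinSuccAbove (fun _ : Fin (m + 1) => ℝ) 0).symm ⁻¹' K) :=
    (MeasurableEquiv.piFinSuccAbove (fun _ : Fin (m + 1) => ℝ) 0).symm.measurable hK
  have h2 : ∀ t : ℝ, (Prod.mk t ⁻¹' ((MeasurableEquiv.piFinSuccAbove (fun _ : Fin (m + 1) => ℝ) 0).symm ⁻¹' K))
      = {y : Fin m → ℝ | (Fin.cons t y : Fin (m + 1) → ℝ) ∈ K} := by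
    intro t
    ext y
    simp [MeasurableEquiv.piFinSuccAbove, Fin.insertNthEquiv, Fin.insertNth_zero']
  constructor
  · have h3 := measurable_measure_prodMk_left (ν := (volume : Measure (Fin m → ℝ))) hmeas
    simp only [h2] at h3
    exact h3
  · rw [h1, Measure.volume_eq_prod, Measure.prod_apply hmeas]
    simp only [h2]

theorem loomis_whitney : ∀ (m : ℕ) (K : Set (Fin (m + 1) → ℝ)), IsCompact K → K.Nonempty →
    volume K ^ m ≤ ∏ j : Fin (m + 1), volume (dropC j '' K) := by
  intro m
  induction m with
  | zero =>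
    intro K hK hne
    simp only [pow_zero]
    rw [Fin.prod_univ_one]
    have h1 : dropC 0 '' K = univ := by
      apply Set.eq_univ_of_forall
      intro y
      obtain ⟨x, hx⟩ := hne
      exact ⟨x, hx, Subsingleton.elim _ _⟩
    rw [h1, volume_pi, Measure.pi_of_empty]
    simp
  | succ m ih =>
    intro K hK hne
    set S : ℝ → Set (Fin (m + 1) → ℝ) := fun t => {y | (Fin.cons t y : Fin (m + 2) → ℝ) ∈ K} with hS
    have hScomp : ∀ t, IsCompact (S t) := by
      intro t
      have h1 : S t = dropC 0 '' (K ∩ {x | x 0 = t}) := by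
        ext y
        constructor
        · intro hy
          exact ⟨Fin.cons t y, ⟨hy, by simp⟩, dropC_zero_cons t y⟩
        · rintro ⟨x, ⟨hx, hx0⟩, rfl⟩
          change (Fin.cons t (dropC 0 x) : Fin (m + 2) → ℝ) ∈ K
          have : (Fin.cons t (dropC 0 x) : Fin (m + 2) → ℝ) = x := by
            funext i
            refine Fin.cases ?_ (fun i => ?_) i
            · simpa using hx0.symm
            · simp [dropC]
          rw [this]; exact hx
      rw [h1]
      apply IsCompact.image _ (continuous_dropC 0)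
      exact hK.inter_right (isClosed_eq (continuous_apply 0) continuous_const)
    set A0 := volume (dropC 0 '' K) with hA0
    set B : Fin (m + 1) → ℝ → ENNReal := fun i t => volume (dropC i '' S t) with hB
    have hslice : ∀ (i : Fin (m + 1)) (t : ℝ),
        {z : Fin m → ℝ | (Fin.cons t z : Fin (m + 1) → ℝ) ∈ dropC i.succ '' K} = dropC i '' S t := by
      intro i t
      ext z
      constructor
      · rintro ⟨x, hx, hxz⟩
        refine ⟨dropC 0 x, ?_, ?_⟩
        · change (Fin.cons t (dropC 0 x) : Fin (m + 2) → ℝ) ∈ K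
          have : (Fin.cons t (dropC 0 x) : Fin (m + 2) → ℝ) = x := by
            funext k
            refine Fin.cases ?_ (fun k => ?_) k
            · have := congr_fun hxz 0
              simp only [dropC, Fin.succ_succAbove_zero, Fin.cons_zero] at this
              simpa using this.symm
            · simp [dropC]
          rw [this]; exact hx
        · funext k
          have := congr_fun hxz k.succ
          simp only [dropC, Fin.succ_succAbove_succ, Fin.cons_succ] at this
          simpa [dropC] using this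
      · rintro ⟨y, hy, rfl⟩
        exact ⟨Fin.cons t y, hy, dropC_succ_cons i t y⟩
    have hBint : ∀ i : Fin (m + 1), Measurable (B i) ∧ volume (dropC i.succ '' K) = ∫⁻ t, B i t := by
      intro i
      have h1 := volume_eq_lintegral_slices (dropC i.succ '' K)
        (hK.image (continuous_dropC _)).measurableSet
      simp only [hslice] at h1
      exact h1
    have hpt : ∀ t, volume (S t) ≤ (A0 ^ ((1 : ℝ) / (m + 1))) * ∏ i, (B i t) ^ ((1 : ℝ) / (m + 1)) := by
      intro t
      have hm : (0 : ℝ) < (m : ℝ) + 1 := by positivity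
      have h1 : volume (S t) ^ (m + 1) ≤ A0 * ∏ i, B i t := by
        rcases (S t).eq_empty_or_nonempty with h | h
        · rw [h]; simp
        · rw [pow_succ, mul_comm]
          apply mul_le_mul' _ (ih (S t) (hScomp t) h)
          apply measure_mono
          intro y hy
          exact ⟨Fin.cons t y, hy, dropC_zero_cons t y⟩
      have h2 : volume (S t) = (volume (S t) ^ (m + 1)) ^ ((1 : ℝ) / (m + 1)) := by
        rw [← ENNReal.rpow_natCast, ← ENNReal.rpow_mul]
        have : ((m + 1 : ℕ) : ℝ) * ((1 : ℝ) / (m + 1)) = 1 := by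
          push_cast; field_simp
        rw [this, ENNReal.rpow_one]
      rw [h2]
      refine (ENNReal.rpow_le_rpow h1 (by positivity)).trans (le_of_eq ?_)
      rw [ENNReal.mul_rpow_of_nonneg _ _ (by positivity), ENNReal.prod_rpow_of_nonneg (by positivity)]
    have hvol : volume K ≤ (A0 ^ ((1 : ℝ) / (m + 1))) *
        ∏ i : Fin (m + 1), (volume (dropC i.succ '' K)) ^ ((1 : ℝ) / (m + 1)) := by
      rw [(volume_eq_lintegral_slices K hK.measurableSet).2]
      calc ∫⁻ t, volume (S t) ≤ ∫⁻ t, (A0 ^ ((1 : ℝ) / (m + 1))) * ∏ i, (B i t) ^ ((1 : ℝ) / (m + 1)) :=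
            lintegral_mono hpt
        _ = (A0 ^ ((1 : ℝ) / (m + 1))) * ∫⁻ t, ∏ i, (B i t) ^ ((1 : ℝ) / (m + 1)) := by
            rw [lintegral_const_mul]
            exact Finset.measurable_prod _ (fun i _ => (hBint i).1.pow_const _)
        _ ≤ (A0 ^ ((1 : ℝ) / (m + 1))) * ∏ i, (∫⁻ t, B i t) ^ ((1 : ℝ) / (m + 1)) := by
            gcongr
            apply ENNReal.lintegral_prod_norm_pow_le
            · intro i _; exact (hBint i).1.aemeasurable
            · simp; field_simp
            · intro i _; positivity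
        _ = _ := by
            congr 1
            apply Finset.prod_congr rfl
            intro i _
            rw [(hBint i).2]
    have hm : (0 : ℝ) < (m : ℝ) + 1 := by positivity
    calc volume K ^ (m + 1) ≤ ((A0 ^ ((1 : ℝ) / (m + 1))) *
        ∏ i : Fin (m + 1), (volume (dropC i.succ '' K)) ^ ((1 : ℝ) / (m + 1))) ^ (m + 1) := by
          gcongr
      _ = A0 * ∏ i : Fin (m + 1), volume (dropC i.succ '' K) := by
          rw [ENNReal.prod_rpow_of_nonneg (by positivity), ← ENNReal.mul_rpow_of_nonneg _ _ (by positivity),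
            ← ENNReal.rpow_natCast, ← ENNReal.rpow_mul]
          have : ((1 : ℝ) / (m + 1)) * ((m + 1 : ℕ) : ℝ) = 1 := by
            push_cast; field_simp
          rw [this, ENNReal.rpow_one]
      _ = ∏ j : Fin (m + 2), volume (dropC j '' K) := by
          exact (Fin.prod_univ_succ (fun j : Fin (m + 2) => volume (dropC j '' K))).symm

end Pool.Agent.H52.LW
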