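import Mathlib

open Finset Module

namespace Pool.Agent.H52.ONB

open Classical in
/-- Greedy orthonormal basis. -/
lemma exists_onb {E : Type*} [NormedAddCommGroup E] [InnerProductSpace ℝ E] [FiniteDimensional ℝ E]
    {ι : Type*} [Fintype ι] (a : ι → ENNReal) : ∀ (n : ℕ) (D : Submodule ℝ E), finrank ℝ D = n →
    ∀ ν : ι → E, (∀ i, ν i ∈ D) → ∃ u : Fin n → E, Orthonormal ℝ u ∧ (∀ j, u j ∈ D) ∧
      ∏ j, (∑ i ∈ univ.filter (fun i => inner ℝ (ν i) (u j) ≠ 0), a i) ≤
      ∑ σ ∈ (univ : Finset (Fin n → ι)).filter (fun σ => LinearIndependent ℝ (fun j => ν (σ j))),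
        ∏ j, a (σ j) := by
  intro n
  induction n with
  | zero =>
    intro D hD ν hν
    refine ⟨Fin.elim0, ?_, fun j => j.elim0, ?_⟩
    · constructor
      · intro i; exact i.elim0
      · intro i; exact i.elim0
    · simp only [Finset.univ_eq_empty, Finset.prod_empty, Finset.sum_const, nsmul_eq_mul, mul_one]
      have h1 : (univ : Finset (Fin 0 → ι)).filter (fun σ => LinearIndependent ℝ (fun j => ν (σ j))) = univ := by
        apply Finset.filter_true_of_mem
        intro σ _
        exact linearIndependent_empty_type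
      rw [h1]; simp
  | succ n ih =>
    intro D hD ν hν
    -- unit vectors orthogonal to a smaller subspace
    have hunit : ∀ K : Submodule ℝ E, K ≤ D → finrank ℝ K ≤ n →
        ∃ u ∈ D, ‖u‖ = 1 ∧ ∀ x ∈ K, inner ℝ x u = 0 := by
      intro K hK hKn
      have h1 := Submodule.finrank_add_inf_finrank_orthogonal hK
      have h2 : (Kᗮ ⊓ D) ≠ ⊥ := by
        intro h
        rw [h, finrank_bot] at h1
        omega
      obtain ⟨v, hv, hv0⟩ := (Submodule.ne_bot_iff _).1 h2
      have hv1 : v ∈ Kᗮ := hv.1
      refine ⟨‖v‖⁻¹ • v, D.smul_mem _ hv.2, ?_, ?_⟩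
      · rw [norm_smul, norm_inv, norm_norm, inv_mul_cancel₀ (norm_ne_zero_iff.2 hv0)]
      · intro x hx
        rw [inner_smul_right, (Submodule.mem_orthogonal K v).1 hv1 x hx, mul_zero]
    -- minimal support
    set supp : E → Finset ι := fun u => univ.filter (fun i => inner ℝ (ν i) u ≠ 0) with hsupp
    set F : Finset (Finset ι) := univ.filter (fun T => ∃ u ∈ D, ‖u‖ = 1 ∧ supp u = T) with hF
    have hFne : F.Nonempty := by
      obtain ⟨u, hu, hu1, _⟩ := hunit ⊥ bot_le (by simp)
      exact ⟨supp u, by simp only [hF, mem_filter, mem_univ, true_and]; exact ⟨u, hu, hu1, rfl⟩⟩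
    obtain ⟨T0, hT0, hmin⟩ := F.exists_min_image (fun T => ∑ i ∈ T, a i) hFne
    simp only [hF, mem_filter, mem_univ, true_and] at hT0
    obtain ⟨u0, hu0D, hu01, hu0T⟩ := hT0
    have hmin' : ∀ u ∈ D, ‖u‖ = 1 → ∑ i ∈ supp u0, a i ≤ ∑ i ∈ supp u, a i := by
      intro u hu hu1
      rw [hu0T]
      apply hmin
      simp only [hF, mem_filter, mem_univ, true_and]
      exact ⟨u, hu, hu1, rfl⟩
    have hu00 : u0 ≠ 0 := by
      intro h; rw [h, norm_zero] at hu01; norm_num at hu01
    have hinner0 : inner ℝ u0 u0 = (1 : ℝ) := by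
      rw [real_inner_self_eq_norm_sq, hu01]; norm_num
    -- the orthogonal hyperplane
    set D' : Submodule ℝ E := (Submodule.span ℝ {u0})ᗮ ⊓ D with hD'
    have hD'n : finrank ℝ D' = n := by
      have h1 := Submodule.finrank_add_inf_finrank_orthogonal
        (show Submodule.span ℝ {u0} ≤ D from (Submodule.span_singleton_le_iff_mem _ _).2 hu0D)
      rw [finrank_span_singleton hu00, hD] at h1
      change finrank ℝ ((Submodule.span ℝ {u0})ᗮ ⊓ D : Submodule ℝ E) = n
      omega
    set P : E →ₗ[ℝ] E := LinearMap.id - (innerSL ℝ u0).toLinearMap.smulRight u0 with hP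
    have hPapp : ∀ x, P x = x - (inner ℝ u0 x : ℝ) • u0 := by
      intro x; simp [hP]
    have hPD' : ∀ i, P (ν i) ∈ D' := by
      intro i
      rw [hPapp]
      refine ⟨?_, ?_⟩
      · change ν i - (inner ℝ u0 (ν i) : ℝ) • u0 ∈ (Submodule.span ℝ {u0})ᗮ
        rw [Submodule.mem_orthogonal_singleton_iff_inner_right, inner_sub_right, inner_smul_right, hinner0]
        ring
      · exact D.sub_mem (hν i) (D.smul_mem _ hu0D)
    obtain ⟨u', hu'on, hu'D, hu'ineq⟩ := ih D' hD'n (fun i => P (ν i)) hPD'
    have hperp : ∀ j, inner ℝ u0 (u' j) = (0 : ℝ) := by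
      intro j
      exact Submodule.mem_orthogonal_singleton_iff_inner_right.1 (hu'D j).1
    have hsame : ∀ i j, inner ℝ (P (ν i)) (u' j) = (inner ℝ (ν i) (u' j) : ℝ) := by
      intro i j
      rw [hPapp, inner_sub_left, inner_smul_left, hperp j]
      simp
    refine ⟨Fin.cons u0 u', ?_, ?_, ?_⟩
    · constructor
      · intro i
        refine Fin.cases ?_ (fun j => ?_) i
        · simpa using hu01
        · simpa using hu'on.1 j
      · intro i j hij
        revert hij
        refine Fin.cases ?_ (fun i => ?_) i <;> refine Fin.cases ?_ (fun j => ?_) j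
        · intro h; exact absurd rfl h
        · intro _; simpa using hperp j
        · intro _
          simp only [Fin.cons_succ, Fin.cons_zero]
          rw [real_inner_comm]; exact hperp i
        · intro h
          simp only [Fin.cons_succ]
          exact hu'on.2 (fun h' => h (by rw [h']))
    · intro j
      refine Fin.cases ?_ (fun j => ?_) j
      · simpa using hu0D
      · simpa using (hu'D j).2
    · rw [Fin.prod_univ_succ]
      simp only [Fin.cons_zero, Fin.cons_succ]
      simp only [hsame] at hu'ineq
      calc (∑ i ∈ univ.filter (fun i => inner ℝ (ν i) u0 ≠ 0), a i) *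
            ∏ j, (∑ i ∈ univ.filter (fun i => inner ℝ (ν i) (u' j) ≠ 0), a i)
          ≤ (∑ i ∈ supp u0, a i) *
            ∑ σ ∈ (univ : Finset (Fin n → ι)).filter (fun σ => LinearIndependent ℝ (fun j => P (ν (σ j)))),
              ∏ j, a (σ j) := by
            gcongr
        _ = ∑ σ ∈ (univ : Finset (Fin n → ι)).filter (fun σ => LinearIndependent ℝ (fun j => P (ν (σ j)))),
              ((∑ i ∈ supp u0, a i) * ∏ j, a (σ j)) := by rw [Finset.mul_sum]
        _ ≤ ∑ σ ∈ (univ : Finset (Fin n → ι)).filter (fun σ => LinearIndependent ℝ (fun j => P (ν (σ j)))),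
              ((∑ i ∈ univ.filter (fun i => ν i ∉ Submodule.span ℝ (Set.range (fun j => ν (σ j)))), a i) * ∏ j, a (σ j)) := by
            apply Finset.sum_le_sum
            intro σ _
            refine mul_le_mul' ?_ le_rfl
            set K := Submodule.span ℝ (Set.range (fun j => ν (σ j))) with hK
            have hKD : K ≤ D := by
              rw [hK, Submodule.span_le]
              rintro _ ⟨j, rfl⟩
              exact hν _
            have hKn : finrank ℝ K ≤ n := by
              have := finrank_range_le_card (R := ℝ) (fun j => ν (σ j))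
              rw [Fintype.card_fin] at this
              exact this
            obtain ⟨u1, hu1D, hu11, hu1K⟩ := hunit K hKD hKn
            refine (hmin' u1 hu1D hu11).trans ?_
            apply Finset.sum_le_sum_of_subset
            intro i hi
            simp only [hsupp, mem_filter, mem_univ, true_and] at hi ⊢
            intro h
            exact hi (hu1K _ h)
        _ = ∑ σ ∈ (univ : Finset (Fin n → ι)).filter (fun σ => LinearIndependent ℝ (fun j => P (ν (σ j)))),
              ∑ i ∈ univ.filter (fun i => ν i ∉ Submodule.span ℝ (Set.range (fun j => ν (σ j)))),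
                ∏ j, a ((Fin.cons i σ : Fin (n + 1) → ι) j) := by
            apply Finset.sum_congr rfl
            intro σ _
            rw [Finset.sum_mul]
            apply Finset.sum_congr rfl
            intro i _
            rw [Fin.prod_univ_succ]
            simp
        _ ≤ ∑ σ ∈ (univ : Finset (Fin (n + 1) → ι)).filter (fun σ => LinearIndependent ℝ (fun j => ν (σ j))),
              ∏ j, a (σ j) := by
            rw [Finset.sum_sigma']
            have hinj : Set.InjOn (fun p : (Σ _ : Fin n → ι, ι) => (Fin.cons p.2 p.1 : Fin (n + 1) → ι))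
                (((univ : Finset (Fin n → ι)).filter (fun σ => LinearIndependent ℝ (fun j => P (ν (σ j))))).sigma
                  (fun σ => univ.filter (fun i => ν i ∉ Submodule.span ℝ (Set.range (fun j => ν (σ j)))))) := by
              rintro ⟨σ, i⟩ _ ⟨σ', i'⟩ _ h
              have h2 := Fin.cons_inj.1 h
              simp only at h2
              rw [h2.1, h2.2]
            have h1 := Finset.sum_image (f := fun τ : Fin (n + 1) → ι => ∏ j, a (τ j)) hinj
            refine le_of_eq_of_le h1.symm (Finset.sum_le_sum_of_subset ?_)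
            intro τ hτ
            rw [mem_image] at hτ
            obtain ⟨⟨σ, i⟩, hp, rfl⟩ := hτ
            rw [Finset.mem_sigma] at hp
            simp only [mem_filter, mem_univ, true_and] at hp ⊢
            have h3 : (fun j => ν ((Fin.cons i σ : Fin (n + 1) → ι) j)) = Fin.cons (ν i) (fun j => ν (σ j)) := by
              funext j
              refine Fin.cases ?_ (fun j => ?_) j <;> simp
            rw [h3, linearIndependent_finCons]
            refine ⟨?_, hp.2⟩
            exact LinearIndependent.of_comp P hp.1

end Pool.Agent.H52.ONB
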