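import Mathlib
import Pool.Agent.H52.Face
import Pool.Agent.H52.ONB
import Pool.Agent.H52.LW

open Set Module MeasureTheory

namespace Pool.Agent.H52.Poly

open Pool.Agent.H52.LW Pool.Agent.H52.ONB

variable {E : Type*} [NormedAddCommGroup E] [InnerProductSpace ℝ E] [FiniteDimensional ℝ E]

/-- the faces of dimension `m` of the polytope `convexHull S` -/
def FaceT (S : Finset E) (m : ℕ) : Type _ :=
  {G : Set E // IsExposed ℝ (convexHull ℝ (S : Set E)) G ∧ G.Nonempty ∧ finrank ℝ (vectorSpan ℝ G) = m}

instance (S : Finset E) (m : ℕ) : Finite (FaceT S m) := by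
  have h := finite_faces S
  exact Set.Finite.to_subtype (h.subset (fun G hG => hG.1))

noncomputable instance (S : Finset E) (m : ℕ) : Fintype (FaceT S m) := Fintype.ofFinite _

lemma lipschitz_coord {n : ℕ} {u : Fin n → E} (hu : ∀ j, ‖u j‖ = 1) : LipschitzWith 1 (coord u) := by
  apply LipschitzWith.of_dist_le_mul
  intro x y
  rw [dist_eq_norm, dist_eq_norm, ← map_sub, NNReal.coe_one, one_mul]
  rw [pi_norm_le_iff_of_nonneg (norm_nonneg _)]
  intro j
  rw [coord_apply]
  refine (norm_inner_le_norm _ _).trans ?_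
  rw [hu j, one_mul]

variable [MeasurableSpace E] [BorelSpace E]

open Classical in
theorem face_ineq (S : Finset E) (m : ℕ) (F : FaceT S (m + 1)) :
    (μH[((m + 1 : ℕ) : ℝ)] F.1) ^ m ≤ ((((m + 1 : ℕ) : ENNReal) ^ (m + 1)) ^ m) *
      ∑ σ ∈ (Finset.univ : Finset (Fin (m + 1) → FaceT S m)).filter
        (fun σ => (∀ j, (σ j).1 ⊆ F.1) ∧ finrank ℝ (⨅ j, hat (σ j).1 : Submodule ℝ (E × ℝ)) ≤ 1),
        ∏ j, μH[(m : ℝ)] (σ j).1 := by
  obtain ⟨F, hF, hFne, hFdim⟩ := F
  simp only
  set D := vectorSpan ℝ F with hD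
  have hFc := face_isCompact S F hF
  have hFconv := face_convex S F hF
  obtain ⟨p0, hp0⟩ := hFne
  -- normals
  have hν : ∀ G : FaceT S m, ∃ v ∈ D, (G.1 ⊆ F → (v ≠ 0 ∧ (∀ x ∈ vectorSpan ℝ G.1, inner ℝ v x = (0 : ℝ)) ∧
      ∀ x ∈ D, inner ℝ v x = (0 : ℝ) → x ∈ vectorSpan ℝ G.1)) ∧ (¬ G.1 ⊆ F → v = 0) := by
    intro G
    by_cases hGF : G.1 ⊆ F
    · have hle : vectorSpan ℝ G.1 ≤ D := vectorSpan_mono ℝ hGF
      have h1 := Submodule.finrank_add_inf_finrank_orthogonal hle
      rw [G.2.2.2, hFdim] at h1
      have h2 : ((vectorSpan ℝ G.1)ᗮ ⊓ D) ≠ ⊥ := by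
        intro h; rw [h, finrank_bot] at h1; omega
      obtain ⟨v, hv, hv0⟩ := (Submodule.ne_bot_iff _).1 h2
      have hvD : v ∈ D := hv.2
      have hvorth : ∀ x ∈ vectorSpan ℝ G.1, inner ℝ v x = (0 : ℝ) :=
        (Submodule.mem_orthogonal' _ v).1 hv.1
      refine ⟨v, hvD, fun _ => ⟨hv0, hvorth, ?_⟩, fun h => absurd hGF h⟩
      have h3 := Submodule.finrank_add_inf_finrank_orthogonal
        (show Submodule.span ℝ {v} ≤ D from (Submodule.span_singleton_le_iff_mem _ _).2 hvD)
      rw [finrank_span_singleton hv0, hFdim] at h3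
      have h4 : vectorSpan ℝ G.1 = (Submodule.span ℝ {v})ᗮ ⊓ D := by
        apply Submodule.eq_of_le_of_finrank_eq
        · intro x hx
          refine ⟨?_, hle hx⟩
          change x ∈ (Submodule.span ℝ {v})ᗮ
          rw [Submodule.mem_orthogonal_singleton_iff_inner_right]
          exact hvorth x hx
        · rw [G.2.2.2]; omega
      intro x hxD hx
      rw [h4]
      refine ⟨?_, hxD⟩
      change x ∈ (Submodule.span ℝ {v})ᗮ
      rw [Submodule.mem_orthogonal_singleton_iff_inner_right]
      exact hx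
    · exact ⟨0, D.zero_mem, fun h => absurd h hGF, fun _ => rfl⟩
  choose ν hνD hν1 hν0 using hν
  obtain ⟨u, hu, huD, hineq⟩ := exists_onb (fun G : FaceT S m => μH[(m : ℝ)] G.1) (m + 1) D hFdim ν hνD
  -- Loomis-Whitney
  set K := coord u '' F with hK
  have hKc : IsCompact K := hFc.image (coord u).continuous
  have hLW := loomis_whitney m K hKc ⟨coord u p0, p0, hp0, rfl⟩
  have hdrop : ∀ j : Fin (m + 1), dropC j '' K = coord (fun i : Fin m => u (j.succAbove i)) '' F := by
    intro j
    rw [hK, Set.image_image]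
    rfl
  simp only [hdrop] at hLW
  -- projections of facets
  have hproj : ∀ j : Fin (m + 1), volume (coord (fun i : Fin m => u (j.succAbove i)) '' F) ≤
      ∑ G ∈ Finset.univ.filter (fun G : FaceT S m => inner ℝ (ν G) (u j) ≠ (0 : ℝ)), μH[(m : ℝ)] G.1 := by
    intro j
    set ρ := coord (fun i : Fin m => u (j.succAbove i)) with hρ
    set A : Set (Fin m → ℝ) := ⋃ G ∈ Finset.univ.filter (fun G : FaceT S m => inner ℝ (ν G) (u j) ≠ (0 : ℝ)), ρ '' G.1 with hA
    set N : Set (Fin m → ℝ) := ⋃ G ∈ {G : Set E | IsExposed ℝ (convexHull ℝ (S : Set E)) G ∧ volume (ρ '' G) = 0}, ρ '' G with hN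
    have hN0 : volume N = 0 := by
      rw [hN, measure_biUnion_null_iff]
      · intro G hG; exact hG.2
      · exact ((finite_faces S).subset (fun G hG => hG.1)).countable
    have hsub : ρ '' F ⊆ A ∪ N := by
      rintro _ ⟨x, hx, rfl⟩
      obtain ⟨x', hx', hxx', G, hG, hx'G, hGdim⟩ := exit_face hu F hFc hFconv huD hFdim j x hx
      have hρx : ρ x = ρ x' := by
        funext i
        exact (hxx' (j.succAbove i) (Fin.succAbove_ne j i)).symm
      have hGP : IsExposed ℝ (convexHull ℝ (S : Set E)) G := exposed_trans S F G hF hG ⟨x', hx'G⟩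
      rw [hρx]
      by_cases h : finrank ℝ (vectorSpan ℝ G) < m ∨ u j ∈ vectorSpan ℝ G
      · right
        rw [hN, Set.mem_iUnion₂]
        exact ⟨G, ⟨hGP, null_image hu G j (by omega) h⟩, x', hx'G, rfl⟩
      · push Not at h
        left
        rw [hA, Set.mem_iUnion₂]
        let G' : FaceT S m := ⟨G, hGP, ⟨x', hx'G⟩, by omega⟩
        refine ⟨G', ?_, x', hx'G, rfl⟩
        rw [Finset.mem_filter]
        refine ⟨Finset.mem_univ _, ?_⟩
        intro h0
        exact h.2 ((hν1 G' hG.subset).2.2 (u j) (huD j) h0)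
    calc volume (ρ '' F) ≤ volume (A ∪ N) := measure_mono hsub
      _ ≤ volume A + volume N := measure_union_le _ _
      _ = volume A := by rw [hN0, add_zero]
      _ ≤ ∑ G ∈ Finset.univ.filter (fun G : FaceT S m => inner ℝ (ν G) (u j) ≠ (0 : ℝ)), volume (ρ '' G.1) :=
          measure_biUnion_finset_le _ _
      _ ≤ _ := by
          apply Finset.sum_le_sum
          intro G _
          have h1 : (volume : Measure (Fin m → ℝ)) = μH[(m : ℝ)] := by
            have := hausdorffMeasure_pi_real (ι := Fin m)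
            rw [Fintype.card_fin] at this
            exact this.symm
          rw [h1]
          have h2 := (lipschitz_coord (u := fun i : Fin m => u (j.succAbove i))
            (fun i => hu.1 _)).hausdorffMeasure_image_le (d := (m : ℝ)) (by positivity) G.1
          simpa using h2
  -- measure of F versus volume of K
  have hFK : μH[((m + 1 : ℕ) : ℝ)] F ≤ (((m + 1 : ℕ) : ENNReal) ^ (m + 1)) * volume K := by
    set g : (Fin (m + 1) → ℝ) → E := fun y => p0 + ∑ j, (y j - (inner ℝ (u j) p0 : ℝ)) • u j with hg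
    have hgl : LipschitzWith ((m + 1 : ℕ) : NNReal) g := by
      apply LipschitzWith.of_dist_le_mul
      intro y y'
      rw [dist_eq_norm, dist_eq_norm]
      have h1 : g y - g y' = ∑ j, (y j - y' j) • u j := by
        simp only [hg]
        rw [add_sub_add_left_eq_sub, ← Finset.sum_sub_distrib]
        apply Finset.sum_congr rfl
        intro j _
        rw [← sub_smul]; congr 1; ring
      rw [h1]
      calc ‖∑ j, (y j - y' j) • u j‖ ≤ ∑ j : Fin (m + 1), ‖(y j - y' j) • u j‖ := norm_sum_le _ _
        _ ≤ ∑ j : Fin (m + 1), ‖y - y'‖ := by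
            apply Finset.sum_le_sum
            intro j _
            rw [norm_smul, hu.1 j, mul_one]
            exact norm_le_pi_norm (y - y') j
        _ = (((m + 1 : ℕ) : NNReal) : ℝ) * ‖y - y'‖ := by simp
    have h2 : F = g '' K := by
      rw [hK, Set.image_image]
      have h3 : ∀ x ∈ F, g (coord u x) = x := by
        intro x hx
        have h4 := expand hu huD hFdim (vsub_mem_vectorSpan ℝ hx hp0)
        simp only [vsub_eq_sub] at h4
        simp only [hg, coord_apply]
        have h5 : ∀ j, (inner ℝ (u j) x : ℝ) - inner ℝ (u j) p0 = inner ℝ (u j) (x - p0) := by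
          intro j; rw [inner_sub_right]
        simp only [h5]
        rw [← h4]; abel
      ext x
      constructor
      · intro hx; exact ⟨x, hx, h3 x hx⟩
      · rintro ⟨x', hx', rfl⟩
        change g (coord u x') ∈ F
        rw [h3 x' hx']; exact hx'
    have h1 : (volume : Measure (Fin (m + 1) → ℝ)) = μH[((m + 1 : ℕ) : ℝ)] := by
      have := hausdorffMeasure_pi_real (ι := Fin (m + 1))
      rw [Fintype.card_fin] at this
      exact this.symm
    rw [h1]
    have h6 := hgl.hausdorffMeasure_image_le (d := ((m + 1 : ℕ) : ℝ)) (by positivity) K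
    rw [← h2] at h6
    refine h6.trans (le_of_eq ?_)
    congr 1
    rw [ENNReal.rpow_natCast]
    simp
  calc (μH[((m + 1 : ℕ) : ℝ)] F) ^ m ≤ ((((m + 1 : ℕ) : ENNReal) ^ (m + 1)) * volume K) ^ m := by
        gcongr
    _ = ((((m + 1 : ℕ) : ENNReal) ^ (m + 1)) ^ m) * volume K ^ m := by rw [mul_pow]
    _ ≤ ((((m + 1 : ℕ) : ENNReal) ^ (m + 1)) ^ m) * ∏ j : Fin (m + 1),
          ∑ G ∈ Finset.univ.filter (fun G : FaceT S m => inner ℝ (ν G) (u j) ≠ (0 : ℝ)), μH[(m : ℝ)] G.1 := by
        gcongr
        exact hLW.trans (Finset.prod_le_prod' (fun j _ => hproj j))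
    _ ≤ _ := by
        gcongr
        refine hineq.trans (Finset.sum_le_sum_of_subset ?_)
        intro σ hσ
        rw [Finset.mem_filter] at hσ ⊢
        have hsub : ∀ j, (σ j).1 ⊆ F := by
          intro j
          by_contra h
          exact hσ.2.ne_zero j (hν0 (σ j) h)
        refine ⟨hσ.1, hsub, ?_⟩
        have hinj : Function.Injective ((LinearMap.snd ℝ E ℝ).domRestrict (⨅ j, hat (σ j).1 : Submodule ℝ (E × ℝ))) := by
          rw [← LinearMap.ker_eq_bot, Submodule.eq_bot_iff]
          rintro ⟨⟨x, t⟩, hxt⟩ h0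
          have ht : t = 0 := h0
          subst ht
          rw [Submodule.mem_iInf] at hxt
          have hxG : ∀ j, x ∈ vectorSpan ℝ (σ j).1 := by
            intro j
            obtain ⟨q, hq⟩ := (σ j).2.2.1
            have := (mem_hat hq _).1 (hxt j)
            simpa using this
          have hxD : x ∈ D := vectorSpan_mono ℝ (hsub 0) (hxG 0)
          have hspan : Submodule.span ℝ (Set.range (fun j => ν (σ j))) = D := by
            apply Submodule.eq_of_le_of_finrank_eq
            · rw [Submodule.span_le]; rintro _ ⟨j, rfl⟩; exact hνD _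
            · rw [finrank_span_eq_card hσ.2, hFdim, Fintype.card_fin]
          have hx0 : x = 0 := by
            have h1 : ∀ y ∈ D, inner ℝ y x = (0 : ℝ) := by
              intro y hy
              rw [← hspan] at hy
              induction hy using Submodule.span_induction with
              | mem y hy =>
                obtain ⟨j, rfl⟩ := hy
                exact (hν1 (σ j) (hsub j)).2.1 x (hxG j)
              | zero => exact inner_zero_left _
              | add y z _ _ hy hz => rw [inner_add_left, hy, hz, add_zero]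
              | smul c y _ hy => rw [inner_smul_left, hy, mul_zero]
            exact inner_self_eq_zero.1 (h1 x hxD)
          subst hx0
          rfl
        have := LinearMap.finrank_le_finrank_of_injective hinj
        rw [finrank_self] at this
        exact this

end Pool.Agent.H52.Poly
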