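import Mathlib

open MvPolynomial Finset

namespace Pool.Agent.H52.Joints

variable {n : ℕ}

/-- substitution of affine forms: the variable `X i` goes to `p i + ∑ j, e j i X j` -/
noncomputable def frame (p : Fin n → ℝ) (e : Fin n → Fin n → ℝ) :
    MvPolynomial (Fin n) ℝ →ₐ[ℝ] MvPolynomial (Fin n) ℝ :=
  aeval (fun i => C (p i) + ∑ j, C (e j i) * X j)

/-- translation -/
noncomputable def shift (p : Fin n → ℝ) :
    MvPolynomial (Fin n) ℝ →ₐ[ℝ] MvPolynomial (Fin n) ℝ :=
  aeval (fun i => C (p i) + X i)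

/-- linear substitution -/
noncomputable def lin (e : Fin n → Fin n → ℝ) :
    MvPolynomial (Fin n) ℝ →ₐ[ℝ] MvPolynomial (Fin n) ℝ :=
  aeval (fun i => ∑ j, C (e j i) * X j)

lemma lin_shift (p : Fin n → ℝ) (e : Fin n → Fin n → ℝ) (g : MvPolynomial (Fin n) ℝ) :
    lin e (shift p g) = frame p e g := by
  have : (lin e).comp (shift p) = frame p e := by
    apply MvPolynomial.algHom_ext
    intro i
    simp [lin, shift, frame, MvPolynomial.algebraMap_eq]
  rw [← this]; rfl

lemma shift_frame (p q : Fin n → ℝ) (e : Fin n → Fin n → ℝ) (g : MvPolynomial (Fin n) ℝ) :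
    shift q (frame p e g) = frame (fun i => p i + ∑ j, q j * e j i) e g := by
  have : (shift q).comp (frame p e) = frame (fun i => p i + ∑ j, q j * e j i) e := by
    apply MvPolynomial.algHom_ext
    intro i
    simp only [AlgHom.comp_apply, frame, shift, aeval_X, map_add, map_sum, map_mul]
    simp only [← MvPolynomial.algebraMap_eq, AlgHom.commutes]
    simp only [MvPolynomial.algebraMap_eq, mul_add, Finset.sum_add_distrib, aeval_X]
    have : ∀ j, (C (e j i) : MvPolynomial (Fin n) ℝ) * C (q j) = C (q j) * C (e j i) := fun j => mul_comm _ _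
    simp only [this]
    ring
  rw [← this]; rfl

lemma lin_mem_pow (e : Fin n → Fin n → ℝ) (k : ℕ) {g : MvPolynomial (Fin n) ℝ}
    (hg : g ∈ (idealOfVars (Fin n) ℝ) ^ k) : lin e g ∈ (idealOfVars (Fin n) ℝ) ^ k := by
  have h1 : Ideal.map (lin e) (idealOfVars (Fin n) ℝ) ≤ idealOfVars (Fin n) ℝ := by
    rw [idealOfVars, Ideal.map_span, Ideal.span_le]
    rintro _ ⟨_, ⟨i, rfl⟩, rfl⟩
    simp only [lin, aeval_X, SetLike.mem_coe]
    apply Ideal.sum_mem
    intro j _
    exact Ideal.mul_mem_left _ _ (Ideal.subset_span ⟨j, rfl⟩)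
  have h2 : lin e g ∈ Ideal.map (lin e) ((idealOfVars (Fin n) ℝ) ^ k) := Ideal.mem_map_of_mem _ hg
  rw [Ideal.map_pow] at h2
  exact Ideal.pow_right_mono h1 k h2

lemma lin_lin (e e' : Fin n → Fin n → ℝ) (h : ∀ i k, ∑ j, e j i * e' k j = if i = k then 1 else 0)
    (g : MvPolynomial (Fin n) ℝ) : lin e' (lin e g) = g := by
  have : (lin e').comp (lin e) = AlgHom.id ℝ _ := by
    apply MvPolynomial.algHom_ext
    intro i
    simp only [AlgHom.comp_apply, lin, aeval_X, map_sum, map_mul, AlgHom.id_apply]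
    simp only [← MvPolynomial.algebraMap_eq, AlgHom.commutes]
    simp only [MvPolynomial.algebraMap_eq, Finset.mul_sum]
    rw [Finset.sum_comm]
    have : ∀ k, ∑ j, (C (e j i) : MvPolynomial (Fin n) ℝ) * (C (e' k j) * X k)
        = C (if i = k then 1 else 0) * X k := by
      intro k
      rw [← h i k, map_sum, Finset.sum_mul]
      apply Finset.sum_congr rfl
      intro j _
      rw [map_mul]; ring
    simp only [this]
    simp
  rw [← AlgHom.comp_apply, this]; rfl

/-- total degree of a substitution by affine forms -/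
lemma frame_totalDegree_le (p : Fin n → ℝ) (e : Fin n → Fin n → ℝ) (g : MvPolynomial (Fin n) ℝ) :
    (frame p e g).totalDegree ≤ g.totalDegree := by
  classical
  have hlin : ∀ i, (C (p i) + ∑ j, C (e j i) * X j : MvPolynomial (Fin n) ℝ).totalDegree ≤ 1 := by
    intro i
    refine (totalDegree_add _ _).trans ?_
    simp only [totalDegree_C]
    refine max_le (by norm_num) ?_
    refine totalDegree_finsetSum_le ?_
    intro j _
    refine (totalDegree_mul _ _).trans ?_
    rw [totalDegree_C, zero_add]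
    exact (totalDegree_X _).le
  rw [frame, aeval_def, eval₂_eq]
  refine totalDegree_finsetSum_le ?_
  intro m hm
  refine (totalDegree_mul _ _).trans ?_
  rw [MvPolynomial.algebraMap_eq, totalDegree_C, zero_add]
  refine (totalDegree_finset_prod _ _).trans ?_
  refine le_trans ?_ (le_totalDegree hm)
  rw [Finsupp.sum]
  apply Finset.sum_le_sum
  intro i _
  refine (totalDegree_pow _ _).trans ?_
  calc m i * _ ≤ m i * 1 := Nat.mul_le_mul_left _ (hlin i)
    _ = m i := mul_one _

end Pool.Agent.H52.Joints
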