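import Mathlib
import Pool.Agent.H52.JointsA

open MvPolynomial Finset

namespace Pool.Agent.H52.Joints

variable {n : ℕ}

/-- extraction of the terms whose exponents outside `j` agree with those of `β` -/
noncomputable def ext (j : Fin n) (β : Fin n →₀ ℕ) : MvPolynomial (Fin n) ℝ →ₗ[ℝ] Polynomial ℝ :=
  (basisMonomials (Fin n) ℝ).constr ℝ
    (fun m => if m.erase j = β.erase j then Polynomial.X ^ (m j) else 0)

lemma ext_monomial (j : Fin n) (β m : Fin n →₀ ℕ) :
    ext j β (monomial m 1) = if m.erase j = β.erase j then Polynomial.X ^ (m j) else 0 := by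
  have := (basisMonomials (Fin n) ℝ).constr_basis ℝ
    (fun m : Fin n →₀ ℕ => if m.erase j = β.erase j then (Polynomial.X : Polynomial ℝ) ^ (m j) else 0) m
  rw [coe_basisMonomials] at this
  exact this

lemma eq_update_iff (j : Fin n) (β m : Fin n →₀ ℕ) (k : ℕ) :
    m = β.update j k ↔ (m.erase j = β.erase j ∧ m j = k) := by
  classical
  constructor
  · rintro rfl
    constructor
    · ext i
      by_cases hi : i = j
      · subst hi; simp
      · simp [Finsupp.erase_ne hi]
    · simp
  · rintro ⟨h1, h2⟩
    ext i
    by_cases hi : i = j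
    · subst hi; simp [h2]
    · have := DFunLike.congr_fun h1 i
      rw [Finsupp.erase_ne hi, Finsupp.erase_ne hi] at this
      simp [Finsupp.update_apply, hi, this]

lemma ext_coeff (j : Fin n) (β : Fin n →₀ ℕ) (G : MvPolynomial (Fin n) ℝ) (k : ℕ) :
    (ext j β G).coeff k = coeff (β.update j k) G := by
  classical
  have : (Polynomial.lcoeff ℝ k) ∘ₗ (ext j β) = MvPolynomial.lcoeff ℝ (β.update j k) := by
    apply (basisMonomials (Fin n) ℝ).ext
    intro m
    rw [coe_basisMonomials]
    simp only [LinearMap.comp_apply, ext_monomial, Polynomial.lcoeff_apply,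
      MvPolynomial.lcoeff_apply, coeff_monomial]
    by_cases h : m.erase j = β.erase j
    · rw [if_pos h, Polynomial.coeff_X_pow]
      by_cases h2 : m j = k
      · rw [if_pos h2.symm, if_pos ((eq_update_iff j β m k).2 ⟨h, h2⟩)]
      · rw [if_neg (fun h3 => h2 h3.symm), if_neg (fun h3 => h2 ((eq_update_iff j β m k).1 h3).2)]
    · rw [if_neg h, if_neg (fun h3 => h ((eq_update_iff j β m k).1 h3).1), Polynomial.coeff_zero]
  have h2 := LinearMap.congr_fun this G
  simpa using h2

lemma ext_X_mul (j : Fin n) (β : Fin n →₀ ℕ) (G : MvPolynomial (Fin n) ℝ) :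
    ext j β (X j * G) = Polynomial.X * ext j β G := by
  classical
  have : (ext j β) ∘ₗ (LinearMap.mulLeft ℝ (X j)) =
      (LinearMap.mulLeft ℝ Polynomial.X) ∘ₗ (ext j β) := by
    apply (basisMonomials (Fin n) ℝ).ext
    intro m
    rw [coe_basisMonomials]
    simp only [LinearMap.comp_apply, LinearMap.mulLeft_apply]
    have h1 : (X j * monomial m 1 : MvPolynomial (Fin n) ℝ) = monomial (Finsupp.single j 1 + m) 1 := by
      rw [X, monomial_mul, one_mul]
    rw [h1, ext_monomial, ext_monomial]
    have h2 : (Finsupp.single j 1 + m).erase j = m.erase j := by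
      rw [Finsupp.erase_add, Finsupp.erase_single, zero_add]
    have h3 : ((Finsupp.single j 1 + m : Fin n →₀ ℕ)) j = m j + 1 := by
      rw [Finsupp.add_apply, Finsupp.single_eq_same, add_comm]
    rw [h2, h3]
    by_cases h : m.erase j = β.erase j
    · rw [if_pos h, if_pos h, pow_succ, mul_comm]
    · rw [if_neg h, if_neg h, mul_zero]
  have h2 := LinearMap.congr_fun this G
  simpa using h2

lemma ext_pow_mul (j : Fin n) (β : Fin n →₀ ℕ) (s : ℝ) (a : ℕ) (G : MvPolynomial (Fin n) ℝ) :
    ext j β ((C s + X j) ^ a * G) = (Polynomial.X + Polynomial.C s) ^ a * ext j β G := by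
  induction a generalizing G with
  | zero => simp
  | succ a ih =>
    rw [pow_succ, mul_assoc, ih, pow_succ, mul_assoc]
    congr 1
    rw [add_mul, map_add, ext_X_mul, add_mul, add_comm]
    congr 1
    rw [← MvPolynomial.smul_eq_C_mul, map_smul, Polynomial.smul_eq_C_mul]

lemma shift_monomial (j : Fin n) (s : ℝ) (m : Fin n →₀ ℕ) :
    shift (Pi.single j s) (monomial m 1) = (C s + X j) ^ (m j) * monomial (m.erase j) 1 := by
  classical
  rw [shift, aeval_monomial, map_one, one_mul]
  rw [← Finsupp.mul_prod_erase' m j _ (by intro i; exact pow_zero _)]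
  rw [Pi.single_eq_same]
  congr 1
  rw [monomial_eq, C_1, one_mul]
  apply Finsupp.prod_congr
  intro i hi
  have hij : i ≠ j := by
    rintro rfl
    simp at hi
  rw [Pi.single_eq_of_ne hij, C_0, zero_add]

lemma ext_shift (j : Fin n) (β : Fin n →₀ ℕ) (s : ℝ) (G : MvPolynomial (Fin n) ℝ) :
    ext j β (shift (Pi.single j s) G) = (ext j β G).comp (Polynomial.X + Polynomial.C s) := by
  classical
  have : (ext j β) ∘ₗ (shift (Pi.single j s)).toLinearMap =
      (Polynomial.taylor s) ∘ₗ (ext j β) := by
    apply (basisMonomials (Fin n) ℝ).ext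
    intro m
    rw [coe_basisMonomials]
    simp only [LinearMap.comp_apply, AlgHom.toLinearMap_apply, Polynomial.taylor_apply]
    rw [shift_monomial, ext_pow_mul, ext_monomial, ext_monomial]
    have h1 : (m.erase j).erase j = m.erase j := Finsupp.erase_idem _ _
    have h2 : (m.erase j) j = 0 := by simp
    rw [h1, h2]
    by_cases h : m.erase j = β.erase j
    · rw [if_pos h, if_pos h, pow_zero, mul_one, Polynomial.X_pow_comp]
    · rw [if_neg h, if_neg h, mul_zero, Polynomial.zero_comp]
  have h2 := LinearMap.congr_fun this G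
  simpa [Polynomial.taylor_apply] using h2

lemma degree_update (j : Fin n) (β : Fin n →₀ ℕ) (k : ℕ) :
    (β.update j k).degree = (β.degree - β j) + k := by
  classical
  have h1 : β.degree = β j + (β.erase j).degree := by
    conv_lhs => rw [← Finsupp.single_add_erase j β]
    rw [map_add, Finsupp.degree_single]
  have h2 : (β.update j k).degree = k + (β.erase j).degree := by
    conv_lhs => rw [← Finsupp.single_add_erase j (β.update j k)]
    rw [map_add, Finsupp.degree_single]
    have h3 := (eq_update_iff j β (β.update j k) k).1 rfl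
    rw [h3.1, h3.2]
  omega

/-- The key estimate: if `G` has degree at most `D` and vanishes to order `v y` at the points
`s y` of the `j`-th axis, and the coefficient of `β` is nonzero, then ... -/
lemma key {ι : Type*} (Y : Finset ι) (s : ι → ℝ) (hs : Set.InjOn s Y) (v : ι → ℕ) (j : Fin n) (D : ℕ)
    (G : MvPolynomial (Fin n) ℝ) (hG : G.totalDegree ≤ D)
    (hv : ∀ y ∈ Y, shift (Pi.single j (s y)) G ∈ (idealOfVars (Fin n) ℝ) ^ (v y))
    (β : Fin n →₀ ℕ) (hβ : coeff β G ≠ 0) :
    (∑ y ∈ Y, (v y - (β.degree - β j))) + (β.degree - β j) ≤ D := by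
  classical
  set E := ext j β G with hE
  have hupd : β.update j (β j) = β := Finsupp.update_self _ _
  have hE0 : E ≠ 0 := by
    intro h
    apply hβ
    have := ext_coeff j β G (β j)
    rw [← hE, h, Polynomial.coeff_zero, hupd] at this
    exact this.symm
  -- degree bound
  have hdeg : E.natDegree + (β.degree - β j) ≤ D := by
    have h1 : E.coeff E.natDegree ≠ 0 := by
      have := Polynomial.leadingCoeff_ne_zero.mpr hE0
      exact this
    rw [hE, ext_coeff, ← hE] at h1
    have h2 : β.update j E.natDegree ∈ G.support := by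
      rw [mem_support_iff]; exact h1
    have h3 := le_totalDegree h2
    have h4 : ((β.update j E.natDegree).sum fun _ e => e) = (β.update j E.natDegree).degree := rfl
    rw [h4, degree_update] at h3
    omega
  have hdvd : ∀ y ∈ Y, (Polynomial.X - Polynomial.C (s y)) ^ (v y - (β.degree - β j)) ∣ E := by
    intro y hy
    rw [Polynomial.X_sub_C_pow_dvd_iff, ← ext_shift, Polynomial.X_pow_dvd_iff]
    intro d hd
    rw [ext_coeff]
    refine (mem_pow_idealOfVars_iff' _ _).1 (hv y hy) _ ?_
    rw [degree_update]
    omega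
  have hprod : (∏ y ∈ Y, (Polynomial.X - Polynomial.C (s y)) ^ (v y - (β.degree - β j))) ∣ E := by
    apply Finset.prod_dvd_of_coprime
    · intro a ha b hb hab
      apply IsCoprime.pow
      apply Polynomial.isCoprime_X_sub_C_of_isUnit_sub
      rw [isUnit_iff_ne_zero, sub_ne_zero]
      intro h
      exact hab (hs ha hb h)
    · exact hdvd
  have h5 := Polynomial.natDegree_le_of_dvd hprod hE0
  rw [Polynomial.natDegree_prod_of_monic _ _ (fun y _ => (Polynomial.monic_X_sub_C _).pow _)] at h5
  simp only [Polynomial.natDegree_pow, Polynomial.natDegree_X_sub_C, mul_one] at h5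
  omega

end Pool.Agent.H52.Joints
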