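import Mathlib

open Finset

namespace Pool.Agent.H52.Joints

/-- vanishing orders at time `t` with handicaps `α` -/
def vt {J : Type*} (B : ℕ) (α : J → ℕ) (t : ℕ) : J → ℕ := fun y => t + α y - B

/-- existence of good handicaps -/
lemma exists_good {J : Type*} [Fintype J] [DecidableEq J] (f : (J → ℕ) → ℕ) (T D : ℕ)
    (h0 : f 0 = T) (hT : ∀ v : J → ℕ, (∃ a, D < v a) → f v = 0) (m : J → ℝ)
    (hm : ∀ a, 0 ≤ m a) (hsum : ∑ a, m a = T) :
    ∃ (B N : ℕ) (α : J → ℕ), ∀ a, m a ≤
      ∑ t ∈ range N, ((f (vt B α t) : ℝ) - f (vt B (Function.update α a (α a + 1)) t)) := by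
  classical
  set c := Fintype.card J with hc
  set B' := c * (D + 2) with hB'
  set B := B' + 1 with hB
  set N := B + D + 2 with hN
  set Φ : (J → ℕ) → ℝ := fun α => ∑ t ∈ range N, (f (vt B α t) : ℝ) + ∑ a, m a * (α a : ℝ) with hΦ
  -- gap lemma
  have gap : ∀ (α : J → ℕ) (R : Finset J), R.Nonempty → (∀ x, α x ≤ B) → (∀ x ∈ R, 1 ≤ α x) →
      (∀ x ∈ R, ∀ y, y ∉ R → α y + D + 2 ≤ α x) →
      Φ α ≤ Φ (fun x => if x ∈ R then α x - 1 else α x) := by
    intro α R hR hαB hα1 hgap
    set α' : J → ℕ := fun x => if x ∈ R then α x - 1 else α x with hα'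
    obtain ⟨x0, hx0⟩ := hR
    -- the function of time
    set F : ℕ → ℕ := fun t => f (fun x => if x ∈ R then t + α x - B else 0) with hF
    have hf1 : ∀ t, f (vt B α t) = F t := by
      intro t
      by_cases h : ∃ y, y ∉ R ∧ B < t + α y
      · obtain ⟨y, hy, hyt⟩ := h
        have := hgap x0 hx0 y hy
        rw [hT _ ⟨x0, by simp only [vt]; omega⟩, hF]
        simp only
        rw [hT _ ⟨x0, by simp only [hx0, if_true]; omega⟩]
      · push Not at h
        simp only [hF]
        congr 1
        funext x
        by_cases hx : x ∈ R
        · simp [vt, hx]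
        · have := h x hx
          simp only [vt, hx, if_false]; omega
    have hf2 : ∀ t, f (vt B α' t) = if t = 0 then T else F (t - 1) := by
      intro t
      by_cases ht : t = 0
      · rw [if_pos ht, ← h0]
        congr 1
        funext x
        have := hαB x
        simp only [vt, hα', ht, Pi.zero_apply]
        split_ifs <;> omega
      rw [if_neg ht]
      by_cases h : ∃ y, y ∉ R ∧ B < t + α y
      · obtain ⟨y, hy, hyt⟩ := h
        have := hgap x0 hx0 y hy
        rw [hT _ ⟨x0, by simp only [vt, hα', hx0, if_true]; omega⟩, hF]
        simp only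
        rw [hT _ ⟨x0, by simp only [hx0, if_true]; omega⟩]
      · push Not at h
        simp only [hF]
        congr 1
        funext x
        by_cases hx : x ∈ R
        · have := hα1 x hx
          simp only [vt, hα', hx, if_true]; omega
        · have := h x hx
          simp only [vt, hα', hx, if_false]; omega
    have hFN : F (N - 1) = 0 := by
      apply hT
      refine ⟨x0, ?_⟩
      have := hα1 x0 hx0
      simp only [hx0, if_true]; omega
    have hsumF : ∑ t ∈ range N, (f (vt B α' t) : ℝ) = T + ∑ t ∈ range N, (f (vt B α t) : ℝ) := by
      have hNs : N = (B + D + 1) + 1 := by omega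
      rw [hNs, Finset.sum_range_succ', Finset.sum_range_succ (fun t => (f (vt B α t) : ℝ))]
      have h3 : (f (vt B α (B + D + 1)) : ℝ) = 0 := by
        have : B + D + 1 = N - 1 := by omega
        rw [this, hf1, hFN]; simp
      rw [h3, add_zero, add_comm]
      congr 1
      · rw [hf2, if_pos rfl]
      · apply Finset.sum_congr rfl
        intro t _
        rw [hf2, if_neg (Nat.succ_ne_zero t), hf1]
        simp
    have hsumα : ∑ a, m a * (α' a : ℝ) = ∑ a, m a * (α a : ℝ) - ∑ a ∈ R, m a := by
      have hR1 : ∑ a ∈ R, m a = ∑ a, if a ∈ R then m a else 0 := by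
        rw [Finset.sum_ite_mem, Finset.univ_inter]
      rw [eq_sub_iff_add_eq, hR1, ← Finset.sum_add_distrib]
      apply Finset.sum_congr rfl
      intro a _
      by_cases ha : a ∈ R
      · have := hα1 a ha
        simp only [hα', ha, if_true]
        rw [Nat.cast_sub this]; push_cast; ring
      · simp [hα', ha]
    have hRT : ∑ a ∈ R, m a ≤ T := by
      rw [← hsum]
      exact Finset.sum_le_univ_sum_of_nonneg hm
    simp only [hΦ]
    rw [hsumF, hsumα]
    linarith
  -- maximiser over the box
  set box : Finset (J → ℕ) := Fintype.piFinset (fun _ => range (B' + 1)) with hbox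
  have hboxne : box.Nonempty := ⟨0, by simp [hbox]⟩
  obtain ⟨α, hαbox, hαmax⟩ := box.exists_max_image Φ hboxne
  have hα : ∀ x, α x ≤ B' := by
    intro x
    have := Fintype.mem_piFinset.1 hαbox x
    simp at this; omega
  have hkey : ∀ a, Φ (Function.update α a (α a + 1)) ≤ Φ α := by
    intro a
    by_cases ha : α a + 1 ≤ B'
    · apply hαmax
      rw [hbox, Fintype.mem_piFinset]
      intro x
      by_cases hx : x = a
      · subst hx; simp; omega
      · simp only [Function.update_of_ne hx, mem_range]
        have := hα x; omega
    · -- pigeonhole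
      have haB : α a = B' := by have := hα a; omega
      set K : Finset ℕ := ((univ : Finset J).erase a).image (fun y => (α y - 1) / (D + 2)) with hK
      have hKcard : K.card < c := by
        calc K.card ≤ ((univ : Finset J).erase a).card := Finset.card_image_le
          _ < c := by
            rw [Finset.card_erase_of_mem (mem_univ a), Finset.card_univ]
            have : 0 < c := Fintype.card_pos_iff.2 ⟨a⟩
            omega
      obtain ⟨k, hk, hkK⟩ : ∃ k ∈ range c, k ∉ K := by
        by_contra hcon
        push Not at hcon
        have := Finset.card_le_card (show range c ⊆ K from fun k hk => hcon k hk)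
        rw [card_range] at this
        omega
      have hkc : k < c := mem_range.1 hk
      have hkB : (k + 1) * (D + 2) ≤ B' := by
        rw [hB']; exact Nat.mul_le_mul_right _ hkc
      set α1 := Function.update α a (α a + 1) with hα1
      set R : Finset J := univ.filter (fun x => (k + 1) * (D + 2) < α1 x) with hR
      have haR : a ∈ R := by
        simp only [hR, mem_filter, mem_univ, true_and, hα1, Function.update_self]
        omega
      have hnot : ∀ y, y ∉ R → α1 y ≤ k * (D + 2) := by
        intro y hy
        have hya : y ≠ a := fun h => hy (h ▸ haR)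
        simp only [hR, mem_filter, mem_univ, true_and, not_lt] at hy
        by_contra hcon
        push Not at hcon
        apply hkK
        rw [hK, mem_image]
        refine ⟨y, by simp [hya], ?_⟩
        have hy1 : α1 y = α y := by simp [hα1, Function.update_of_ne hya]
        rw [hy1] at hy hcon
        have e1 : (k + 1) * (D + 2) = k * (D + 2) + (D + 2) := by ring
        rw [Nat.div_eq_iff (by omega)]
        constructor
        · omega
        · omega
      have h1 : Φ α1 ≤ Φ (fun x => if x ∈ R then α1 x - 1 else α1 x) := by
        apply gap α1 R ⟨a, haR⟩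
        · intro x
          by_cases hx : x = a
          · subst hx; simp [hα1]; have := hα x; omega
          · simp only [hα1, Function.update_of_ne hx]
            have := hα x; omega
        · intro x hx
          simp only [hR, mem_filter, mem_univ, true_and] at hx
          omega
        · intro x hx y hy
          have h2 := hnot y hy
          simp only [hR, mem_filter, mem_univ, true_and] at hx
          have e1 : (k + 1) * (D + 2) = k * (D + 2) + (D + 2) := by ring
          omega
      refine h1.trans (hαmax _ ?_)
      rw [hbox, Fintype.mem_piFinset]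
      intro x
      simp only [mem_range]
      by_cases hx : x ∈ R
      · simp only [hx, if_true]
        by_cases hxa : x = a
        · subst hxa; simp [hα1]; have := hα x; omega
        · simp only [hα1, Function.update_of_ne hxa]
          have := hα x; omega
      · simp only [hx, if_false]
        have h2 := hnot x hx
        have e1 : (k + 1) * (D + 2) = k * (D + 2) + (D + 2) := by ring
        omega
  refine ⟨B, N, α, ?_⟩
  intro a
  have h1 := hkey a
  simp only [hΦ] at h1
  rw [Finset.sum_sub_distrib]
  have h2 : ∑ x, m x * ((Function.update α a (α a + 1) x : ℕ) : ℝ) = ∑ x, m x * (α x : ℝ) + m a := by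
    rw [← Finset.add_sum_erase _ _ (mem_univ a), ← Finset.add_sum_erase _ (fun x => m x * (α x : ℝ)) (mem_univ a)]
    have h3 : ∑ x ∈ univ.erase a, m x * ((Function.update α a (α a + 1) x : ℕ) : ℝ) = ∑ x ∈ univ.erase a, m x * (α x : ℝ) := by
      apply Finset.sum_congr rfl
      intro x hx
      rw [Function.update_of_ne (Finset.ne_of_mem_erase hx)]
    rw [h3, Function.update_self]
    push_cast; ring
  rw [h2] at h1
  linarith

end Pool.Agent.H52.Joints
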