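import Mathlib
import Pool.Agent.H52.JointsB
import Pool.Agent.H52.JointsC

open MvPolynomial Finset

namespace Pool.Agent.H52.Joints

variable {n : ℕ} {J L : Type*} [Fintype J] [DecidableEq J]

/-- polynomials of degree at most `D` vanishing at `x a` to order `v a` -/
noncomputable def W (x : J → Fin n → ℝ) (D : ℕ) (v : J → ℕ) : Submodule ℝ (MvPolynomial (Fin n) ℝ) :=
  restrictTotalDegree (Fin n) ℝ D ⊓
    ⨅ a, ((((idealOfVars (Fin n) ℝ) ^ (v a)).restrictScalars ℝ).comap (shift (x a)).toLinearMap)

lemma mem_W (x : J → Fin n → ℝ) (D : ℕ) (v : J → ℕ) (g : MvPolynomial (Fin n) ℝ) :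
    g ∈ W x D v ↔ g.totalDegree ≤ D ∧ ∀ a, shift (x a) g ∈ (idealOfVars (Fin n) ℝ) ^ (v a) := by
  simp [W, Submodule.mem_inf, mem_restrictTotalDegree, Submodule.mem_iInf]

instance (x : J → Fin n → ℝ) (D : ℕ) (v : J → ℕ) : FiniteDimensional ℝ (W x D v) :=
  Submodule.finiteDimensional_of_le (inf_le_left)

/-- dimension function -/
noncomputable def fW (x : J → Fin n → ℝ) (D : ℕ) (v : J → ℕ) : ℕ := Module.finrank ℝ (W x D v)

lemma fW_zero (x : J → Fin n → ℝ) (D : ℕ) :
    fW x D 0 = Module.finrank ℝ (restrictTotalDegree (Fin n) ℝ D) := by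
  have : W x D 0 = restrictTotalDegree (Fin n) ℝ D := by
    ext g
    rw [mem_W, mem_restrictTotalDegree]
    simp
  rw [fW, this]

lemma shift_zero_of (p : Fin n → ℝ) (g : MvPolynomial (Fin n) ℝ) (h : shift p g = 0) : g = 0 := by
  have h1 : shift (fun i => - p i) (shift p g) = g := by
    have : (shift (fun i => - p i)).comp (shift p) = AlgHom.id ℝ _ := by
      apply MvPolynomial.algHom_ext
      intro i
      simp only [AlgHom.comp_apply, shift, aeval_X, map_add, AlgHom.id_apply]
      simp only [← MvPolynomial.algebraMap_eq, AlgHom.commutes]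
      rw [← add_assoc, ← map_add]
      simp
    rw [← AlgHom.comp_apply, this]; rfl
  rw [← h1, h, map_zero]

lemma shift_totalDegree_le (p : Fin n → ℝ) (g : MvPolynomial (Fin n) ℝ) :
    (shift p g).totalDegree ≤ g.totalDegree := by
  classical
  have h : shift p g = frame p (fun j => Pi.single j 1) g := by
    have : shift p = frame p (fun j => Pi.single j 1) := by
      apply MvPolynomial.algHom_ext
      intro i
      simp only [shift, frame, aeval_X]
      congr 1
      rw [Finset.sum_eq_single i]
      · simp
      · intro j _ hj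
        rw [Pi.single_eq_of_ne (Ne.symm hj)]; simp
      · simp
    rw [this]
  rw [h]
  exact frame_totalDegree_le _ _ _

lemma fW_eq_zero (x : J → Fin n → ℝ) (D : ℕ) (v : J → ℕ) (h : ∃ a, D < v a) : fW x D v = 0 := by
  obtain ⟨a, ha⟩ := h
  have : W x D v = ⊥ := by
    rw [eq_bot_iff]
    intro g hg
    rw [mem_W] at hg
    rw [Submodule.mem_bot]
    apply shift_zero_of (x a)
    ext m
    rw [coeff_zero]
    by_cases hm : m.degree < v a
    · exact (mem_pow_idealOfVars_iff' _ _).1 (hg.2 a) m hm
    · by_contra hcon
      have h1 : m ∈ (shift (x a) g).support := by rw [mem_support_iff]; exact hcon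
      have h2 := le_totalDegree h1
      have h3 : (m.sum fun _ e => e) = m.degree := rfl
      have h4 := shift_totalDegree_le (x a) g
      have h5 := hg.1
      omega
  rw [fW, this, finrank_bot]

/-- the drop lemma -/
lemma drop (x : J → Fin n → ℝ) (D : ℕ) (v : J → ℕ) (a : J) (e : Fin n → Fin n → ℝ)
    (he : LinearIndependent ℝ e) (Bs : Finset (Fin n →₀ ℕ))
    (hB : ∀ g ∈ W x D v, ∀ β : Fin n →₀ ℕ, β.degree = v a → coeff β (frame (x a) e g) ≠ 0 → β ∈ Bs) :
    fW x D v ≤ fW x D (Function.update v a (v a + 1)) + Bs.card := by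
  classical
  let Λ : W x D v →ₗ[ℝ] (Bs → ℝ) :=
    LinearMap.pi (fun β => (MvPolynomial.lcoeff ℝ (β : Fin n →₀ ℕ)) ∘ₗ
      (frame (x a) e).toLinearMap ∘ₗ (W x D v).subtype)
  have h1 := LinearMap.finrank_range_add_finrank_ker Λ
  have h2 : Module.finrank ℝ (LinearMap.range Λ) ≤ Bs.card := by
    refine (Submodule.finrank_le _).trans ?_
    rw [Module.finrank_fintype_fun_eq_card, Fintype.card_coe]
  -- the matrix of the frame is invertible
  obtain ⟨e', he'⟩ : ∃ e' : Fin n → Fin n → ℝ,
      ∀ i k, ∑ j, e j i * e' k j = if i = k then 1 else 0 := by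
    have hu : IsUnit (Matrix.of e) := by
      rw [← Matrix.linearIndependent_rows_iff_isUnit]
      exact he
    refine ⟨fun k j => ((Matrix.of e)⁻¹) k j, ?_⟩
    intro i k
    have h3 := Matrix.nonsing_inv_mul (Matrix.of e) ((Matrix.isUnit_iff_isUnit_det _).1 hu)
    have h4 := congr_fun (congr_fun h3 k) i
    rw [Matrix.mul_apply] at h4
    simp only [Matrix.of_apply] at h4
    rw [Matrix.one_apply] at h4
    calc ∑ j, e j i * ((Matrix.of e)⁻¹) k j = ∑ j, ((Matrix.of e)⁻¹) k j * e j i := by
          apply Finset.sum_congr rfl; intro j _; ring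
      _ = if k = i then 1 else 0 := h4
      _ = if i = k then 1 else 0 := by simp [eq_comm]
  have h3 : (LinearMap.ker Λ).map (W x D v).subtype ≤ W x D (Function.update v a (v a + 1)) := by
    rintro _ ⟨g, hg, rfl⟩
    have hgW := g.2
    have hgW' := (mem_W x D v g).1 hgW
    rw [mem_W]
    refine ⟨hgW'.1, ?_⟩
    intro b
    by_cases hb : b = a
    · subst hb
      rw [Function.update_self]
      have h5 : frame (x b) e (g : MvPolynomial (Fin n) ℝ) ∈ (idealOfVars (Fin n) ℝ) ^ (v b + 1) := by
        rw [mem_pow_idealOfVars_iff']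
        intro β hβ
        rcases Nat.lt_succ_iff_lt_or_eq.1 hβ with h | h
        · have h6 : frame (x b) e (g : MvPolynomial (Fin n) ℝ) ∈ (idealOfVars (Fin n) ℝ) ^ (v b) := by
            rw [← lin_shift]
            exact lin_mem_pow e _ (hgW'.2 b)
          exact (mem_pow_idealOfVars_iff' _ _).1 h6 β h
        · by_contra hcon
          have h7 := hB g hgW β h hcon
          have h8 : Λ g = 0 := hg
          have h9 := congr_fun h8 ⟨β, h7⟩
          apply hcon
          simpa [Λ] using h9
      have h10 : lin e' (frame (x b) e (g : MvPolynomial (Fin n) ℝ)) = shift (x b) g := by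
        rw [← lin_shift, lin_lin e e' he']
      change shift (x b) (g : MvPolynomial (Fin n) ℝ) ∈ _
      rw [← h10]
      exact lin_mem_pow e' _ h5
    · rw [Function.update_of_ne hb]
      exact hgW'.2 b
  have h4 : Module.finrank ℝ (LinearMap.ker Λ) ≤ fW x D (Function.update v a (v a + 1)) := by
    have h5 : Module.finrank ℝ ((LinearMap.ker Λ).map (W x D v).subtype) = Module.finrank ℝ (LinearMap.ker Λ) :=
      Submodule.finrank_map_subtype_eq _ _
    rw [← h5]
    exact Submodule.finrank_mono h3
  have h5 : Module.finrank ℝ (W x D v) = fW x D v := rfl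
  omega

lemma card_le_T (k : ℕ) :
    (k + 1) ^ n ≤ Module.finrank ℝ (restrictTotalDegree (Fin n) ℝ (n * k)) := by
  classical
  let mon : (Fin n → Fin (k + 1)) → (Fin n →₀ ℕ) :=
    fun c => Finsupp.equivFunOnFinite.symm (fun i => (c i : ℕ))
  have hmon : Function.Injective mon := by
    intro c c' h
    funext i
    have := DFunLike.congr_fun h i
    simp only [mon, Finsupp.equivFunOnFinite_symm_apply_apply] at this
    exact Fin.ext this
  have hmem : ∀ c, (monomial (mon c) (1 : ℝ)) ∈ restrictTotalDegree (Fin n) ℝ (n * k) := by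
    intro c
    rw [mem_restrictTotalDegree]
    refine (totalDegree_monomial_le _ _).trans ?_
    change (mon c).degree ≤ n * k
    rw [Finsupp.degree_eq_sum]
    calc ∑ i, (mon c) i ≤ ∑ _i : Fin n, k := by
          apply Finset.sum_le_sum
          intro i _
          simp only [mon, Finsupp.equivFunOnFinite_symm_apply_apply]
          have := (c i).2
          omega
      _ = n * k := by simp
  let fam : (Fin n → Fin (k + 1)) → restrictTotalDegree (Fin n) ℝ (n * k) :=
    fun c => ⟨monomial (mon c) 1, hmem c⟩
  have hfam : LinearIndependent ℝ fam := by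
    apply LinearIndependent.of_comp (Submodule.subtype _)
    have h1 := ((basisMonomials (Fin n) ℝ).linearIndependent).comp mon hmon
    rw [coe_basisMonomials] at h1
    exact h1
  have h2 := hfam.fintype_card_le_finrank
  simpa using h2

lemma le_degree' (β : Fin n →₀ ℕ) (j : Fin n) : β j ≤ β.degree := by
  rw [Finsupp.degree_eq_sum]
  exact Finset.single_le_sum (fun _ _ => Nat.zero_le _) (mem_univ j)

open Classical in
/-- the discrete main statement -/
theorem discrete (k : ℕ) (x : J → Fin n → ℝ) (hx : Function.Injective x)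
    (e : L → Fin n → ℝ) (I : J → L → Prop)
    (hline : ∀ a b l, I a l → I b l → ∃ c : ℝ, ∀ i, x b i = x a i + c * e l i)
    (μ : J → ℝ) (hμ : ∀ a, 0 ≤ μ a) (hμ1 : ∑ a, μ a = 1) :
    ∃ S : J → L → ℕ,
      (∀ a, ∀ σ : Fin n → L, (∀ j, I a (σ j)) → LinearIndependent ℝ (fun j => e (σ j)) →
        ((k : ℝ) + 1) ^ n * μ a ≤ ∏ j, (S a (σ j) : ℝ)) ∧
      ∀ l, ∑ a ∈ univ.filter (fun a => I a l), S a l ≤ n * k + Fintype.card J := by
  set D := n * k with hD
  set T := Module.finrank ℝ (restrictTotalDegree (Fin n) ℝ D) with hT
  obtain ⟨B, N, α, hα⟩ := exists_good (fW x D) T D (fW_zero x D) (fun v hv => fW_eq_zero x D v hv)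
    (fun a => T * μ a) (fun a => mul_nonneg (Nat.cast_nonneg _) (hμ a))
    (by rw [← Finset.mul_sum, hμ1, mul_one])
  have hτ : ∀ l, ∃ τ : ℤ, (∑ y ∈ univ.filter (fun a => I a l), (τ + α y).toNat ≤ D) ∧
      ∀ τ' : ℤ, (univ.filter (fun a => I a l)).Nonempty →
        (∑ y ∈ univ.filter (fun a => I a l), (τ' + α y).toNat ≤ D) → τ' ≤ τ := by
    intro l
    by_cases hne : (univ.filter (fun a => I a l)).Nonempty
    · obtain ⟨y0, hy0⟩ := hne
      have hbd : ∃ b : ℤ, ∀ z : ℤ, (∑ y ∈ univ.filter (fun a => I a l), (z + α y).toNat ≤ D) → z ≤ b := by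
        refine ⟨D, ?_⟩
        intro z hz
        have h1 : (z + α y0).toNat ≤ D :=
          (Finset.single_le_sum (f := fun y => (z + (α y : ℤ)).toNat) (fun _ _ => Nat.zero_le _) hy0).trans hz
        omega
      have hex : ∃ z : ℤ, (∑ y ∈ univ.filter (fun a => I a l), (z + α y).toNat ≤ D) := by
        refine ⟨- (∑ y, (α y : ℤ)), ?_⟩
        rw [Finset.sum_eq_zero]
        · exact Nat.zero_le _
        · intro y _
          have h1 : (α y : ℤ) ≤ ∑ y, (α y : ℤ) :=
            Finset.single_le_sum (f := fun y => (α y : ℤ)) (fun _ _ => by positivity) (mem_univ y)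
          omega
      obtain ⟨ub, h1, h2⟩ := Int.exists_greatest_of_bdd hbd hex
      exact ⟨ub, h1, fun τ' _ h => h2 τ' h⟩
    · refine ⟨0, ?_, fun τ' h => absurd h hne⟩
      rw [Finset.not_nonempty_iff_eq_empty.1 hne]
      simp
  choose τ hτ1 hτ2 using hτ
  refine ⟨fun a l => (τ l + α a + 1).toNat, ?_, ?_⟩
  · intro a σ hσ hind
    set S : Fin n → ℕ := fun j => (τ (σ j) + α a + 1).toNat with hS
    set Box : Finset (Fin n →₀ ℕ) :=
      (Fintype.piFinset (fun j => range (S j))).map Finsupp.equivFunOnFinite.symm.toEmbedding with hBox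
    have hBoxcard : Box.card = ∏ j, S j := by
      rw [hBox, card_map, Fintype.card_piFinset]; simp
    have hBoxmem : ∀ β : Fin n →₀ ℕ, (∀ j, β j < S j) → β ∈ Box := by
      intro β hβ
      rw [hBox, mem_map]
      refine ⟨fun j => β j, ?_, ?_⟩
      · rw [Fintype.mem_piFinset]; intro j; rw [mem_range]; exact hβ j
      · ext j; simp
    have hdrop : ∀ t ∈ range N, ((fW x D (vt B α t) : ℝ) - fW x D (vt B (Function.update α a (α a + 1)) t))
        ≤ ((Box.filter (fun β => β.degree = t + α a - B ∧ B ≤ t + α a)).card : ℝ) := by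
      intro t _
      by_cases ht : B ≤ t + α a
      · have hupd : vt B (Function.update α a (α a + 1)) t =
            Function.update (vt B α t) a (vt B α t a + 1) := by
          funext y
          by_cases hy : y = a
          · subst hy; simp only [vt, Function.update_self]; omega
          · simp only [vt, Function.update_of_ne hy]
        rw [hupd]
        have h1 := drop x D (vt B α t) a (fun j => e (σ j)) hind
          (Box.filter (fun β => β.degree = t + α a - B ∧ B ≤ t + α a)) ?_
        · have h2 : (fW x D (vt B α t) : ℝ) ≤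
              fW x D (Function.update (vt B α t) a (vt B α t a + 1)) +
              ((Box.filter (fun β => β.degree = t + α a - B ∧ B ≤ t + α a)).card : ℝ) := by
            exact_mod_cast h1
          linarith
        · intro g hg β hβ hcoef
          rw [mem_filter]
          refine ⟨hBoxmem β ?_, hβ, ht⟩
          intro j
          have hg' := (mem_W x D _ g).1 hg
          -- parameters on the line
          have hs : ∀ b, ∃ c : ℝ, I b (σ j) → ∀ i, x b i = x a i + c * e (σ j) i := by
            intro b
            by_cases hb : I b (σ j)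
            · obtain ⟨c, hc⟩ := hline a b (σ j) (hσ j) hb
              exact ⟨c, fun _ => hc⟩
            · exact ⟨0, fun h => absurd h hb⟩
          choose s hs using hs
          have hkey := key (univ.filter (fun b => I b (σ j))) s ?_ (vt B α t) j D
            (frame (x a) (fun j => e (σ j)) g)
            ((frame_totalDegree_le _ _ _).trans hg'.1) ?_ β hcoef
          · have haY : a ∈ univ.filter (fun b => I b (σ j)) := by simp [hσ j]
            have h3 : ∑ y ∈ univ.filter (fun b => I b (σ j)), (((β j : ℤ) - α a) + α y).toNat ≤ D := by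
              refine le_trans ?_ (le_trans (Nat.le_add_right _ _) hkey)
              apply Finset.sum_le_sum
              intro y _
              have h4 := le_degree' β j
              simp only [vt] at hβ ⊢
              omega
            have h5 := hτ2 (σ j) _ ⟨a, haY⟩ h3
            simp only [hS]
            omega
          · intro b hb b' hb' hbb
            apply hx
            funext i
            have h6 : I b (σ j) := by simpa using hb
            have h7 : I b' (σ j) := by simpa using hb'
            rw [hs b h6 i, hs b' h7 i, hbb]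
          · intro b hb
            have h6 : I b (σ j) := by simpa using hb
            rw [shift_frame]
            have h7 : (fun i => x a i + ∑ k, (Pi.single j (s b) : Fin n → ℝ) k * e (σ k) i) = x b := by
              funext i
              rw [Finset.sum_eq_single j, Pi.single_eq_same, hs b h6 i]
              · intro k _ hk
                rw [Pi.single_eq_of_ne hk, zero_mul]
              · simp
            rw [h7, ← lin_shift]
            exact lin_mem_pow _ _ (hg'.2 b)
      · have hupd : vt B (Function.update α a (α a + 1)) t = vt B α t := by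
          funext y
          by_cases hy : y = a
          · subst hy; simp only [vt, Function.update_self]; omega
          · simp only [vt, Function.update_of_ne hy]
        rw [hupd, sub_self]
        positivity
    have hcount : ∑ t ∈ range N, (Box.filter (fun β => β.degree = t + α a - B ∧ B ≤ t + α a)).card
        ≤ Box.card := by
      have h1 : ∀ t, (Box.filter (fun β => β.degree = t + α a - B ∧ B ≤ t + α a)).card =
          ∑ β ∈ Box, if (β.degree = t + α a - B ∧ B ≤ t + α a) then 1 else 0 := by
        intro t; rw [Finset.card_filter]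
      simp only [h1]
      rw [Finset.sum_comm, Finset.card_eq_sum_ones]
      apply Finset.sum_le_sum
      intro β _
      rw [← Finset.card_filter, Finset.card_le_one]
      intro t ht t' ht'
      simp only [mem_filter] at ht ht'
      omega
    have hfin : (T : ℝ) * μ a ≤ ∏ j, (S j : ℝ) := by
      refine (hα a).trans ((Finset.sum_le_sum hdrop).trans ?_)
      have : ((∑ t ∈ range N, (Box.filter (fun β => β.degree = t + α a - B ∧ B ≤ t + α a)).card : ℕ) : ℝ)
          ≤ (Box.card : ℝ) := by exact_mod_cast hcount
      rw [hBoxcard] at this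
      push_cast at this
      exact this
    refine le_trans ?_ hfin
    apply mul_le_mul_of_nonneg_right _ (hμ a)
    have := card_le_T (n := n) k
    exact_mod_cast this
  · intro l
    calc ∑ a ∈ univ.filter (fun a => I a l), (τ l + α a + 1).toNat
        ≤ ∑ a ∈ univ.filter (fun a => I a l), ((τ l + α a).toNat + 1) := by
          apply Finset.sum_le_sum
          intro a _
          omega
      _ = ∑ a ∈ univ.filter (fun a => I a l), (τ l + α a).toNat + (univ.filter (fun a => I a l)).card := by
          rw [Finset.sum_add_distrib]; simp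
      _ ≤ D + Fintype.card J := by
          apply Nat.add_le_add (hτ1 l)
          exact (Finset.card_le_univ _)

end Pool.Agent.H52.Joints
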