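import Mathlib
import Pool.Agent.H52.JointsD

open Finset

namespace Pool.Agent.H52.Joints

open Classical in
/-- Number (weighted) of independent tuples of lines through `a`. -/
noncomputable def Nw {n : ℕ} {J L : Type*} [Fintype L] (e : L → Fin n → ℝ) (I : J → L → Prop)
    (w : L → ℝ) (a : J) : ℝ :=
  ∑ σ ∈ (univ : Finset (Fin n → L)).filter
    (fun σ => (∀ j, I a (σ j)) ∧ LinearIndependent ℝ (fun j => e (σ j))), ∏ j, w (σ j)

lemma Nw_nonneg {n : ℕ} {J L : Type*} [Fintype L] (e : L → Fin n → ℝ) (I : J → L → Prop)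
    (w : L → ℝ) (hw : ∀ l, 0 ≤ w l) (a : J) : 0 ≤ Nw e I w a := by
  classical
  unfold Nw
  exact Finset.sum_nonneg (fun σ _ => Finset.prod_nonneg (fun j _ => hw _))

open Classical in
/-- **Weighted joints theorem.** -/
theorem joints_weighted {n : ℕ} (hn : 2 ≤ n) {J L : Type*} [Fintype J] [Fintype L]
    (x : J → Fin n → ℝ) (hx : Function.Injective x)
    (e : L → Fin n → ℝ) (I : J → L → Prop)
    (hline : ∀ a b l, I a l → I b l → ∃ c : ℝ, ∀ i, x b i = x a i + c * e l i)
    (w : L → ℝ) (hw : ∀ l, 0 ≤ w l) :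
    ∑ a, (Nw e I w a) ^ ((1 : ℝ) / ((n : ℝ) - 1)) ≤
      ((n : ℝ) * ∑ l, w l) ^ ((n : ℝ) / ((n : ℝ) - 1)) := by
  have hn0 : (0 : ℝ) < n := by positivity
  have hn1 : (0 : ℝ) < (n : ℝ) - 1 := by
    have : (2 : ℝ) ≤ n := by exact_mod_cast hn
    linarith
  set W := ∑ l, w l with hWdef
  have hW0 : 0 ≤ W := Finset.sum_nonneg (fun l _ => hw l)
  have hN0 : ∀ a, 0 ≤ Nw e I w a := Nw_nonneg e I w hw
  set p : ℝ := (1 : ℝ) / ((n : ℝ) - 1) with hp
  set Z := ∑ a, (Nw e I w a) ^ p with hZ
  have hZ0 : 0 ≤ Z := Finset.sum_nonneg (fun a _ => Real.rpow_nonneg (hN0 a) _)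
  rcases eq_or_lt_of_le hZ0 with hZz | hZpos
  · rw [← hZz]; positivity
  set μ : J → ℝ := fun a => (Nw e I w a) ^ p / Z with hμdef
  have hμ0 : ∀ a, 0 ≤ μ a := fun a => div_nonneg (Real.rpow_nonneg (hN0 a) _) hZ0
  have hμ1 : ∑ a, μ a = 1 := by
    rw [hμdef, ← Finset.sum_div]; exact div_self hZpos.ne'
  set Q := ∑ a, (μ a * Nw e I w a) ^ ((1 : ℝ) / n) with hQ
  -- step 1 : the bound for each k
  have step1 : ∀ k : ℕ, ((k : ℝ) + 1) * Q ≤ W * (n * k + Fintype.card J) := by
    intro k
    obtain ⟨S, hS1, hS2⟩ := discrete k x hx e I hline μ hμ0 hμ1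
    have h1 : ∀ a, ((k : ℝ) + 1) * (μ a * Nw e I w a) ^ ((1 : ℝ) / n) ≤
        ∑ l ∈ univ.filter (fun l => I a l), (S a l : ℝ) * w l := by
      intro a
      set A := ∑ l ∈ univ.filter (fun l => I a l), (S a l : ℝ) * w l with hA
      have hA0 : 0 ≤ A := Finset.sum_nonneg (fun l _ => mul_nonneg (Nat.cast_nonneg _) (hw l))
      have h2 : ((k : ℝ) + 1) ^ n * (μ a * Nw e I w a) ≤ A ^ n := by
        have h3 : A ^ n = ∑ σ ∈ Fintype.piFinset (fun _ : Fin n => univ.filter (fun l => I a l)),
            ∏ j, ((S a (σ j) : ℝ) * w (σ j)) := by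
          have h31 := Finset.prod_univ_sum (fun _ : Fin n => univ.filter (fun l => I a l))
            (fun (_ : Fin n) l => (S a l : ℝ) * w l)
          rw [← h31]
          simp [hA]
        rw [h3, Nw, ← mul_assoc, Finset.mul_sum]
        have hsub : (univ : Finset (Fin n → L)).filter
            (fun σ => (∀ j, I a (σ j)) ∧ LinearIndependent ℝ (fun j => e (σ j))) ⊆
            Fintype.piFinset (fun _ : Fin n => univ.filter (fun l => I a l)) := by
          intro σ hσ
          rw [mem_filter] at hσ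
          rw [Fintype.mem_piFinset]
          intro j
          simp [hσ.2.1 j]
        refine le_trans (Finset.sum_le_sum ?_) (Finset.sum_le_sum_of_subset_of_nonneg hsub ?_)
        · intro σ hσ
          rw [mem_filter] at hσ
          rw [Finset.prod_mul_distrib]
          exact mul_le_mul_of_nonneg_right (hS1 a σ hσ.2.1 hσ.2.2)
            (Finset.prod_nonneg (fun j _ => hw _))
        · intro σ _ _
          exact Finset.prod_nonneg (fun j _ => mul_nonneg (Nat.cast_nonneg _) (hw _))
      have hb0 : 0 ≤ μ a * Nw e I w a := mul_nonneg (hμ0 a) (hN0 a)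
      have h4 : (((k : ℝ) + 1) * (μ a * Nw e I w a) ^ ((1 : ℝ) / n)) ^ n ≤ A ^ n := by
        rw [mul_pow]
        have h5 : ((μ a * Nw e I w a) ^ ((1 : ℝ) / n)) ^ n = μ a * Nw e I w a := by
          rw [one_div]
          exact Real.rpow_inv_natCast_pow hb0 (by omega)
        rw [h5]; exact h2
      exact le_of_pow_le_pow_left₀ (by omega) hA0 h4
    calc ((k : ℝ) + 1) * Q = ∑ a, ((k : ℝ) + 1) * (μ a * Nw e I w a) ^ ((1 : ℝ) / n) := by
          rw [hQ, Finset.mul_sum]
      _ ≤ ∑ a, ∑ l ∈ univ.filter (fun l => I a l), (S a l : ℝ) * w l :=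
          Finset.sum_le_sum (fun a _ => h1 a)
      _ = ∑ l, w l * ((∑ a ∈ univ.filter (fun a => I a l), S a l : ℕ) : ℝ) := by
          simp only [Finset.sum_filter]
          rw [Finset.sum_comm]
          apply Finset.sum_congr rfl
          intro l _
          push_cast
          rw [Finset.mul_sum]
          apply Finset.sum_congr rfl
          intro a _
          split_ifs
          · ring
          · simp
      _ ≤ ∑ l, w l * ((n : ℝ) * k + Fintype.card J) := by
          apply Finset.sum_le_sum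
          intro l _
          apply mul_le_mul_of_nonneg_left _ (hw l)
          exact_mod_cast hS2 l
      _ = W * (n * k + Fintype.card J) := by rw [← Finset.sum_mul]
  -- step 2 : limit
  have step2 : Q ≤ n * W := by
    by_contra hcon
    push Not at hcon
    obtain ⟨k, hk⟩ := exists_nat_gt ((W * Fintype.card J) / (Q - n * W))
    rw [div_lt_iff₀ (by linarith)] at hk
    have h1 := step1 k
    have hQ0 : 0 ≤ Q := by
      apply Finset.sum_nonneg
      intro a _
      exact Real.rpow_nonneg (mul_nonneg (hμ0 a) (hN0 a)) _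
    nlinarith
  -- step 3 : compute Q
  have hQeq : Q = Z ^ (1 - (1 : ℝ) / n) := by
    have h1 : ∀ a, (μ a * Nw e I w a) ^ ((1 : ℝ) / n) = (Nw e I w a) ^ p * Z ^ (-((1 : ℝ) / n)) := by
      intro a
      rcases eq_or_lt_of_le (hN0 a) with h | h
      · rw [← h]
        rw [mul_zero, Real.zero_rpow (by positivity), Real.zero_rpow (by positivity), zero_mul]
      · rw [hμdef]
        simp only
        have h2 : (Nw e I w a) ^ p / Z * Nw e I w a = (Nw e I w a) ^ (p + 1) * Z⁻¹ := by
          rw [Real.rpow_add h, Real.rpow_one]; field_simp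
        rw [h2, Real.mul_rpow (by positivity) (by positivity), ← Real.rpow_mul h.le,
          Real.inv_rpow hZ0, ← Real.rpow_neg hZ0]
        congr 2
        rw [hp]; field_simp; ring
    rw [hQ]
    simp only [h1]
    rw [← Finset.sum_mul, ← hZ, sub_eq_add_neg, Real.rpow_add hZpos, Real.rpow_one]
  rw [hQeq] at step2
  have h5 : Z = (Z ^ (1 - (1 : ℝ) / n)) ^ ((n : ℝ) / ((n : ℝ) - 1)) := by
    rw [← Real.rpow_mul hZ0]
    have : (1 - (1 : ℝ) / n) * ((n : ℝ) / ((n : ℝ) - 1)) = 1 := by
      field_simp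
    rw [this, Real.rpow_one]
  rw [h5]
  exact Real.rpow_le_rpow (Real.rpow_nonneg hZ0 _) step2 (by positivity)

end Pool.Agent.H52.Joints
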