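import Mathlib
import Pool.Agent.H52.JointsE

open Finset Module

namespace Pool.Agent.H52.Joints

/-- generic linear map to `ℝ^m`, injective on finitely many subspaces of dimension at most `m` -/
lemma exists_generic (m : ℕ) : ∀ {U : Type*} [AddCommGroup U] [Module ℝ U] [FiniteDimensional ℝ U]
    {ι : Type*} [Finite ι] (K : ι → Submodule ℝ U), (∀ i, finrank ℝ (K i) ≤ m) →
    ∃ T : U →ₗ[ℝ] (Fin m → ℝ), ∀ i, ∀ v ∈ K i, T v = 0 → v = 0 := by
  induction m with
  | zero =>
    intro U _ _ _ ι _ K hK
    refine ⟨0, fun i v hv _ => ?_⟩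
    have h1 : K i = ⊥ := by
      rw [← Submodule.finrank_eq_zero (R := ℝ)]
      have := hK i
      omega
    rw [h1] at hv
    simpa using hv
  | succ m ih =>
    intro U _ _ _ ι _ K hK
    classical
    -- nonzero vectors
    have h1 : ∀ i : {i // K i ≠ ⊥}, ∃ v ∈ K i.1, v ≠ 0 := fun i => (Submodule.ne_bot_iff _).1 i.2
    choose v hv hv0 using h1
    obtain ⟨f, hf⟩ := Module.exists_dual_forall_apply_ne_zero (K := ℝ) v hv0
    obtain ⟨T', hT'⟩ := ih (fun i => K i ⊓ LinearMap.ker f) (by
      intro i
      by_cases hi : K i = ⊥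
      · have : K i ⊓ LinearMap.ker f = ⊥ := by rw [hi]; simp
        rw [this]; simp
      · have hlt : K i ⊓ LinearMap.ker f < K i := by
          refine lt_of_le_of_ne inf_le_left ?_
          intro h
          have h2 : v ⟨i, hi⟩ ∈ K i ⊓ LinearMap.ker f := by rw [h]; exact hv ⟨i, hi⟩
          exact hf ⟨i, hi⟩ (LinearMap.mem_ker.1 h2.2)
        have h3 := Submodule.finrank_lt_finrank_of_lt hlt
        have h4 := hK i
        omega)
    refine ⟨LinearMap.pi (Fin.cons f (fun j => (LinearMap.proj j) ∘ₗ T')), ?_⟩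
    intro i u hu h0
    apply hT' i u ⟨hu, ?_⟩
    · funext j
      have := congr_fun h0 j.succ
      simpa using this
    · have := congr_fun h0 0
      simpa using this

open Classical in
/-- weighted count of independent tuples of lines through a point, in a general space -/
noncomputable def Nv {n : ℕ} {U : Type*} [AddCommGroup U] [Module ℝ U] {J L : Type*} [Fintype L]
    (e : L → U) (I : J → L → Prop) (w : L → ℝ) (a : J) : ℝ :=
  ∑ σ ∈ (univ : Finset (Fin n → L)).filter
    (fun σ => (∀ j, I a (σ j)) ∧ LinearIndependent ℝ (fun j => e (σ j))), ∏ j, w (σ j)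

open Classical in
/-- Weighted joints theorem in a general space, with `n`-tuples of independent lines. -/
theorem joints_general {n : ℕ} (hn : 2 ≤ n) {U : Type*} [AddCommGroup U] [Module ℝ U]
    [FiniteDimensional ℝ U] {J L : Type*} [Fintype J] [Fintype L]
    (x : J → U) (hx : Function.Injective x) (e : L → U) (I : J → L → Prop)
    (hline : ∀ a b l, I a l → I b l → ∃ c : ℝ, x b = x a + c • e l)
    (w : L → ℝ) (hw : ∀ l, 0 ≤ w l) :
    ∑ a, (Nv (n := n) e I w a) ^ ((1 : ℝ) / ((n : ℝ) - 1)) ≤
      ((n : ℝ) * ∑ l, w l) ^ ((n : ℝ) / ((n : ℝ) - 1)) := by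
  obtain ⟨T, hT⟩ := exists_generic n
    (fun i : (J × J) ⊕ (Fin n → L) => match i with
      | Sum.inl p => Submodule.span ℝ {x p.1 - x p.2}
      | Sum.inr σ => Submodule.span ℝ (Set.range (fun j => e (σ j)))) (by
      rintro (p | σ)
      · have : finrank ℝ (Submodule.span ℝ {x p.1 - x p.2}) ≤ 1 := by
          have := finrank_span_le_card (R := ℝ) ({x p.1 - x p.2} : Set U)
          simpa using this
        simp only
        omega
      · have := finrank_range_le_card (R := ℝ) (fun j => e (σ j))
        simp only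
        rw [Fintype.card_fin] at this
        exact this)
  have hxT : Function.Injective (fun a => T (x a)) := by
    intro a b hab
    apply hx
    have h1 := hT (Sum.inl (a, b)) (x a - x b) (Submodule.mem_span_singleton_self _)
      (by rw [map_sub]; simpa [sub_eq_zero] using hab)
    exact sub_eq_zero.1 h1
  have hmain := joints_weighted hn (fun a => T (x a)) hxT (fun l => T (e l)) I (by
    intro a b l ha hb
    obtain ⟨c, hc⟩ := hline a b l ha hb
    refine ⟨c, fun i => ?_⟩
    rw [hc, map_add, map_smul]; simp) w hw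
  refine le_trans (Finset.sum_le_sum ?_) hmain
  intro a _
  have hn1 : (0 : ℝ) < (n : ℝ) - 1 := by
    have : (2 : ℝ) ≤ n := by exact_mod_cast hn
    linarith
  apply Real.rpow_le_rpow
  · unfold Nv
    exact Finset.sum_nonneg (fun σ _ => Finset.prod_nonneg (fun j _ => hw _))
  · unfold Nv Nw
    apply Finset.sum_le_sum_of_subset_of_nonneg
    · intro σ hσ
      rw [mem_filter] at hσ ⊢
      refine ⟨hσ.1, hσ.2.1, ?_⟩
      have h1 := hσ.2.2
      have h2 : LinearIndependent ℝ (T ∘ (fun j => e (σ j))) := by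
        apply h1.map
        rw [Submodule.disjoint_def]
        intro u hu hu0
        exact hT (Sum.inr σ) u hu (LinearMap.mem_ker.1 hu0)
      exact h2
    · intro σ _ _
      exact Finset.prod_nonneg (fun j _ => hw _)
  · positivity

open Classical in
/-- weighted count of tuples for flats -/
noncomputable def Nf {n : ℕ} {E : Type*} [AddCommGroup E] [Module ℝ E] {J L : Type*} [Fintype L]
    (V : J → Submodule ℝ E) (B : L → Submodule ℝ E) (w : L → ℝ) (a : J) : ℝ :=
  ∑ σ ∈ (univ : Finset (Fin n → L)).filter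
    (fun σ => (∀ j, B (σ j) ≤ V a) ∧ finrank ℝ (⨅ j, B (σ j) : Submodule ℝ E) ≤ 1), ∏ j, w (σ j)

open Classical in
/-- The joints theorem for flats -/
theorem joints_flats {n : ℕ} (hn : 2 ≤ n) {E : Type*} [AddCommGroup E] [Module ℝ E]
    [FiniteDimensional ℝ E] {J L : Type*} [Fintype J] [Fintype L]
    (V : J → Submodule ℝ E) (hV : Function.Injective V) (hVn : ∀ a, finrank ℝ (V a) = n + 1)
    (B : L → Submodule ℝ E) (hBn : ∀ l, finrank ℝ (B l) = n)
    (w : L → ℝ) (hw : ∀ l, 0 ≤ w l) :
    ∑ a, (Nf (n := n) V B w a) ^ ((1 : ℝ) / ((n : ℝ) - 1)) ≤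
      ((n : ℝ) * ∑ l, w l) ^ ((n : ℝ) / ((n : ℝ) - 1)) := by
  obtain ⟨h, hh⟩ := exists_generic (n + 1) V (fun a => (hVn a).le)
  -- sections
  have hs : ∀ a, ∃ s : (Fin (n + 1) → ℝ) →ₗ[ℝ] E, (∀ y, s y ∈ V a) ∧ (∀ y, h (s y) = y) ∧
      (∀ v ∈ V a, s (h v) = v) := by
    intro a
    let ha : V a →ₗ[ℝ] (Fin (n + 1) → ℝ) := h.domRestrict (V a)
    have hinj : Function.Injective ha := by
      rw [← LinearMap.ker_eq_bot, Submodule.eq_bot_iff]
      intro u hu
      have := hh a u.1 u.2 hu
      exact Subtype.ext this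
    let hae : V a ≃ₗ[ℝ] (Fin (n + 1) → ℝ) :=
      LinearEquiv.ofInjectiveOfFinrankEq ha hinj (by rw [hVn a]; simp)
    refine ⟨(V a).subtype ∘ₗ hae.symm.toLinearMap, fun y => (hae.symm y).2, ?_, ?_⟩
    · intro y
      have h1 : ha (hae.symm y) = y := by
        have h2 := hae.apply_symm_apply y
        exact h2
      exact h1
    · intro v hv
      have h1 : hae ⟨v, hv⟩ = h v := rfl
      simp only [LinearMap.comp_apply, LinearEquiv.coe_coe]
      rw [← h1, hae.symm_apply_apply]
      rfl
  choose s hs1 hs2 hs3 using hs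
  have hsinj : ∀ p : {p : J × J // p.1 ≠ p.2}, ∃ y, s p.1.1 y - s p.1.2 y ≠ 0 := by
    rintro ⟨⟨a, b⟩, hab⟩
    by_contra hcon
    push Not at hcon
    apply hab
    apply hV
    simp only at hcon ⊢
    apply le_antisymm
    · intro v hv
      have h1 := hcon (h v)
      rw [hs3 a v hv, sub_eq_zero] at h1
      rw [h1]; exact hs1 b _
    · intro v hv
      have h1 := hcon (h v)
      rw [hs3 b v hv, sub_eq_zero] at h1
      rw [← h1]; exact hs1 a _
  choose y hy using hsinj
  obtain ⟨ξ, hξ⟩ := Module.exists_dual_forall_apply_ne_zero (K := ℝ) (fun p => s p.1.1 (y p) - s p.1.2 (y p)) hy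
  -- points
  set X : J → Module.Dual ℝ (Fin (n + 1) → ℝ) := fun a => ξ ∘ₗ s a with hX
  have hXinj : Function.Injective X := by
    intro a b hab
    by_contra hne
    apply hξ ⟨(a, b), hne⟩
    have := LinearMap.congr_fun hab (y ⟨(a, b), hne⟩)
    simp only [hX, LinearMap.comp_apply] at this
    rw [map_sub, this, sub_self]
  -- directions of the lines
  have he : ∀ l, ∃ e : Module.Dual ℝ (Fin (n + 1) → ℝ), (∃ a, B l ≤ V a) →
      LinearMap.ker e = (B l).map h := by
    intro l
    by_cases hl : ∃ a, B l ≤ V a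
    · obtain ⟨a, ha⟩ := hl
      have h1 : finrank ℝ ((B l).map h) = n := by
        have h2 : (B l).map h = LinearMap.range (h.domRestrict (B l)) := by
          rw [LinearMap.range_domRestrict]
        have h3 : Function.Injective (h.domRestrict (B l)) := by
          rw [← LinearMap.ker_eq_bot, Submodule.eq_bot_iff]
          intro u hu
          exact Subtype.ext (hh a u.1 (ha u.2) hu)
        rw [h2, LinearMap.finrank_range_of_inj h3, hBn l]
      have hlt : (B l).map h < ⊤ := by
        rw [lt_top_iff_ne_top]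
        intro h4
        rw [h4] at h1
        simp at h1
      obtain ⟨f, hf0, hf⟩ := Submodule.exists_le_ker_of_lt_top _ hlt
      refine ⟨f, fun _ => (Submodule.eq_of_le_of_finrank_eq hf ?_).symm⟩
      rw [h1]
      have h5 := Module.Dual.finrank_ker_add_one_of_ne_zero (f := f) hf0
      simp at h5
      omega
    · exact ⟨0, fun h => absurd h hl⟩
  choose e he using he
  have hmain := joints_general hn X hXinj e (fun a l => B l ≤ V a) (by
    intro a b l ha hb
    have h1 : X b - X a ∈ Submodule.span ℝ (Set.range (fun _ : Unit => e l)) := by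
      apply mem_span_of_iInf_ker_le_ker
      intro z hz
      rw [Submodule.mem_iInf] at hz
      have hz1 := hz ()
      rw [he l ⟨a, ha⟩] at hz1
      obtain ⟨v, hv, rfl⟩ := hz1
      rw [LinearMap.mem_ker]
      simp only [hX, LinearMap.sub_apply, LinearMap.comp_apply]
      rw [hs3 a v (ha hv), hs3 b v (hb hv), sub_self]
    rw [Set.range_const, Submodule.mem_span_singleton] at h1
    obtain ⟨c, hc⟩ := h1
    exact ⟨c, by rw [hc]; abel⟩) w hw
  refine le_trans (Finset.sum_le_sum ?_) hmain
  intro a _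
  have hn1 : (0 : ℝ) < (n : ℝ) - 1 := by
    have : (2 : ℝ) ≤ n := by exact_mod_cast hn
    linarith
  apply Real.rpow_le_rpow
  · unfold Nf
    exact Finset.sum_nonneg (fun σ _ => Finset.prod_nonneg (fun j _ => hw _))
  · unfold Nf Nv
    apply Finset.sum_le_sum_of_subset_of_nonneg
    · intro σ hσ
      rw [mem_filter] at hσ ⊢
      refine ⟨hσ.1, hσ.2.1, ?_⟩
      rw [linearIndependent_iff_card_le_finrank_span, Fintype.card_fin]
      set Φ : Submodule ℝ (Module.Dual ℝ (Fin (n + 1) → ℝ)) :=
        Submodule.span ℝ (Set.range (fun j => e (σ j))) with hΦ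
      have h1 := Subspace.finrank_add_finrank_dualCoannihilator_eq Φ
      have h2 : Φ.dualCoannihilator ≤ (⨅ j, B (σ j) : Submodule ℝ E).map h := by
        intro z hz
        rw [Submodule.mem_dualCoannihilator] at hz
        refine ⟨s a z, ?_, hs2 a z⟩
        rw [SetLike.mem_coe, Submodule.mem_iInf]
        intro j
        have h3 : e (σ j) z = 0 := hz _ (Submodule.subset_span ⟨j, rfl⟩)
        have h4 : z ∈ LinearMap.ker (e (σ j)) := h3
        rw [he (σ j) ⟨a, hσ.2.1 j⟩] at h4
        obtain ⟨v, hv, rfl⟩ := h4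
        rw [hs3 a v (hσ.2.1 j hv)]
        exact hv
      have h3 := Submodule.finrank_mono h2
      have h4 := Submodule.finrank_map_le h (⨅ j, B (σ j) : Submodule ℝ E)
      have h5 := hσ.2.2
      have h6 : finrank ℝ (Fin (n + 1) → ℝ) = n + 1 := by simp
      have h7 : (Set.range (fun j => e (σ j))).finrank ℝ = finrank ℝ Φ := rfl
      omega
    · intro σ _ _
      exact Finset.prod_nonneg (fun j _ => hw _)
  · positivity

end Pool.Agent.H52.Joints
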