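import Mathlib
import Pool.Agent.H52.Flats
import Pool.Agent.H52.FaceIneq

open Set Module MeasureTheory

namespace Pool.Agent.H52.Poly

open Pool.Agent.H52.Joints

open Classical in
/-- extended-real version of the joints theorem for flats -/
theorem joints_flats_ennreal {n : ℕ} (hn : 2 ≤ n) {E : Type*} [AddCommGroup E] [Module ℝ E]
    [FiniteDimensional ℝ E] {J L : Type*} [Fintype J] [Fintype L]
    (V : J → Submodule ℝ E) (hV : Function.Injective V) (hVn : ∀ a, finrank ℝ (V a) = n + 1)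
    (B : L → Submodule ℝ E) (hBn : ∀ l, finrank ℝ (B l) = n) (w : L → ENNReal) :
    ∑ a, (∑ σ ∈ (Finset.univ : Finset (Fin n → L)).filter
      (fun σ => (∀ j, B (σ j) ≤ V a) ∧ finrank ℝ (⨅ j, B (σ j) : Submodule ℝ E) ≤ 1),
        ∏ j, w (σ j)) ^ ((1 : ℝ) / ((n : ℝ) - 1)) ≤
      ((n : ENNReal) * ∑ l, w l) ^ ((n : ℝ) / ((n : ℝ) - 1)) := by
  have hn0 : (0 : ℝ) < n := by positivity
  have hn1 : (0 : ℝ) < (n : ℝ) - 1 := by
    have : (2 : ℝ) ≤ n := by exact_mod_cast hn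
    linarith
  by_cases hw : ∃ l, w l = ⊤
  · obtain ⟨l, hl⟩ := hw
    have h1 : ∑ l, w l = ⊤ := by
      rw [ENNReal.sum_eq_top]; exact ⟨l, Finset.mem_univ _, hl⟩
    rw [h1, ENNReal.mul_top (by
      have : 0 < n := by omega
      exact_mod_cast this.ne'), ENNReal.top_rpow_of_pos (by positivity)]
    exact le_top
  · push Not at hw
    set v : L → ℝ := fun l => (w l).toReal with hv
    have hwv : ∀ l, w l = ENNReal.ofReal (v l) := fun l => (ENNReal.ofReal_toReal (hw l)).symm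
    have hv0 : ∀ l, 0 ≤ v l := fun l => ENNReal.toReal_nonneg
    have hmain := joints_flats hn V hV hVn B hBn v hv0
    have h1 : ∀ a, (∑ σ ∈ (Finset.univ : Finset (Fin n → L)).filter
      (fun σ => (∀ j, B (σ j) ≤ V a) ∧ finrank ℝ (⨅ j, B (σ j) : Submodule ℝ E) ≤ 1),
        ∏ j, w (σ j)) ^ ((1 : ℝ) / ((n : ℝ) - 1)) =
        ENNReal.ofReal ((Nf (n := n) V B v a) ^ ((1 : ℝ) / ((n : ℝ) - 1))) := by
      intro a
      have h2 : (∑ σ ∈ (Finset.univ : Finset (Fin n → L)).filter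
        (fun σ => (∀ j, B (σ j) ≤ V a) ∧ finrank ℝ (⨅ j, B (σ j) : Submodule ℝ E) ≤ 1),
          ∏ j, w (σ j)) = ENNReal.ofReal (Nf (n := n) V B v a) := by
        unfold Nf
        rw [ENNReal.ofReal_sum_of_nonneg (fun σ _ => Finset.prod_nonneg (fun j _ => hv0 _))]
        apply Finset.sum_congr rfl
        intro σ _
        rw [ENNReal.ofReal_prod_of_nonneg (fun j _ => hv0 _)]
        simp only [hwv]
      rw [h2, ENNReal.ofReal_rpow_of_nonneg _ (by positivity)]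
      unfold Nf
      exact Finset.sum_nonneg (fun σ _ => Finset.prod_nonneg (fun j _ => hv0 _))
    simp only [h1]
    rw [← ENNReal.ofReal_sum_of_nonneg]
    · have h3 : ((n : ENNReal) * ∑ l, w l) ^ ((n : ℝ) / ((n : ℝ) - 1)) =
          ENNReal.ofReal (((n : ℝ) * ∑ l, v l) ^ ((n : ℝ) / ((n : ℝ) - 1))) := by
        rw [← ENNReal.ofReal_rpow_of_nonneg
          (mul_nonneg hn0.le (Finset.sum_nonneg (fun l _ => hv0 l))) (by positivity),
          ENNReal.ofReal_mul hn0.le, ENNReal.ofReal_natCast,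
          ENNReal.ofReal_sum_of_nonneg (fun l _ => hv0 l)]
        simp only [hwv]
      rw [h3]
      exact ENNReal.ofReal_le_ofReal hmain
    · intro a _
      apply Real.rpow_nonneg
      unfold Nf
      exact Finset.sum_nonneg (fun σ _ => Finset.prod_nonneg (fun j _ => hv0 _))

variable {E : Type*} [NormedAddCommGroup E] [InnerProductSpace ℝ E] [FiniteDimensional ℝ E]
variable [MeasurableSpace E] [BorelSpace E]

/-- the `m`-content of the polytope `convexHull S` -/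
noncomputable def Z (S : Finset E) (m : ℕ) : ENNReal := ∑ F : FaceT S m, μH[(m : ℝ)] F.1

/-- comparison of consecutive contents -/
theorem Z_succ_le (m : ℕ) (hm : 1 ≤ m) : ∃ C : NNReal, ∀ S : Finset E,
    Z S (m + 1) ≤ (C : ENNReal) * (Z S m) ^ (((m + 1 : ℕ) : ℝ) / (m : ℝ)) := by
  classical
  have hm0 : (0 : ℝ) < m := by exact_mod_cast hm
  set c : NNReal := (((m + 1 : ℕ) : NNReal) ^ (m + 1)) ^ m with hc
  set p : ℝ := (1 : ℝ) / m with hp
  set q : ℝ := ((m + 1 : ℕ) : ℝ) / (m : ℝ) with hq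
  refine ⟨c ^ p * ((m + 1 : ℕ) : NNReal) ^ q, fun S => ?_⟩
  have hcE : ((c : NNReal) : ENNReal) = (((m + 1 : ℕ) : ENNReal) ^ (m + 1)) ^ m := by
    rw [hc]; push_cast; rfl
  have hJ := joints_flats_ennreal (n := m + 1) (by omega) (fun F : FaceT S (m + 1) => hat F.1)
    (by
      intro F F' h
      exact Subtype.ext (hat_injOn F.2.1 F.2.2.1 F'.2.1 F'.2.2.1 h))
    (by intro F; rw [finrank_hat F.2.2.1, F.2.2.2])
    (fun G : FaceT S m => hat G.1)
    (by intro G; rw [finrank_hat G.2.2.1, G.2.2.2])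
    (fun G => μH[(m : ℝ)] G.1)
  have e1 : (((m + 1 : ℕ) : ℝ) - 1) = m := by push_cast; ring
  rw [e1] at hJ
  have h1 : ∀ F : FaceT S (m + 1), μH[((m + 1 : ℕ) : ℝ)] F.1 ≤ ((c : NNReal) : ENNReal) ^ p *
      (∑ σ ∈ (Finset.univ : Finset (Fin (m + 1) → FaceT S m)).filter
      (fun σ => (∀ j, hat (σ j).1 ≤ hat F.1) ∧ finrank ℝ (⨅ j, hat (σ j).1 : Submodule ℝ (E × ℝ)) ≤ 1),
        ∏ j, μH[(m : ℝ)] (σ j).1) ^ p := by
    intro F
    have h2 := face_ineq S m F
    have h3 : (μH[((m + 1 : ℕ) : ℝ)] F.1) = ((μH[((m + 1 : ℕ) : ℝ)] F.1) ^ m) ^ p := by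
      rw [← ENNReal.rpow_natCast, ← ENNReal.rpow_mul]
      have : (m : ℝ) * p = 1 := by rw [hp]; field_simp
      rw [this, ENNReal.rpow_one]
    rw [h3, ← ENNReal.mul_rpow_of_nonneg _ _ (by positivity)]
    apply ENNReal.rpow_le_rpow _ (by positivity)
    refine h2.trans ?_
    rw [hcE]
    gcongr with σ hσ
    intro h
    exact hat_mono h
  calc Z S (m + 1) ≤ ∑ F : FaceT S (m + 1), ((c : NNReal) : ENNReal) ^ p *
      (∑ σ ∈ (Finset.univ : Finset (Fin (m + 1) → FaceT S m)).filter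
      (fun σ => (∀ j, hat (σ j).1 ≤ hat F.1) ∧ finrank ℝ (⨅ j, hat (σ j).1 : Submodule ℝ (E × ℝ)) ≤ 1),
        ∏ j, μH[(m : ℝ)] (σ j).1) ^ p := Finset.sum_le_sum (fun F _ => h1 F)
    _ = ((c : NNReal) : ENNReal) ^ p * ∑ F : FaceT S (m + 1),
      (∑ σ ∈ (Finset.univ : Finset (Fin (m + 1) → FaceT S m)).filter
      (fun σ => (∀ j, hat (σ j).1 ≤ hat F.1) ∧ finrank ℝ (⨅ j, hat (σ j).1 : Submodule ℝ (E × ℝ)) ≤ 1),
        ∏ j, μH[(m : ℝ)] (σ j).1) ^ p := by rw [Finset.mul_sum]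
    _ ≤ ((c : NNReal) : ENNReal) ^ p * (((m + 1 : ℕ) : ENNReal) * Z S m) ^ q := by
        gcongr
        exact hJ
    _ = _ := by
        rw [ENNReal.mul_rpow_of_nonneg _ _ (by positivity), ← mul_assoc]
        congr 1
        rw [ENNReal.coe_mul, ENNReal.coe_rpow_of_nonneg _ (by positivity),
          ENNReal.coe_rpow_of_nonneg _ (by positivity)]
        norm_cast

/-- comparison of all contents -/
theorem Z_le (k : ℕ) (hk : 1 ≤ k) (s : ℕ) (hs : k ≤ s) : ∃ C : NNReal, ∀ S : Finset E,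
    Z S s ≤ (C : ENNReal) * (Z S k) ^ ((s : ℝ) / (k : ℝ)) := by
  have hk0 : (0 : ℝ) < k := by exact_mod_cast hk
  induction s, hs using Nat.le_induction with
  | base =>
    refine ⟨1, fun S => ?_⟩
    rw [div_self hk0.ne', ENNReal.rpow_one]; simp
  | succ s hs ih =>
    obtain ⟨C, hC⟩ := ih
    obtain ⟨C', hC'⟩ := Z_succ_le (E := E) s (by omega)
    have hs0 : (0 : ℝ) < s := by
      have : 0 < s := by omega
      exact_mod_cast this
    refine ⟨C' * C ^ (((s + 1 : ℕ) : ℝ) / (s : ℝ)), fun S => ?_⟩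
    refine (hC' S).trans ?_
    calc (C' : ENNReal) * (Z S s) ^ (((s + 1 : ℕ) : ℝ) / (s : ℝ))
        ≤ (C' : ENNReal) * ((C : ENNReal) * (Z S k) ^ ((s : ℝ) / (k : ℝ))) ^ (((s + 1 : ℕ) : ℝ) / (s : ℝ)) := by
          gcongr
          exact hC S
      _ = _ := by
          rw [ENNReal.mul_rpow_of_nonneg _ _ (by positivity), ← mul_assoc, ← ENNReal.rpow_mul]
          have : (s : ℝ) / (k : ℝ) * (((s + 1 : ℕ) : ℝ) / (s : ℝ)) = ((s + 1 : ℕ) : ℝ) / k := by
            field_simp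
          rw [this]
          congr 1
          rw [ENNReal.coe_mul, ENNReal.coe_rpow_of_nonneg _ (by positivity)]

end Pool.Agent.H52.Poly
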